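import Pool.Graph.R_pool_sql_team_seeded_620a6dc7.H483S.Near

/-!
Basic notions for admissible families (pairwise intersections are non-empty progressions).
-/

set_option autoImplicit false

namespace Pool.Agent.H21.AP

open Finset Pool.Agent.H483S

/-- the progression generated by `x, y, z` is not contained in `A` -/
def Own (A : Finset ℤ) (x y z : ℤ) : Prop :=
  ∃ w : ℤ, w ∉ A ∧ ((Int.gcd (y - x) (z - x) : ℕ) : ℤ) ∣ (w - x) ∧
    min x (min y z) ≤ w ∧ w ≤ max x (max y z)

theorem hull_shift {P : Finset ℤ} (hP : IsAP P) {x y z w : ℤ} (hx : x ∈ P) (hy : y ∈ P)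
    (hz : z ∈ P) (hw : ((Int.gcd (y - x) (z - x) : ℕ) : ℤ) ∣ (w - x))
    (h1 : min x (min y z) ≤ w) (h2 : w ≤ max x (max y z)) : w ∈ P := by
  classical
  have hQ := hP.shift x
  have hmem : ∀ u ∈ P, u - x ∈ P.image (fun y => y - x) := fun u hu => mem_image.2 ⟨u, hu, rfl⟩
  have hmP : min x (min y z) ∈ P := by
    rcases min_choice x (min y z) with e | e
    · rw [e]; exact hx
    · rw [e]
      rcases min_choice y z with e | e <;> rw [e]
      · exact hy
      · exact hz
  have hMP : max x (max y z) ∈ P := by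
    rcases max_choice x (max y z) with e | e
    · rw [e]; exact hx
    · rw [e]
      rcases max_choice y z with e | e <;> rw [e]
      · exact hy
      · exact hz
  have h0 : (0 : ℤ) ∈ P.image (fun y => y - x) := mem_image.2 ⟨x, hx, by ring⟩
  have h := hQ.hull h0 (hmem y hy) (hmem z hz) hw (hmem _ hmP) (hmem _ hMP)
    (by linarith) (by linarith)
  obtain ⟨v, hv, hvw⟩ := mem_image.1 h
  have : v = w := by linarith
  rwa [← this]

/-- a triple that is own for `A` is in no other member -/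
theorem own_unique {A B : Finset ℤ} (h : IsAP (A ∩ B)) {x y z : ℤ} (hx : x ∈ A) (hy : y ∈ A)
    (hz : z ∈ A) (hx' : x ∈ B) (hy' : y ∈ B) (hz' : z ∈ B) : ¬ Own A x y z := by
  rintro ⟨w, hwA, hw, h1, h2⟩
  exact hwA (mem_inter.1 (hull_shift h (mem_inter.2 ⟨hx, hx'⟩) (mem_inter.2 ⟨hy, hy'⟩)
    (mem_inter.2 ⟨hz, hz'⟩) hw h1 h2)).1

end Pool.Agent.H21.AP
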