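import Pool.Graph.R_pool_sql_team_seeded_620a6dc7.H483S.Near

/-!
The pair count for progressions through a point, where the pairs of a box are not used
(a modification of the library proof of `H483S.ap_count`).
-/

set_option autoImplicit false

namespace Pool.Agent.H21.AP

open Finset Pool.Agent.H483S

/-- the map on the triples of type 1 -/
def bPhi (p : ℕ × ℕ × ℕ) : ℤ × ℤ :=
  if p.2.1 = 0 then (((p.2.2 : ℤ) - 1) * p.1, (p.2.2 : ℤ) * p.1)
  else if p.2.2 = 0 then ((-(p.2.1 : ℤ)) * p.1, (-1 : ℤ) * p.1)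
  else ((-(p.2.1 : ℤ)) * p.1, (p.2.2 : ℤ) * p.1)

/-- the pairs which may be in the image of the map on the triples of type 1 -/
def bDv (q : ℤ × ℤ) : Prop :=
  (0 < q.1 ∧ q.2 - q.1 = (Int.gcd q.1 q.2 : ℕ)) ∨ (q.2 < 0 ∧ q.2 ∣ q.1) ∨ (q.1 < 0 ∧ 0 < q.2)

/-- the box -/
def bBox (b : ℕ) (q : ℤ × ℤ) : Prop :=
  0 < q.1 ∧ 1000 * q.1 ≤ b ∧ 999 * (b : ℤ) ≤ 1000 * q.2

theorem gcd_consec (j d : ℕ) : (Int.gcd (((j : ℤ) - 1) * d) ((j : ℤ) * d) : ℕ) = d := by
  rw [Int.gcd_mul_right, Int.natAbs_natCast]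
  have h : IsCoprime ((j : ℤ) - 1) (j : ℤ) := ⟨-1, 1, by ring⟩
  rw [Int.isCoprime_iff_gcd_eq_one.1 h, one_mul]

theorem bPhi_dv {d i j : ℕ} (hd : 1 ≤ d) (h2 : 2 ≤ i + j) : bDv (bPhi (d, i, j)) := by
  have hd' : (0 : ℤ) < d := by exact_mod_cast hd
  unfold bPhi bDv
  dsimp only
  by_cases hi : i = 0
  · rw [if_pos hi]
    left
    dsimp only
    have hj : (2 : ℤ) ≤ j := by exact_mod_cast (by omega : 2 ≤ j)
    refine ⟨mul_pos (by linarith) hd', ?_⟩
    rw [gcd_consec]
    ring
  · rw [if_neg hi]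
    by_cases hj : j = 0
    · rw [if_pos hj]
      right; left
      refine ⟨by linarith, ⟨(i : ℤ), by ring⟩⟩
    · rw [if_neg hj]
      right; right
      have hi' : (0 : ℤ) < i := by exact_mod_cast Nat.pos_of_ne_zero hi
      have hj' : (0 : ℤ) < j := by exact_mod_cast Nat.pos_of_ne_zero hj
      refine ⟨?_, mul_pos hj' hd'⟩
      have := mul_pos hi' hd'
      dsimp only
      linarith

theorem bPhi_box {b d i j : ℕ} (hd : 1 ≤ d) (h2 : 2 ≤ i + j) : ¬ bBox b (bPhi (d, i, j)) := by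
  have hd' : (0 : ℤ) < d := by exact_mod_cast hd
  unfold bPhi bBox
  dsimp only
  by_cases hi : i = 0
  · rw [if_pos hi]
    dsimp only
    have hj : (2 : ℤ) ≤ j := by exact_mod_cast (by omega : 2 ≤ j)
    rintro ⟨k1, k2, k3⟩
    have h3 : (j : ℤ) * d ≤ 2 * (((j : ℤ) - 1) * d) := by nlinarith
    linarith
  · rw [if_neg hi]
    have hi' : (0 : ℤ) < i := by exact_mod_cast Nat.pos_of_ne_zero hi
    have := mul_pos hi' hd'
    by_cases hj : j = 0
    · rw [if_pos hj]
      rintro ⟨k1, k2, k3⟩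
      dsimp only at k1
      linarith
    · rw [if_neg hj]
      rintro ⟨k1, k2, k3⟩
      dsimp only at k1
      linarith

theorem bPhi_mem {d i j : ℕ} (hd : 1 ≤ d) (h2 : 2 ≤ i + j) :
    bPhi (d, i, j) ∈ prs (prog d i j) := by
  unfold bPhi
  dsimp only
  by_cases hi : i = 0
  · rw [if_pos hi]
    have hj : (2 : ℤ) ≤ j := by exact_mod_cast (by omega : 2 ≤ j)
    exact ap_count_prs hd (by linarith [Int.natCast_nonneg i]) (by linarith) le_rfl
      (by linarith) (by linarith)
  · rw [if_neg hi]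
    have hi' : (1 : ℤ) ≤ i := by exact_mod_cast Nat.pos_of_ne_zero hi
    by_cases hj : j = 0
    · rw [if_pos hj]
      have hi2 : (2 : ℤ) ≤ i := by exact_mod_cast (by omega : 2 ≤ i)
      exact ap_count_prs hd le_rfl (by linarith) (by linarith [Int.natCast_nonneg j])
        (by linarith) (by norm_num)
    · rw [if_neg hj]
      have hj' : (1 : ℤ) ≤ j := by exact_mod_cast Nat.pos_of_ne_zero hj
      exact ap_count_prs hd le_rfl (by linarith) le_rfl (by linarith) (by linarith)

theorem bPhi_inj {d i j d' i' j' : ℕ} (hd : 1 ≤ d) (hd' : 1 ≤ d') (h2 : 2 ≤ i + j)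
    (h2' : 2 ≤ i' + j') (t : i = 0 ∨ j = 0 ∨ Nat.Coprime i j)
    (t' : i' = 0 ∨ j' = 0 ∨ Nat.Coprime i' j') (h : bPhi (d, i, j) = bPhi (d', i', j')) :
    (d, i, j) = (d', i', j') := by
  have e1 : (0 : ℤ) < d := by exact_mod_cast hd
  have e1' : (0 : ℤ) < d' := by exact_mod_cast hd'
  unfold bPhi at h
  dsimp only at h
  by_cases hi : i = 0
  · rw [if_pos hi] at h
    have hj : (2 : ℤ) ≤ j := by exact_mod_cast (by omega : 2 ≤ j)
    have hj1 : (0 : ℤ) < ((j : ℤ) - 1) * d := mul_pos (by linarith) e1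
    by_cases hi' : i' = 0
    · rw [if_pos hi'] at h
      obtain ⟨a1, a2⟩ := Prod.mk.inj h
      have a3 : d = d' := by
        have : (d : ℤ) = d' := by linarith
        exact_mod_cast this
      subst a3
      have a4 : j = j' := by
        have := mul_right_cancel₀ e1.ne' a2
        exact_mod_cast this
      rw [hi, hi', a4]
    · exfalso
      rw [if_neg hi'] at h
      have p : (0 : ℤ) < i' := by exact_mod_cast Nat.pos_of_ne_zero hi'
      have := mul_pos p e1'
      by_cases hj' : j' = 0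
      · rw [if_pos hj'] at h
        obtain ⟨a1, a2⟩ := Prod.mk.inj h
        linarith
      · rw [if_neg hj'] at h
        obtain ⟨a1, a2⟩ := Prod.mk.inj h
        linarith
  · rw [if_neg hi] at h
    have p : (0 : ℤ) < i := by exact_mod_cast Nat.pos_of_ne_zero hi
    have p1 := mul_pos p e1
    by_cases hi' : i' = 0
    · exfalso
      rw [if_pos hi'] at h
      have hj'2 : (2 : ℤ) ≤ j' := by exact_mod_cast (by omega : 2 ≤ j')
      have hj1 : (0 : ℤ) < ((j' : ℤ) - 1) * d' := mul_pos (by linarith) e1'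
      by_cases hj : j = 0
      · rw [if_pos hj] at h
        obtain ⟨a1, a2⟩ := Prod.mk.inj h
        linarith
      · rw [if_neg hj] at h
        obtain ⟨a1, a2⟩ := Prod.mk.inj h
        linarith
    · rw [if_neg hi'] at h
      have p' : (0 : ℤ) < i' := by exact_mod_cast Nat.pos_of_ne_zero hi'
      by_cases hj : j = 0
      · rw [if_pos hj] at h
        by_cases hj' : j' = 0
        · rw [if_pos hj'] at h
          obtain ⟨a1, a2⟩ := Prod.mk.inj h
          have a3 : d = d' := by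
            have : (d : ℤ) = d' := by linarith
            exact_mod_cast this
          subst a3
          have a4 : i = i' := by
            have := mul_right_cancel₀ e1.ne' a1
            have : (i : ℤ) = i' := by linarith
            exact_mod_cast this
          rw [hj, hj', a4]
        · exfalso
          rw [if_neg hj'] at h
          have q : (0 : ℤ) < j' := by exact_mod_cast Nat.pos_of_ne_zero hj'
          have := mul_pos q e1'
          obtain ⟨a1, a2⟩ := Prod.mk.inj h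
          linarith
      · rw [if_neg hj] at h
        have q : (0 : ℤ) < j := by exact_mod_cast Nat.pos_of_ne_zero hj
        have q1 := mul_pos q e1
        by_cases hj' : j' = 0
        · exfalso
          rw [if_pos hj'] at h
          obtain ⟨a1, a2⟩ := Prod.mk.inj h
          linarith
        · rw [if_neg hj'] at h
          obtain ⟨a1, a2⟩ := Prod.mk.inj h
          have c : Nat.Coprime i j := by
            rcases t with t | t | t
            · exact absurd t hi
            · exact absurd t hj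
            · exact t
          have c' : Nat.Coprime i' j' := by
            rcases t' with t | t | t
            · exact absurd t hi'
            · exact absurd t hj'
            · exact t
          have b1 : i * d = i' * d' := by
            have : (i : ℤ) * d = i' * d' := by linarith
            exact_mod_cast this
          have b2 : j * d = j' * d' := by exact_mod_cast a2
          have g1 : Nat.gcd (i * d) (j * d) = d := by
            rw [Nat.gcd_mul_right, c.gcd_eq_one, one_mul]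
          have g2 : Nat.gcd (i' * d') (j' * d') = d' := by
            rw [Nat.gcd_mul_right, c'.gcd_eq_one, one_mul]
          have a3 : d = d' := by rw [← g1, ← g2, b1, b2]
          subst a3
          have b3 : i = i' := Nat.eq_of_mul_eq_mul_right hd b1
          have b4 : j = j' := Nat.eq_of_mul_eq_mul_right hd b2
          rw [b3, b4]

/-- coprime pairs `1 ≤ p`, `p + 2 ≤ q ≤ J` -/
def V (J : ℕ) : Finset (ℕ × ℕ) :=
  ((Icc 1 J) ×ˢ (Icc 1 J)).filter (fun p => p.1 + 2 ≤ p.2 ∧ Nat.Coprime p.1 p.2)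

theorem mem_V {J : ℕ} {p : ℕ × ℕ} :
    p ∈ V J ↔ 1 ≤ p.1 ∧ p.1 + 2 ≤ p.2 ∧ p.2 ≤ J ∧ Nat.Coprime p.1 p.2 := by
  unfold V
  rw [Finset.mem_filter, Finset.mem_product, Finset.mem_Icc, Finset.mem_Icc]
  constructor
  · rintro ⟨⟨⟨h1, h2⟩, h3, h4⟩, h5, h6⟩
    exact ⟨h1, h5, h4, h6⟩
  · rintro ⟨h1, h2, h3, h4⟩
    exact ⟨⟨⟨h1, by omega⟩, by omega, h3⟩, h2, h4⟩

theorem W_le_V (J : ℕ) : (W J).card ≤ (V J).card := by
  apply Finset.card_le_card_of_injOn
    (fun p : ℕ × ℕ => if p.2 = p.1 + 1 then ((1, p.2) : ℕ × ℕ) else p)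
  · rintro ⟨p, q⟩ h
    obtain ⟨h1, h2, h3, h4⟩ := ap_mem_W (Finset.mem_coe.1 h)
    dsimp only at h1 h2 h3 h4 ⊢
    apply Finset.mem_coe.2
    by_cases hq : q = p + 1
    · rw [if_pos hq, mem_V]
      exact ⟨le_rfl, by dsimp only; omega, h3, Nat.coprime_one_left _⟩
    · rw [if_neg hq, mem_V]
      exact ⟨by dsimp only; omega, by dsimp only; omega, h3, h4⟩
  · rintro ⟨p, q⟩ h ⟨p', q'⟩ h' e
    obtain ⟨h1, h2, h3, h4⟩ := ap_mem_W (Finset.mem_coe.1 h)
    obtain ⟨k1, k2, k3, k4⟩ := ap_mem_W (Finset.mem_coe.1 h')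
    dsimp only at h1 h2 h3 h4 k1 k2 k3 k4 e
    by_cases hq : q = p + 1
    · rw [if_pos hq] at e
      by_cases hq' : q' = p' + 1
      · rw [if_pos hq'] at e
        obtain ⟨a1, a2⟩ := Prod.mk.inj e
        rw [Prod.mk.injEq]
        omega
      · rw [if_neg hq'] at e
        obtain ⟨a1, a2⟩ := Prod.mk.inj e
        omega
    · rw [if_neg hq] at e
      by_cases hq' : q' = p' + 1
      · rw [if_pos hq'] at e
        obtain ⟨a1, a2⟩ := Prod.mk.inj e
        omega
      · rw [if_neg hq'] at e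
        exact e

/-- the pairs of `V J` outside the box -/
def V' (b d J : ℕ) : Finset (ℕ × ℕ) :=
  (V J).filter (fun p => ¬ (1000 * (p.1 * d) ≤ b ∧ 999 * b ≤ 1000 * (p.2 * d)))

theorem np_bound_box {a b d I J : ℕ} (hab : 1000 * a ≤ b) (hd : 1 ≤ d) (hI : 2 ≤ I) (hJ : 2 ≤ J)
    (hIa : d * I ≤ a) (hJb : d * J ≤ b) :
    (NP I J).card ≤ 1 + (W I).card + (V' b d J).card := by
  by_cases hc : 1000 * (d * J) < 999 * b
  · -- no pair of `V J` is in the box
    have h1 : V' b d J = V J := by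
      unfold V'
      apply Finset.filter_true_of_mem
      intro p hp
      obtain ⟨h1, h2, h3, h4⟩ := mem_V.1 hp
      rintro ⟨k1, k2⟩
      have : d * p.2 ≤ d * J := Nat.mul_le_mul_left _ h3
      rw [mul_comm p.2 d] at k2
      omega
    rw [h1]
    have h2 := np_bound I J (by omega) (by omega)
    have h3 := W_le_V J
    omega
  · push Not at hc
    -- `999 I ≤ J`
    have hIJ : 999 * I ≤ J := by
      have h1 : d * (999 * I) ≤ d * J := by nlinarith
      exact Nat.le_of_mul_le_mul_left h1 hd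
    -- excluded pairs
    have hsub : V J \ V' b d J ⊆ (Icc 1 (J / 999)) ×ˢ (Icc (J - J / 1000) J) := by
      intro p hp
      obtain ⟨hp1, hp2⟩ := Finset.mem_sdiff.1 hp
      have hp3 : (1000 * (p.1 * d) ≤ b ∧ 999 * b ≤ 1000 * (p.2 * d)) := by
        by_contra hcon
        exact hp2 (Finset.mem_filter.2 ⟨hp1, hcon⟩)
      obtain ⟨h1, h2, h3, h4⟩ := mem_V.1 hp1
      rw [Finset.mem_product, Finset.mem_Icc, Finset.mem_Icc]
      have e1 : 999 * p.1 ≤ J := by
        have h1 : d * (999 * p.1) ≤ d * J := by nlinarith [hp3.1]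
        exact Nat.le_of_mul_le_mul_left h1 hd
      have e2 : 999 * J ≤ 1000 * p.2 := by
        have h1 : d * (999 * J) ≤ d * (1000 * p.2) := by nlinarith [hp3.2]
        exact Nat.le_of_mul_le_mul_left h1 hd
      refine ⟨⟨h1, by omega⟩, by omega, h3⟩
    have hcard1 : (V J \ V' b d J).card ≤ (J / 999) * (J / 1000 + 1) := by
      refine (Finset.card_le_card hsub).trans ?_
      rw [Finset.card_product, Nat.card_Icc, Nat.card_Icc, Nat.add_sub_cancel]
      apply Nat.mul_le_mul_left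
      omega
    have hcard2 : (V J).card ≤ (V' b d J).card + (J / 999) * (J / 1000 + 1) := by
      have := Finset.card_le_card_sdiff_add_card (s := V J) (t := V' b d J)
      omega
    have h3 := W_le_V J
    have h4 := NP_le I J
    have h5 := W_ge J (by omega)
    have hcc : cc = 10397 / 22050 := by unfold cc; norm_num
    rw [hcc] at h4 h5
    have hI' : (999 : ℝ) * I ≤ J := by exact_mod_cast hIJ
    have hJ' : (1998 : ℝ) ≤ J := by exact_mod_cast (by omega : 1998 ≤ J)
    have h6 : ((W J).card : ℝ) ≤ (V' b d J).card + ((J / 999 : ℕ) : ℝ) * (((J / 1000 : ℕ) : ℝ) + 1) := by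
      exact_mod_cast h3.trans hcard2
    have h7 : ((J / 999 : ℕ) : ℝ) ≤ (J : ℝ) / 999 := by
      have := @Nat.cast_div_le ℝ _ _ _ J 999
      simpa using this
    have h8 : ((J / 1000 : ℕ) : ℝ) ≤ (J : ℝ) / 1000 := by
      have := @Nat.cast_div_le ℝ _ _ _ J 1000
      simpa using this
    have h9 : ((J / 999 : ℕ) : ℝ) * (((J / 1000 : ℕ) : ℝ) + 1) ≤ ((J : ℝ) / 999) * ((J : ℝ) / 1000 + 1) := by
      apply mul_le_mul h7 (by linarith) (by positivity) (by positivity)
    have h10 : (0 : ℝ) ≤ (W I).card := Nat.cast_nonneg _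
    have h11 : (10397 / 22050 : ℝ) * I * J ≤ (10397 / 22050 : ℝ) * (J / 999) * J := by
      apply mul_le_mul_of_nonneg_right _ (by linarith)
      apply mul_le_mul_of_nonneg_left _ (by norm_num)
      linarith
    suffices hs : ((NP I J).card : ℝ) ≤ 1 + (W I).card + (V' b d J).card by exact_mod_cast hs
    nlinarith [mul_nonneg (sub_nonneg.2 hJ') (by linarith : (0 : ℝ) ≤ J)]

/-- the two families of pairs of the same sign -/
theorem W_card_gen (Q : Finset (ℤ × ℤ)) (d : ℕ) (A B : Finset (ℕ × ℕ)) (hd : 1 ≤ d)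
    (hA : ∀ p ∈ A, 1 ≤ p.1 ∧ p.1 < p.2) (hB : ∀ p ∈ B, 1 ≤ p.1 ∧ p.1 < p.2)
    (h1 : ∀ p ∈ B, (((p.1 : ℤ) * d, (p.2 : ℤ) * d) : ℤ × ℤ) ∈ Q)
    (h2 : ∀ p ∈ A, ((-(p.2 : ℤ) * d, -(p.1 : ℤ) * d) : ℤ × ℤ) ∈ Q) :
    A.card + B.card ≤ Q.card := by
  classical
  have e1 : (0 : ℤ) < d := by exact_mod_cast hd
  have c1 : (B.image (fun p : ℕ × ℕ => (((p.1 : ℤ) * d, (p.2 : ℤ) * d) : ℤ × ℤ))).card =
      B.card := by
    apply Finset.card_image_of_injective
    rintro ⟨x, y⟩ ⟨x', y'⟩ h
    obtain ⟨a1, a2⟩ := Prod.mk.inj h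
    dsimp only at a1 a2
    have b1 := mul_right_cancel₀ e1.ne' a1
    have b2 := mul_right_cancel₀ e1.ne' a2
    have b3 : x = x' := by exact_mod_cast b1
    have b4 : y = y' := by exact_mod_cast b2
    rw [b3, b4]
  have c2 : (A.image (fun p : ℕ × ℕ => ((-(p.2 : ℤ) * d, -(p.1 : ℤ) * d) : ℤ × ℤ))).card =
      A.card := by
    apply Finset.card_image_of_injective
    rintro ⟨x, y⟩ ⟨x', y'⟩ h
    obtain ⟨a1, a2⟩ := Prod.mk.inj h
    dsimp only at a1 a2
    have b1 := neg_injective (mul_right_cancel₀ e1.ne' a1)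
    have b2 := neg_injective (mul_right_cancel₀ e1.ne' a2)
    have b3 : y = y' := by exact_mod_cast b1
    have b4 : x = x' := by exact_mod_cast b2
    rw [b3, b4]
  rw [← c1, ← c2, ← Finset.card_union_of_disjoint]
  · apply Finset.card_le_card
    intro q hq
    rcases Finset.mem_union.1 hq with hq | hq
    · obtain ⟨p, hp, rfl⟩ := Finset.mem_image.1 hq
      exact h2 p hp
    · obtain ⟨p, hp, rfl⟩ := Finset.mem_image.1 hq
      exact h1 p hp
  · rw [Finset.disjoint_left]
    intro q hq hq'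
    obtain ⟨p, hp, rfl⟩ := Finset.mem_image.1 hq
    obtain ⟨p', hp', h⟩ := Finset.mem_image.1 hq'
    obtain ⟨a1, a2⟩ := Prod.mk.inj h
    obtain ⟨u1, u2⟩ := hA p hp
    obtain ⟨v1, v2⟩ := hB p' hp'
    have w1 : (0 : ℤ) < p.2 := by exact_mod_cast (by omega : 0 < p.2)
    have w2 : (0 : ℤ) < p'.1 := by exact_mod_cast (by omega : 0 < p'.1)
    have := mul_pos w1 e1
    have := mul_pos w2 e1
    linarith

/-- strengthening of `H483S.ap_count`: the pairs of a box are not used -/
theorem ap_count_box (a b : ℕ) (hab : 1000 * a ≤ b) (T : Finset (ℕ × ℕ × ℕ))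
    (hT : ∀ p ∈ T, 1 ≤ p.1 ∧ 2 ≤ p.2.1 + p.2.2 ∧ p.1 * p.2.1 ≤ a ∧ p.1 * p.2.2 ≤ b) :
    T.card ≤ ((T.biUnion (fun p => prs (prog p.1 p.2.1 p.2.2))).filter
      (fun q : ℤ × ℤ => ¬ (0 < q.1 ∧ 1000 * q.1 ≤ b ∧ 999 * (b : ℤ) ≤ 1000 * q.2))).card +
        (a + b) / 4 := by
  classical
  obtain ⟨P0, hP0⟩ : ∃ P0, P0 = T.biUnion (fun p => prs (prog p.1 p.2.1 p.2.2)) := ⟨_, rfl⟩
  rw [← hP0]
  obtain ⟨P, hP⟩ : ∃ P, P = P0.filter
    (fun q : ℤ × ℤ => ¬ (0 < q.1 ∧ 1000 * q.1 ≤ b ∧ 999 * (b : ℤ) ≤ 1000 * q.2)) := ⟨_, rfl⟩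
  rw [← hP]
  have memP : ∀ (t : ℕ × ℕ × ℕ), t ∈ T → ∀ q ∈ prs (prog t.1 t.2.1 t.2.2), ¬ bBox b q → q ∈ P := by
    intro t ht q hq hb
    rw [hP, Finset.mem_filter]
    refine ⟨?_, hb⟩
    rw [hP0]
    exact Finset.mem_biUnion.2 ⟨t, ht, hq⟩
  have sT := Finset.card_filter_add_card_filter_not (s := T)
    (fun p : ℕ × ℕ × ℕ => p.2.1 = 0 ∨ p.2.2 = 0 ∨ Nat.Coprime p.2.1 p.2.2)
  have sP := Finset.card_filter_add_card_filter_not (s := P) bDv
  -- type 1
  have A : (T.filter (fun p : ℕ × ℕ × ℕ => p.2.1 = 0 ∨ p.2.2 = 0 ∨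
      Nat.Coprime p.2.1 p.2.2)).card ≤ (P.filter bDv).card := by
    apply Finset.card_le_card_of_injOn bPhi
    · rintro ⟨d, i, j⟩ h
      have h' := (Finset.mem_filter.1 (Finset.mem_coe.1 h))
      obtain ⟨t1, t2, t3, t4⟩ := hT _ h'.1
      apply Finset.mem_coe.2
      exact Finset.mem_filter.2 ⟨memP _ h'.1 _ (bPhi_mem t1 t2) (bPhi_box t1 t2), bPhi_dv t1 t2⟩
    · rintro ⟨d, i, j⟩ h ⟨d', i', j'⟩ k e
      have h' := (Finset.mem_filter.1 (Finset.mem_coe.1 h))
      have k' := (Finset.mem_filter.1 (Finset.mem_coe.1 k))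
      obtain ⟨t1, t2, t3, t4⟩ := hT _ h'.1
      obtain ⟨u1, u2, u3, u4⟩ := hT _ k'.1
      exact bPhi_inj t1 u1 t2 u2 h'.2 k'.2 e
  -- type 2
  obtain ⟨T2, hT2⟩ : ∃ T2, T2 = T.filter (fun p : ℕ × ℕ × ℕ => ¬ (p.2.1 = 0 ∨ p.2.2 = 0 ∨
      Nat.Coprime p.2.1 p.2.2)) := ⟨_, rfl⟩
  obtain ⟨P2, hP2⟩ : ∃ P2, P2 = P.filter (fun q => ¬ bDv q) := ⟨_, rfl⟩
  rw [← hT2] at sT
  rw [← hP2] at sP
  have m2 : ∀ p ∈ T2, p ∈ T ∧ 2 ≤ p.2.1 ∧ 2 ≤ p.2.2 ∧ ¬ Nat.Coprime p.2.1 p.2.2 := by
    intro p hp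
    rw [hT2, Finset.mem_filter, not_or, not_or] at hp
    obtain ⟨h1, h2, h3, h4⟩ := hp
    refine ⟨h1, ?_, ?_, h4⟩
    · by_contra hc
      have : p.2.1 = 1 := by omega
      exact h4 (by rw [this]; exact Nat.coprime_one_left _)
    · by_contra hc
      have : p.2.2 = 1 := by omega
      exact h4 (by rw [this]; exact Nat.coprime_one_right _)
  have B : T2.card ≤ P2.card + (a + b) / 4 := by
    have s1 := Finset.card_eq_sum_card_image (fun p : ℕ × ℕ × ℕ => p.1) T2
    obtain ⟨D, hD⟩ : ∃ D, D = T2.image (fun p : ℕ × ℕ × ℕ => p.1) := ⟨_, rfl⟩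
    rw [← hD] at s1
    have s2 : ∀ d ∈ D, (T2.filter (fun p : ℕ × ℕ × ℕ => p.1 = d)).card ≤
        1 + (P2.filter (fun q => Int.gcd q.1 q.2 = d)).card := by
      intro d hdD
      rw [hD] at hdD
      obtain ⟨p0, hp0, hp0d⟩ := Finset.mem_image.1 hdD
      have ne : (T2.filter (fun p : ℕ × ℕ × ℕ => p.1 = d)).Nonempty :=
        ⟨p0, Finset.mem_filter.2 ⟨hp0, hp0d⟩⟩
      obtain ⟨x, hx, hxm⟩ := Finset.exists_max_image _ (fun p : ℕ × ℕ × ℕ => p.2.1) ne
      obtain ⟨y, hy, hym⟩ := Finset.exists_max_image _ (fun p : ℕ × ℕ × ℕ => p.2.2) ne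
      obtain ⟨hx1, hx2⟩ := Finset.mem_filter.1 hx
      obtain ⟨hy1, hy2⟩ := Finset.mem_filter.1 hy
      obtain ⟨x1, x2, x3, x4⟩ := m2 x hx1
      obtain ⟨y1, y2, y3, y4⟩ := m2 y hy1
      have hd : 1 ≤ d := by rw [← hx2]; exact (hT x x1).1
      have e1 : (0 : ℤ) < d := by exact_mod_cast hd
      have n1 : (T2.filter (fun p : ℕ × ℕ × ℕ => p.1 = d)).card ≤ (NP x.2.1 y.2.2).card := by
        apply Finset.card_le_card_of_injOn (fun p : ℕ × ℕ × ℕ => p.2)
        · intro p hp
          have hp' := Finset.mem_coe.1 hp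
          obtain ⟨r1, r2, r3, r4⟩ := m2 p (Finset.mem_filter.1 hp').1
          apply Finset.mem_coe.2
          unfold NP
          exact Finset.mem_filter.2 ⟨Finset.mem_product.2
            ⟨Finset.mem_Icc.2 ⟨le_trans (by norm_num) r2, hxm p hp'⟩,
              Finset.mem_Icc.2 ⟨le_trans (by norm_num) r3, hym p hp'⟩⟩, r4⟩
        · rintro ⟨p1, p2⟩ hp ⟨q1, q2⟩ hq e
          have hp' := (Finset.mem_filter.1 (Finset.mem_coe.1 hp)).2
          have hq' := (Finset.mem_filter.1 (Finset.mem_coe.1 hq)).2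
          dsimp only at hp' hq' e
          rw [hp', hq', e]
      have n2 : (NP x.2.1 y.2.2).card ≤ 1 + (W x.2.1).card + (V' b d y.2.2).card := by
        apply np_bound_box hab hd x2 y3
        · rw [← hx2]; exact (hT x x1).2.2.1
        · rw [← hy2]; exact (hT y y1).2.2.2
      have n3 : (W x.2.1).card + (V' b d y.2.2).card ≤
          (P2.filter (fun q => Int.gcd q.1 q.2 = d)).card := by
        apply W_card_gen _ d _ _ hd
        · intro p hp
          obtain ⟨u1, u2, u3, u4⟩ := ap_mem_W hp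
          exact ⟨by omega, u2⟩
        · intro p hp
          obtain ⟨u1, u2, u3, u4⟩ := mem_V.1 (Finset.mem_filter.1 hp).1
          exact ⟨u1, by omega⟩
        · intro p hp
          obtain ⟨hpV, hpb⟩ := Finset.mem_filter.1 hp
          obtain ⟨u1, u2, u3, u4⟩ := mem_V.1 hpV
          have w0 : (0 : ℤ) < p.1 := by exact_mod_cast (by omega : 0 < p.1)
          have w1 : (p.1 : ℤ) + 2 ≤ p.2 := by exact_mod_cast u2
          have w2 : (p.2 : ℤ) ≤ y.2.2 := by exact_mod_cast u3
          have v0 := mul_pos w0 e1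
          have v1 : (0 : ℤ) < p.2 * d := mul_pos (by linarith) e1
          have hg : Int.gcd ((p.1 : ℤ) * d) ((p.2 : ℤ) * d) = d := by
            rw [Int.gcd_mul_right, Int.gcd_natCast_natCast, u4.gcd_eq_one, one_mul,
              Int.natAbs_natCast]
          rw [Finset.mem_filter, hP2, Finset.mem_filter]
          refine ⟨⟨?_, ?_⟩, ?_⟩
          · apply memP y y1
            · rw [hy2]
              exact ap_count_prs hd (by linarith [Int.natCast_nonneg y.2.1]) (by linarith) w2 w0.ne'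
                (by linarith)
            · rintro ⟨k1, k2, k3⟩
              dsimp only at k1 k2 k3
              apply hpb
              constructor
              · exact_mod_cast k2
              · exact_mod_cast k3
          · rintro (⟨k1, k2⟩ | ⟨k1, k2⟩ | ⟨k1, k2⟩)
            · dsimp only at k2
              rw [hg] at k2
              nlinarith
            · dsimp only at k1; linarith
            · dsimp only at k1; linarith
          · exact hg
        · intro p hp
          obtain ⟨u1, u2, u3, u4⟩ := ap_mem_W hp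
          have w0 : (0 : ℤ) < p.1 := by exact_mod_cast (by omega : 0 < p.1)
          have w1 : (p.1 : ℤ) < p.2 := by exact_mod_cast u2
          have w2 : (p.2 : ℤ) ≤ x.2.1 := by exact_mod_cast u3
          have v0 := mul_pos w0 e1
          have v1 : (0 : ℤ) < p.2 * d := mul_pos (by linarith) e1
          rw [Finset.mem_filter, hP2, Finset.mem_filter]
          refine ⟨⟨?_, ?_⟩, ?_⟩
          · apply memP x x1
            · rw [hx2]
              exact ap_count_prs hd (by linarith) (by linarith)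
                (by linarith [Int.natCast_nonneg x.2.2]) (by linarith) (by linarith)
            · rintro ⟨k1, k2, k3⟩
              dsimp only at k1
              linarith
          · rintro (⟨k1, k2⟩ | ⟨k1, k2⟩ | ⟨k1, k2⟩)
            · dsimp only at k1; linarith
            · dsimp only at k2
              rw [neg_mul, neg_mul, neg_dvd, dvd_neg] at k2
              exact ap_not_dvd hd u1 u4 k2
            · dsimp only at k2; linarith
          · dsimp only
            rw [Int.gcd_mul_right, Int.gcd_neg, Int.neg_gcd, Int.gcd_natCast_natCast,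
              Nat.gcd_comm, u4.gcd_eq_one, one_mul, Int.natAbs_natCast]
      omega
    have s3 : ∑ d ∈ D, (P2.filter (fun q => Int.gcd q.1 q.2 = d)).card ≤ P2.card := by
      rw [← Finset.card_biUnion]
      · apply Finset.card_le_card
        intro q hq
        obtain ⟨d, _, hd⟩ := Finset.mem_biUnion.1 hq
        exact (Finset.mem_filter.1 hd).1
      · intro d _ d' _ hne
        rw [Function.onFun, Finset.disjoint_left]
        intro q hq hq'
        exact hne ((Finset.mem_filter.1 hq).2.symm.trans (Finset.mem_filter.1 hq').2)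
    have s4 : D.card ≤ (a + b) / 4 := by
      have : D ⊆ Finset.Icc 1 ((a + b) / 4) := by
        intro d hd
        rw [hD] at hd
        obtain ⟨p, hp, rfl⟩ := Finset.mem_image.1 hd
        obtain ⟨h1, h2, h3, h4⟩ := m2 p hp
        obtain ⟨k1, k2, k3, k4⟩ := hT p h1
        have l1 : p.1 * 2 ≤ p.1 * p.2.1 := Nat.mul_le_mul_left _ h2
        have l2 : p.1 * 2 ≤ p.1 * p.2.2 := Nat.mul_le_mul_left _ h3
        rw [Finset.mem_Icc]
        exact ⟨k1, by omega⟩
      have := Finset.card_le_card this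
      rwa [Nat.card_Icc, Nat.add_sub_cancel] at this
    calc T2.card = ∑ d ∈ D, (T2.filter (fun p : ℕ × ℕ × ℕ => p.1 = d)).card := s1
      _ ≤ ∑ d ∈ D, (1 + (P2.filter (fun q => Int.gcd q.1 q.2 = d)).card) :=
          Finset.sum_le_sum s2
      _ = D.card + ∑ d ∈ D, (P2.filter (fun q => Int.gcd q.1 q.2 = d)).card := by
          rw [Finset.sum_add_distrib, Finset.sum_const, smul_eq_mul, mul_one]
      _ ≤ P2.card + (a + b) / 4 := by omega
  omega

end Pool.Agent.H21.AP
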