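import Pool.Agent.H3.AP.Half
import Pool.Agent.H3.AP.Free
import Pool.Agent.H3.AP.IvlRefl

/-! small non-progressions through `x` and intervals (helper3, helper82) -/

set_option autoImplicit false
namespace Pool.Agent.H21.AP
open Finset Pool.Agent.H483S

theorem ivl_count (N S : ℕ) (F : Finset (Finset ℤ)) (hsub : ∀ A ∈ F, A ⊆ Icc 1 (N : ℤ))
    (hint : ∀ A ∈ F, ∀ B ∈ F, A ≠ B → IsAP (A ∩ B)) (x : ℤ) (hxN : x ∈ Icc 1 (N : ℤ))
    (G : Finset (Finset ℤ)) (hG : ∀ A ∈ G, A ∈ F ∧ ¬ IsAP A ∧ x ∈ A ∧ A.card ≤ S)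
    (I : Finset (Finset ℤ)) (hI : ∀ J ∈ I, J ∈ F ∧ ∃ a b : ℤ, a ≤ b ∧ J = Icc a b) :
    G.card + 2 * I.card ≤ (N - 1).choose 2 + 100 * N * (2 * S + 1) ^ 6 + 100 * N := by
  refine Pool.Agent.H3.AP.ivl_refl ?_ N S F hsub hint x hxN G hG I hI
  intro N S hS F hsub hint x hxN G hG m hm hxm P hP
  exact Pool.Agent.H3.AP.ivl_half Pool.Agent.H3.AP.free_count N S hS F hsub hint x hxN G hG m hm hxm P hP

end Pool.Agent.H21.AP
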