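import Pool.Agent.H21.AP.Base

set_option autoImplicit false

namespace Pool.Agent.H21.AP

open Finset Pool.Agent.H483S

theorem isAP_prog (d i j : ℕ) (hd : 1 ≤ d) : IsAP (prog d i j) := by
  refine ⟨-(i : ℤ) * d, d, i + j + 1, by exact_mod_cast hd, by omega, ?_⟩
  ext w
  unfold prog
  simp only [mem_image, mem_Icc, mem_range]
  constructor
  · rintro ⟨k, ⟨h1, h2⟩, rfl⟩
    refine ⟨(k + i).toNat, by omega, ?_⟩
    rw [Int.toNat_of_nonneg (by omega)]
    ring
  · rintro ⟨k, hk, rfl⟩
    exact ⟨(k : ℤ) - i, ⟨by omega, by omega⟩, by ring⟩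

theorem isAP_singleton (x : ℤ) : IsAP {x} := ⟨x, 1, 1, le_rfl, le_rfl, by simp⟩

theorem IsAP.unshift {P : Finset ℤ} {x : ℤ} (hP : IsAP (P.image (fun y => y - x))) : IsAP P := by
  have h := Pool.Agent.H483S.IsAP.shift hP (-x)
  have e : (P.image (fun y => y - x)).image (fun y => y - -x) = P := by
    rw [image_image]
    have : ((fun y => y - -x) ∘ fun y : ℤ => y - x) = id := by
      funext y; simp
    rw [this, image_id]
  rwa [e] at h

/-- a set that is not a progression has an own pair, for every centre -/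
theorem exists_own {A : Finset ℤ} (hA : ¬ IsAP A) {x : ℤ} (hx : x ∈ A) :
    ∃ y ∈ A, ∃ z ∈ A, y < z ∧ y ≠ x ∧ z ≠ x ∧ Own A x y z := by
  classical
  by_contra hno
  push Not at hno
  apply hA
  apply IsAP.unshift (x := x)
  by_cases hne : ∃ y ∈ A.image (fun y => y - x), y ≠ 0
  · have h0 : (0 : ℤ) ∈ A.image (fun y => y - x) := mem_image.2 ⟨x, hx, by ring⟩
    have hkey : ∀ y ∈ A, ∀ z ∈ A, y < z → y ≠ x → z ≠ x → ∀ w : ℤ,
        ((Int.gcd (y - x) (z - x) : ℕ) : ℤ) ∣ (w - x) → min x (min y z) ≤ w →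
        w ≤ max x (max y z) → w ∈ A := by
      intro y hy z hz hyz hyx hzx w hw h1 h2
      by_contra hwA
      exact hno y hy z hz hyz hyx hzx ⟨w, hwA, hw, h1, h2⟩
    obtain ⟨d, i, j, hd, he⟩ := prog_of_closed h0 hne (by
      intro y' hy' z' hz' hy0 hz0 w' hw' h1 h2
      obtain ⟨y, hy, rfl⟩ := mem_image.1 hy'
      obtain ⟨z, hz, rfl⟩ := mem_image.1 hz'
      have hyx : y ≠ x := fun h => hy0 (by simp [h])
      have hzx : z ≠ x := fun h => hz0 (by simp [h])
      refine mem_image.2 ⟨w' + x, ?_, by ring⟩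
      rcases lt_trichotomy y z with h | h | h
      · refine hkey y hy z hz h hyx hzx (w' + x) (by simpa using hw') ?_ ?_
        · have e1 : min x (min y z) = min 0 (min (y - x) (z - x)) + x := by omega
          rw [e1]; linarith
        · have e1 : max x (max y z) = max 0 (max (y - x) (z - x)) + x := by omega
          rw [e1]; linarith
      · subst h
        rw [Int.gcd_self] at hw'
        rw [min_self] at h1
        rw [max_self] at h2
        obtain ⟨k, hk⟩ := hw'
        rcases lt_or_gt_of_ne hy0 with h | h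
        · have e1 : (((y - x).natAbs : ℕ) : ℤ) = -(y - x) := by omega
          rw [min_eq_right h.le] at h1
          rw [max_eq_left h.le] at h2
          rw [e1] at hk
          have k0 : k ≤ 0 := by by_contra hc; push Not at hc; nlinarith
          have k2 : -1 ≤ k := by by_contra hc; push Not at hc; nlinarith
          have k3 : k = 0 ∨ k = -1 := by omega
          rcases k3 with rfl | rfl
          · rw [hk]; simpa using hx
          · have : w' + x = y := by rw [hk]; ring
            rwa [this]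
        · have e1 : (((y - x).natAbs : ℕ) : ℤ) = (y - x) := by omega
          rw [min_eq_left h.le] at h1
          rw [max_eq_right h.le] at h2
          rw [e1] at hk
          have k0 : 0 ≤ k := by by_contra hc; push Not at hc; nlinarith
          have k2 : k ≤ 1 := by by_contra hc; push Not at hc; nlinarith
          have k3 : k = 0 ∨ k = 1 := by omega
          rcases k3 with rfl | rfl
          · rw [hk]; simpa using hx
          · have : w' + x = y := by rw [hk]; ring
            rwa [this]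
      · refine hkey z hz y hy h hzx hyx (w' + x) (by rw [Int.gcd_comm]; simpa using hw') ?_ ?_
        · have e1 : min x (min z y) = min 0 (min (y - x) (z - x)) + x := by omega
          rw [e1]; linarith
        · have e1 : max x (max z y) = max 0 (max (y - x) (z - x)) + x := by omega
          rw [e1]; linarith)
    rw [he]
    exact isAP_prog d i j hd
  · push Not at hne
    have : A.image (fun y => y - x) = {0} := by
      apply Subset.antisymm
      · intro u hu; simpa using hne u hu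
      · intro u hu
        rw [mem_singleton] at hu
        rw [hu]
        exact mem_image.2 ⟨x, hx, by ring⟩
    rw [this]
    exact isAP_singleton 0

theorem hull_card {A : Finset ℤ} {x w : ℤ} {g : ℕ} (hg : 0 < g) {b : ℤ} (hb : w - x = g * b)
    (h : ∀ u : ℤ, (g : ℤ) ∣ (u - x) → min x w ≤ u → u ≤ max x w → u ∈ A) :
    b.natAbs + 1 ≤ A.card := by
  classical
  have hg' : (0 : ℤ) < g := by exact_mod_cast hg
  have : (range (b.natAbs + 1)).card ≤ A.card := by
    apply card_le_card_of_injOn (fun k : ℕ => x + b.sign * k * g)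
    · intro k hk
      have hk' : k ≤ b.natAbs := by
        have := mem_range.1 (mem_coe.1 hk); omega
      apply mem_coe.2
      refine h _ ⟨b.sign * k, by ring⟩ ?_ ?_
      · rcases lt_trichotomy b 0 with h0 | h0 | h0
        · rw [Int.sign_eq_neg_one_of_neg h0]
          have e : ((b.natAbs : ℕ) : ℤ) = -b := by omega
          have e2 : (k : ℤ) ≤ -b := by rw [← e]; exact_mod_cast hk'
          have : w ≤ x + -1 * k * g := by nlinarith
          exact (min_le_right _ _).trans this
        · subst h0; simp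
        · rw [Int.sign_eq_one_of_pos h0]
          have : x ≤ x + 1 * k * g := by nlinarith [Int.natCast_nonneg k]
          exact (min_le_left _ _).trans this
      · rcases lt_trichotomy b 0 with h0 | h0 | h0
        · rw [Int.sign_eq_neg_one_of_neg h0]
          have : x + -1 * k * g ≤ x := by nlinarith [Int.natCast_nonneg k]
          exact this.trans (le_max_left _ _)
        · subst h0; simp
        · rw [Int.sign_eq_one_of_pos h0]
          have e : ((b.natAbs : ℕ) : ℤ) = b := by omega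
          have e2 : (k : ℤ) ≤ b := by rw [← e]; exact_mod_cast hk'
          have : x + 1 * k * g ≤ w := by nlinarith
          exact this.trans (le_max_right _ _)
    · intro k hk l hl hkl
      simp only at hkl
      rcases eq_or_ne b 0 with h0 | h0
      · subst h0
        have h1 := mem_range.1 (mem_coe.1 hk)
        have h2 := mem_range.1 (mem_coe.1 hl)
        simp at h1 h2
        omega
      · have hs : b.sign ≠ 0 := by rwa [Ne, Int.sign_eq_zero_iff_zero]
        have h1 : b.sign * k * g = b.sign * l * g := by linarith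
        have h2 := mul_right_cancel₀ hg'.ne' h1
        have h3 := mul_left_cancel₀ hs h2
        exact_mod_cast h3
  rwa [card_range] at this

/-- the numbers commensurable to `w` with respect to `x` with height at most `S` -/
noncomputable def Zs (S : ℕ) (x w : ℤ) : Finset ℤ :=
  ((Icc (-(S : ℤ)) S) ×ˢ (Icc (-(S : ℤ)) S)).image (fun p : ℤ × ℤ => x + p.2 * ((w - x) / p.1))

theorem card_Zs (S : ℕ) (x w : ℤ) : (Zs S x w).card ≤ (2 * S + 1) ^ 2 := by
  unfold Zs
  refine card_image_le.trans ?_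
  rw [card_product, Int.card_Icc]
  have : ((S : ℤ) + 1 - -(S : ℤ)).toNat = 2 * S + 1 := by omega
  rw [this]
  exact le_of_eq (by ring)

theorem mem_Zs {A : Finset ℤ} {S : ℕ} (hS : A.card ≤ S) {x w v : ℤ} (hwx : w ≠ x)
    (hv : ¬ Own A x w v) : v ∈ Zs S x w := by
  classical
  have h : ∀ u : ℤ, ((Int.gcd (w - x) (v - x) : ℕ) : ℤ) ∣ (u - x) → min x (min w v) ≤ u →
      u ≤ max x (max w v) → u ∈ A := by
    intro u h1 h2 h3
    by_contra h4
    exact hv ⟨u, h4, h1, h2, h3⟩
  set g := Int.gcd (w - x) (v - x) with hg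
  have hwx0 : w - x ≠ 0 := sub_ne_zero.2 hwx
  have hg0 : 0 < g := Int.gcd_pos_of_ne_zero_left _ hwx0
  obtain ⟨b, hb⟩ : ((g : ℕ) : ℤ) ∣ w - x := Int.gcd_dvd_left ..
  obtain ⟨c, hc⟩ : ((g : ℕ) : ℤ) ∣ v - x := Int.gcd_dvd_right ..
  have hb1 : b.natAbs + 1 ≤ A.card := hull_card hg0 hb (fun u h1 h2 h3 => h u h1
    (le_trans (by omega) h2) (le_trans h3 (by omega)))
  have hc1 : c.natAbs + 1 ≤ A.card := hull_card hg0 hc (fun u h1 h2 h3 => h u h1
    (le_trans (by omega) h2) (le_trans h3 (by omega)))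
  have hb0 : b ≠ 0 := by
    rintro rfl
    apply hwx0
    rw [hb]; ring
  unfold Zs
  refine mem_image.2 ⟨(b, c), ?_, ?_⟩
  · rw [mem_product, mem_Icc, mem_Icc]
    dsimp only
    refine ⟨⟨?_, ?_⟩, ?_, ?_⟩ <;> omega
  · dsimp only
    rw [hb, Int.mul_ediv_cancel _ hb0]
    linarith

theorem self_mem_Zs {S : ℕ} (hS : 1 ≤ S) (x w : ℤ) : w ∈ Zs S x w := by
  unfold Zs
  refine mem_image.2 ⟨(1, 1), mem_product.2 ⟨mem_Icc.2 ?_, mem_Icc.2 ?_⟩, by simp⟩
  · dsimp only; constructor <;> omega
  · dsimp only; constructor <;> omega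

/-- the number of small non-progressions containing a given pair -/
theorem pair_deg (N S : ℕ) (G : Finset (Finset ℤ)) (hsub : ∀ A ∈ G, A ⊆ Icc 1 (N : ℤ))
    (hint : ∀ A ∈ G, ∀ B ∈ G, A ≠ B → IsAP (A ∩ B)) (hn : ∀ A ∈ G, ¬ IsAP A)
    (hS : ∀ A ∈ G, A.card ≤ S) {x y : ℤ} (hyx : y ≠ x) (hxy : ∀ A ∈ G, x ∈ A ∧ y ∈ A) :
    G.card ≤ N + (2 * S + 1) ^ 4 := by
  classical
  rcases G.eq_empty_or_nonempty with rfl | ⟨A1, hA1⟩
  · simp
  have hS1 : 1 ≤ S := le_trans (card_pos.2 ⟨x, (hxy A1 hA1).1⟩) (hS A1 hA1)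
  set G1 := G.filter (fun A => ∃ z ∈ A, Own A x y z) with hG1
  set G2 := G.filter (fun A => ¬ ∃ z ∈ A, Own A x y z) with hG2
  have hs : G1.card + G2.card = G.card := card_filter_add_card_filter_not _
  have c1 : G1.card ≤ N := by
    have hch : ∀ A : Finset ℤ, ∃ z : ℤ, A ∈ G1 → z ∈ A ∧ Own A x y z := by
      intro A
      by_cases hA : A ∈ G1
      · obtain ⟨z, hz⟩ := (mem_filter.1 hA).2
        exact ⟨z, fun _ => hz⟩
      · exact ⟨0, fun h => absurd h hA⟩
    choose z hz using hch
    have : G1.card ≤ (Icc 1 (N : ℤ)).card := by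
      apply card_le_card_of_injOn z
      · intro A hA
        have hA' := mem_coe.1 hA
        exact mem_coe.2 (hsub A (mem_filter.1 hA').1 (hz A hA').1)
      · intro A hA B hB h
        have hA' := mem_coe.1 hA
        have hB' := mem_coe.1 hB
        have hAG := (mem_filter.1 hA').1
        have hBG := (mem_filter.1 hB').1
        by_contra hne
        refine own_unique (hint A hAG B hBG hne) (hxy A hAG).1 (hxy A hAG).2 (hz A hA').1
          (hxy B hBG).1 (hxy B hBG).2 ?_ (hz A hA').2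
        rw [h]
        exact (hz B hB').1
    rwa [Int.card_Icc, show ((N : ℤ) + 1 - 1).toNat = N by omega] at this
  have c2 : G2.card ≤ (2 * S + 1) ^ 4 := by
    have hch : ∀ A : Finset ℤ, ∃ q : ℤ × ℤ, A ∈ G2 → q.1 ∈ A ∧ q.2 ∈ A ∧ Own A x q.1 q.2 := by
      intro A
      by_cases hA : A ∈ G2
      · have hAG := (mem_filter.1 hA).1
        obtain ⟨y', h1, z', h2, -, -, -, h3⟩ := exists_own (hn A hAG) (hxy A hAG).1
        exact ⟨(y', z'), fun _ => ⟨h1, h2, h3⟩⟩
      · exact ⟨(0, 0), fun h => absurd h hA⟩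
    choose q hq using hch
    have : G2.card ≤ (Zs S x y ×ˢ Zs S x y).card := by
      apply card_le_card_of_injOn q
      · intro A hA
        have hA' := mem_coe.1 hA
        obtain ⟨hAG, hno⟩ := mem_filter.1 hA'
        have hin : ∀ v ∈ A, v ∈ Zs S x y := fun v hv =>
          mem_Zs (hS A hAG) hyx (fun ho => hno ⟨v, hv, ho⟩)
        exact mem_coe.2 (mem_product.2 ⟨hin _ (hq A hA').1, hin _ (hq A hA').2.1⟩)
      · intro A hA B hB h
        have hA' := mem_coe.1 hA
        have hB' := mem_coe.1 hB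
        have hAG := (mem_filter.1 hA').1
        have hBG := (mem_filter.1 hB').1
        by_contra hne
        refine own_unique (hint A hAG B hBG hne) (hxy A hAG).1 (hq A hA').1 (hq A hA').2.1
          (hxy B hBG).1 ?_ ?_ (hq A hA').2.2
        · rw [h]; exact (hq B hB').1
        · rw [h]; exact (hq B hB').2.1
    rw [card_product] at this
    calc G2.card ≤ (Zs S x y).card * (Zs S x y).card := this
      _ ≤ (2 * S + 1) ^ 2 * (2 * S + 1) ^ 2 := Nat.mul_le_mul (card_Zs S x y) (card_Zs S x y)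
      _ = (2 * S + 1) ^ 4 := by ring
  omega

/-- the small non-progressions through `x` and a member that misses `x` -/
theorem hitting (N S : ℕ) (G : Finset (Finset ℤ)) (hsub : ∀ A ∈ G, A ⊆ Icc 1 (N : ℤ))
    (hint : ∀ A ∈ G, ∀ B ∈ G, A ≠ B → IsAP (A ∩ B)) (hn : ∀ A ∈ G, ¬ IsAP A)
    (hS : ∀ A ∈ G, A.card ≤ S) {x : ℤ} (hxN : x ∈ Icc 1 (N : ℤ)) (hx : ∀ A ∈ G, x ∈ A)
    (B : Finset ℤ) (hB : ∀ A ∈ G, IsAP (A ∩ B)) (hxB : x ∉ B) :
    G.card + (((Icc 1 (N : ℤ)).erase x \ B).card).choose 2 ≤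
      (N - 1).choose 2 + N * (2 * S + 1) ^ 4 := by
  classical
  set X := (Icc 1 (N : ℤ)).erase x with hX
  set U := X \ B with hU
  have hXc : X.card = N - 1 := by
    rw [hX, card_erase_of_mem hxN, Int.card_Icc]; omega
  set G1 := G.filter (fun A => ∃ y ∈ A, ∃ z ∈ A, y ≠ x ∧ z ≠ x ∧ y ≠ z ∧ y ∈ B ∧ Own A x y z) with hG1
  set G2 := G.filter (fun A => ¬ ∃ y ∈ A, ∃ z ∈ A, y ≠ x ∧ z ≠ x ∧ y ≠ z ∧ y ∈ B ∧ Own A x y z)
    with hG2
  have hs : G1.card + G2.card = G.card := card_filter_add_card_filter_not _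
  have c1 : G1.card + U.card.choose 2 ≤ (N - 1).choose 2 := by
    have hch : ∀ A : Finset ℤ, ∃ q : ℤ × ℤ, A ∈ G1 → q.1 ∈ A ∧ q.2 ∈ A ∧ q.1 ≠ x ∧ q.2 ≠ x ∧
        q.1 ≠ q.2 ∧ q.1 ∈ B ∧ Own A x q.1 q.2 := by
      intro A
      by_cases hA : A ∈ G1
      · obtain ⟨y, hy, z, hz, h⟩ := (mem_filter.1 hA).2
        exact ⟨(y, z), fun _ => ⟨hy, hz, h⟩⟩
      · exact ⟨(0, 0), fun h => absurd h hA⟩
    choose q hq using hch
    have h1 : G1.card ≤ (powersetCard 2 X \ powersetCard 2 U).card := by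
      apply card_le_card_of_injOn (fun A => {(q A).1, (q A).2})
      · intro A hA
        have hA' := mem_coe.1 hA
        obtain ⟨k1, k2, k3, k4, k5, k6, k7⟩ := hq A hA'
        have hAG := (mem_filter.1 hA').1
        apply mem_coe.2
        rw [mem_sdiff, mem_powersetCard, mem_powersetCard]
        refine ⟨⟨?_, card_pair k5⟩, ?_⟩
        · intro v hv
          rw [mem_insert, mem_singleton] at hv
          rcases hv with rfl | rfl
          · exact mem_erase.2 ⟨k3, hsub A hAG k1⟩
          · exact mem_erase.2 ⟨k4, hsub A hAG k2⟩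
        · rintro ⟨h, -⟩
          have : (q A).1 ∈ U := h (mem_insert_self _ _)
          exact (mem_sdiff.1 this).2 k6
      · intro A hA C hC h
        have hA' := mem_coe.1 hA
        have hC' := mem_coe.1 hC
        obtain ⟨k1, k2, k3, k4, k5, k6, k7⟩ := hq A hA'
        obtain ⟨l1, l2, l3, l4, l5, l6, l7⟩ := hq C hC'
        have hAG := (mem_filter.1 hA').1
        have hCG := (mem_filter.1 hC').1
        simp only at h
        by_contra hne
        have hsubC : ({(q C).1, (q C).2} : Finset ℤ) ⊆ C := by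
          intro v hv
          rw [mem_insert, mem_singleton] at hv
          rcases hv with rfl | rfl
          · exact l1
          · exact l2
        refine own_unique (hint A hAG C hCG hne) (hx A hAG) k1 k2 (hx C hCG) ?_ ?_ k7
        · apply hsubC; rw [← h]; exact mem_insert_self _ _
        · apply hsubC; rw [← h]; exact mem_insert_of_mem (mem_singleton_self _)
    have hUX : U ⊆ X := sdiff_subset
    rw [card_sdiff_of_subset (powersetCard_mono hUX), card_powersetCard, card_powersetCard, hXc] at h1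
    have h2 : U.card.choose 2 ≤ (N - 1).choose 2 := by
      rw [← hXc]; exact Nat.choose_le_choose 2 (card_le_card hUX)
    omega
  have c2 : G2.card ≤ N * (2 * S + 1) ^ 4 := by
    have hch : ∀ A : Finset ℤ, ∃ q : ℤ × ℤ, A ∈ G2 → q.1 ∈ A ∧ q.2 ∈ A ∧ Own A x q.1 q.2 ∧
        ∃ w ∈ Icc 1 (N : ℤ), q.1 ∈ Zs S x w ∧ q.2 ∈ Zs S x w := by
      intro A
      by_cases hA : A ∈ G2
      · obtain ⟨hAG, hno⟩ := mem_filter.1 hA
        obtain ⟨y', h1, z', h2, -, hy'x, hz'x, h3⟩ := exists_own (hn A hAG) (hx A hAG)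
        obtain ⟨w, hw⟩ := (hB A hAG).nonempty
        obtain ⟨hwA, hwB⟩ := mem_inter.1 hw
        have hwx : w ≠ x := fun h => hxB (h ▸ hwB)
        have hS1 : 1 ≤ S := le_trans (card_pos.2 ⟨x, hx A hAG⟩) (hS A hAG)
        have hin : ∀ v ∈ A, v ≠ x → v ∈ Zs S x w := by
          intro v hv hvx
          by_cases hvw : v = w
          · rw [hvw]; exact self_mem_Zs hS1 x w
          · exact mem_Zs (hS A hAG) hwx
              (fun ho => hno ⟨w, hwA, v, hv, hwx, hvx, fun h => hvw h.symm, hwB, ho⟩)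
        exact ⟨(y', z'), fun _ => ⟨h1, h2, h3, w, hsub A hAG hwA, hin _ h1 hy'x, hin _ h2 hz'x⟩⟩
      · exact ⟨(0, 0), fun h => absurd h hA⟩
    choose q hq using hch
    have : G2.card ≤ ((Icc 1 (N : ℤ)).biUnion (fun w => Zs S x w ×ˢ Zs S x w)).card := by
      apply card_le_card_of_injOn q
      · intro A hA
        have hA' := mem_coe.1 hA
        obtain ⟨-, -, -, w, hw, h1, h2⟩ := hq A hA'
        exact mem_coe.2 (mem_biUnion.2 ⟨w, hw, mem_product.2 ⟨h1, h2⟩⟩)
      · intro A hA C hC h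
        have hA' := mem_coe.1 hA
        have hC' := mem_coe.1 hC
        have hAG := (mem_filter.1 hA').1
        have hCG := (mem_filter.1 hC').1
        by_contra hne
        refine own_unique (hint A hAG C hCG hne) (hx A hAG) (hq A hA').1 (hq A hA').2.1
          (hx C hCG) ?_ ?_ (hq A hA').2.2.1
        · rw [h]; exact (hq C hC').1
        · rw [h]; exact (hq C hC').2.1
    refine this.trans (card_biUnion_le.trans ?_)
    have hle : ∀ w ∈ Icc 1 (N : ℤ), (Zs S x w ×ˢ Zs S x w).card ≤ (2 * S + 1) ^ 4 := by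
      intro w _
      rw [card_product]
      calc (Zs S x w).card * (Zs S x w).card
          ≤ (2 * S + 1) ^ 2 * (2 * S + 1) ^ 2 := Nat.mul_le_mul (card_Zs S x w) (card_Zs S x w)
        _ = (2 * S + 1) ^ 4 := by ring
    refine (sum_le_sum hle).trans ?_
    rw [sum_const, Int.card_Icc, show ((N : ℤ) + 1 - 1).toNat = N by omega, smul_eq_mul]
  omega

/-- many small non-progressions: all the small members have a common element -/
theorem small_star (N S : ℕ) (F : Finset (Finset ℤ)) (hsub : ∀ A ∈ F, A ⊆ Icc 1 (N : ℤ))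
    (hint : ∀ A ∈ F, ∀ B ∈ F, A ≠ B → IsAP (A ∩ B)) (hne : ∀ A ∈ F, A.Nonempty)
    (G : Finset (Finset ℤ)) (hGF : ∀ A ∈ G, A ∈ F ∧ ¬ IsAP A ∧ A.card ≤ S)
    (hbig : S ^ 2 * (N + (2 * S + 1) ^ 4) < G.card) :
    ∃ x ∈ Icc 1 (N : ℤ), ∀ B ∈ F, B.card ≤ S → x ∈ B := by
  classical
  obtain ⟨A0, hA0⟩ : G.Nonempty := card_pos.1 (by omega)
  obtain ⟨hA0F, hA0n, hA0S⟩ := hGF A0 hA0
  -- two members of F meet
  have hmeet : ∀ A ∈ F, ∀ B ∈ F, ∃ u ∈ A, u ∈ B := by
    intro A hA B hB
    by_cases h : A = B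
    · obtain ⟨u, hu⟩ := hne A hA
      exact ⟨u, hu, h ▸ hu⟩
    · obtain ⟨u, hu⟩ := (hint A hA B hB h).nonempty
      exact ⟨u, mem_inter.1 hu⟩
  -- a popular element of A0
  have h1 : G.card ≤ ∑ u ∈ A0, (G.filter (fun A => u ∈ A)).card := by
    have : G ⊆ A0.biUnion (fun u => G.filter (fun A => u ∈ A)) := by
      intro A hA
      obtain ⟨u, hu, hu'⟩ := hmeet A0 hA0F A (hGF A hA).1
      exact mem_biUnion.2 ⟨u, hu, mem_filter.2 ⟨hA, hu'⟩⟩
    exact (card_le_card this).trans card_biUnion_le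
  obtain ⟨x, hx, hxmax⟩ := exists_max_image A0 (fun u => (G.filter (fun A => u ∈ A)).card)
    (hne A0 hA0F)
  have h2 : G.card ≤ S * (G.filter (fun A => x ∈ A)).card := by
    calc G.card ≤ ∑ u ∈ A0, (G.filter (fun A => u ∈ A)).card := h1
      _ ≤ ∑ _u ∈ A0, (G.filter (fun A => x ∈ A)).card := sum_le_sum hxmax
      _ = A0.card * (G.filter (fun A => x ∈ A)).card := by rw [sum_const, smul_eq_mul]
      _ ≤ S * (G.filter (fun A => x ∈ A)).card := Nat.mul_le_mul_right _ hA0S
  refine ⟨x, hsub A0 hA0F hx, fun B hB hBS => ?_⟩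
  by_contra hxB
  have h3 : (G.filter (fun A => x ∈ A)).card ≤ S * (N + (2 * S + 1) ^ 4) := by
    have hcov : G.filter (fun A => x ∈ A) ⊆
        B.biUnion (fun y => (G.filter (fun A => x ∈ A)).filter (fun A => y ∈ A)) := by
      intro A hA
      obtain ⟨y, hy, hy'⟩ := hmeet B hB A (hGF A (mem_filter.1 hA).1).1
      exact mem_biUnion.2 ⟨y, hy, mem_filter.2 ⟨hA, hy'⟩⟩
    refine (card_le_card hcov).trans (card_biUnion_le.trans ?_)
    have hle : ∀ y ∈ B, ((G.filter (fun A => x ∈ A)).filter (fun A => y ∈ A)).card ≤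
        N + (2 * S + 1) ^ 4 := by
      intro y hy
      have hyx : y ≠ x := fun h => hxB (h ▸ hy)
      have hF : ∀ A ∈ (G.filter (fun A => x ∈ A)).filter (fun A => y ∈ A), A ∈ G := fun A hA =>
        (mem_filter.1 (mem_filter.1 hA).1).1
      refine pair_deg N S _ (fun A hA => hsub A (hGF A (hF A hA)).1)
        (fun A hA C hC => hint A (hGF A (hF A hA)).1 C (hGF C (hF C hC)).1)
        (fun A hA => (hGF A (hF A hA)).2.1) (fun A hA => (hGF A (hF A hA)).2.2) hyx
        (fun A hA => ⟨(mem_filter.1 (mem_filter.1 hA).1).2, (mem_filter.1 hA).2⟩)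
    refine (sum_le_sum hle).trans ?_
    rw [sum_const, smul_eq_mul]
    exact Nat.mul_le_mul_right _ hBS
  have h4 : G.card ≤ S * (S * (N + (2 * S + 1) ^ 4)) := h2.trans (Nat.mul_le_mul_left _ h3)
  have h5 : S * (S * (N + (2 * S + 1) ^ 4)) = S ^ 2 * (N + (2 * S + 1) ^ 4) := by ring
  omega

end Pool.Agent.H21.AP
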