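import Pool.Agent.H21.AP.Dense
import Pool.Agent.H21.AP.Small

/-! the members through `x`, with the dense count for progressions -/

set_option autoImplicit false
namespace Pool.Agent.H21.AP
open Finset Pool.Agent.H483S

theorem prog_of_isAP {A : Finset ℤ} (hA : IsAP A) (h0 : (0 : ℤ) ∈ A) (h3 : 3 ≤ A.card) :
    ∃ d i j : ℕ, 1 ≤ d ∧ A = prog d i j := by
  classical
  have hne : ∃ y ∈ A, y ≠ 0 := by
    by_contra hc
    push Not at hc
    have : A ⊆ {0} := fun y hy => by simp [hc y hy]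
    have := card_le_card this
    simp at this
    omega
  refine prog_of_closed h0 hne ?_
  intro y hy z hz hy0 hz0 w hw k1 k2
  have hm : ∀ u ∈ A, ∀ v ∈ A, min u v ∈ A := by
    intro u hu v hv
    rcases min_choice u v with e | e <;> rw [e] <;> assumption
  have hM : ∀ u ∈ A, ∀ v ∈ A, max u v ∈ A := by
    intro u hu v hv
    rcases max_choice u v with e | e <;> rw [e] <;> assumption
  exact hA.hull h0 hy hz hw (hm _ h0 _ (hm _ hy _ hz)) (hM _ h0 _ (hM _ hy _ hz)) k1 k2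

theorem star_dense (a b : ℕ) (F : Finset (Finset ℤ)) (hsub : ∀ A ∈ F, A ⊆ Icc (-(a : ℤ)) b)
    (hint : ∀ A ∈ F, ∀ B ∈ F, A ≠ B → IsAP (A ∩ B))
    (G T : Finset (Finset ℤ)) (hG : ∀ A ∈ G, A ∈ F ∧ ¬ IsAP A ∧ (0 : ℤ) ∈ A)
    (hT : ∀ A ∈ T, A ∈ F ∧ IsAP A ∧ (0 : ℤ) ∈ A ∧ 3 ≤ A.card) :
    100 * G.card + 102 * T.card ≤
      100 * (a + b).choose 2 + 1000 * ∑ d ∈ Icc 1 (a + b), ((a + b) / d + 1) := by
  classical
  set P := T.biUnion prs with hP
  have hAP : 102 * T.card ≤ 100 * P.card + 1000 * ∑ d ∈ Icc 1 (a + b), ((a + b) / d + 1) := by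
    have hch : ∀ A : Finset ℤ, ∃ t : ℕ × ℕ × ℕ, A ∈ T → 1 ≤ t.1 ∧ A = prog t.1 t.2.1 t.2.2 := by
      intro A
      by_cases hA : A ∈ T
      · obtain ⟨-, h1, h2, h3⟩ := hT A hA
        obtain ⟨d, i, j, h4, h5⟩ := prog_of_isAP h1 h2 h3
        exact ⟨(d, i, j), fun _ => ⟨h4, h5⟩⟩
      · exact ⟨(0, 0, 0), fun h => absurd h hA⟩
    choose t ht using hch
    have hinj : (T.image t).card = T.card := by
      apply card_image_of_injOn
      intro A hA B hB h
      rw [(ht A (mem_coe.1 hA)).2, (ht B (mem_coe.1 hB)).2, h]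
    have h1 := ap_dense a b (T.image t) (by
      intro p hp
      obtain ⟨A, hA, rfl⟩ := mem_image.1 hp
      obtain ⟨k1, k2⟩ := ht A hA
      obtain ⟨hAF, -, -, hA3⟩ := hT A hA
      have hs := hsub A hAF
      refine ⟨k1, ?_, ?_, ?_⟩
      · have := card_prog_le (t A).1 (t A).2.1 (t A).2.2
        rw [← k2] at this
        omega
      · have hm : (-((t A).2.1 : ℤ)) * ((t A).1 : ℤ) ∈ A := by
          rw [k2, ← k2]
          rw [k2]
          exact mem_prog.2 ⟨_, ⟨le_rfl, by omega⟩, by rw [← k2]⟩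
        have := (mem_Icc.1 (hs hm)).1
        have h5 : (((t A).1 * (t A).2.1 : ℕ) : ℤ) ≤ a := by push_cast; nlinarith
        exact_mod_cast h5
      · have hm : (((t A).2.2 : ℤ)) * ((t A).1 : ℤ) ∈ A := by
          rw [k2]
          exact mem_prog.2 ⟨_, ⟨by omega, le_rfl⟩, by rw [← k2]⟩
        have := (mem_Icc.1 (hs hm)).2
        have h5 : (((t A).1 * (t A).2.2 : ℕ) : ℤ) ≤ b := by push_cast; nlinarith
        exact_mod_cast h5)
    rw [hinj] at h1
    have h2 : (T.image t).biUnion (fun p => prs (prog p.1 p.2.1 p.2.2)) = P := by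
      rw [hP, image_biUnion]
      refine biUnion_congr rfl ?_
      intro A hA
      rw [← (ht A hA).2]
    rwa [h2] at h1
  have hN : ∀ A : Finset ℤ, ∃ q : ℤ × ℤ, A ∈ G → q ∈ prs A ∧ Own A 0 q.1 q.2 := by
    intro A
    by_cases hA : A ∈ G
    · obtain ⟨hAF, hn, h0⟩ := hG A hA
      obtain ⟨y, hy, z, hz, h1, h2, h3, h4⟩ := exists_own hn h0
      exact ⟨(y, z), fun _ => ⟨mem_prs.2 ⟨⟨hy, hz⟩, h1, h2, h3⟩, h4⟩⟩
    · exact ⟨(0, 0), fun h => absurd h hA⟩
  choose π hπ using hN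
  have huniq : ∀ A ∈ G, ∀ B ∈ F, (0 : ℤ) ∈ B → A ≠ B → π A ∉ prs B := by
    intro A hA B hB h0B hne hq
    obtain ⟨h1, h2⟩ := hπ A hA
    obtain ⟨⟨k1, k2⟩, -⟩ := mem_prs.1 h1
    obtain ⟨⟨l1, l2⟩, -⟩ := mem_prs.1 hq
    exact own_unique (hint A (hG A hA).1 B hB hne) (hG A hA).2.2 k1 k2 h0B l1 l2 h2
  have hinj : (G.image π).card = G.card := by
    apply card_image_of_injOn
    intro A hA B hB h
    by_contra hne
    have hA' := mem_coe.1 hA
    have hB' := mem_coe.1 hB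
    refine huniq A hA' B (hG B hB').1 (hG B hB').2.2 hne ?_
    rw [h]
    exact (hπ B hB').1
  have hdisj1 : Disjoint P (G.image π) := by
    rw [Finset.disjoint_left]
    intro q hq hq'
    obtain ⟨B, hB, hqB⟩ := mem_biUnion.1 hq
    obtain ⟨A, hA, rfl⟩ := mem_image.1 hq'
    have hne : A ≠ B := by
      rintro rfl
      exact (hG A hA).2.1 (hT A hB).2.1
    exact huniq A hA B (hT B hB).1 (hT B hB).2.2.1 hne hqB
  have hmono : ∀ A ∈ F, prs A ⊆ prs (Icc (-(a : ℤ)) b) := by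
    intro A hA r hr
    obtain ⟨⟨h1, h2⟩, h3⟩ := mem_prs.1 hr
    exact mem_prs.2 ⟨⟨hsub A hA h1, hsub A hA h2⟩, h3⟩
  have hsubU : P ∪ G.image π ⊆ prs (Icc (-(a : ℤ)) b) := by
    intro q hq
    rcases mem_union.1 hq with h | h
    · obtain ⟨B, hB, hqB⟩ := mem_biUnion.1 h
      exact hmono B (hT B hB).1 hqB
    · obtain ⟨A, hA, rfl⟩ := mem_image.1 h
      exact hmono A (hG A hA).1 (hπ A hA).1
  have hU := (card_le_card hsubU).trans (card_prs_le a b)
  rw [card_union_of_disjoint hdisj1, hinj] at hU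
  omega

theorem star_dense_x (N : ℕ) (F : Finset (Finset ℤ)) (hsub : ∀ A ∈ F, A ⊆ Icc 1 (N : ℤ))
    (hint : ∀ A ∈ F, ∀ B ∈ F, A ≠ B → IsAP (A ∩ B)) (x : ℤ) (hxN : x ∈ Icc 1 (N : ℤ))
    (G T : Finset (Finset ℤ)) (hG : ∀ A ∈ G, A ∈ F ∧ ¬ IsAP A ∧ x ∈ A)
    (hT : ∀ A ∈ T, A ∈ F ∧ IsAP A ∧ x ∈ A ∧ 3 ≤ A.card) :
    100 * G.card + 102 * T.card ≤
      100 * (N - 1).choose 2 + 1000 * ∑ d ∈ Icc 1 (N - 1), ((N - 1) / d + 1) := by
  classical
  obtain ⟨hx1, hx2⟩ := mem_Icc.1 hxN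
  set a := (x - 1).toNat with ha
  set b := ((N : ℤ) - x).toNat with hb
  have ha' : (a : ℤ) = x - 1 := Int.toNat_of_nonneg (by omega)
  have hb' : (b : ℤ) = N - x := Int.toNat_of_nonneg (by omega)
  have hab : a + b = N - 1 := by omega
  have hinj : Function.Injective (fun y : ℤ => y - x) := fun y z h => by simpa using h
  have hinj2 : Function.Injective (fun A : Finset ℤ => A.image (fun y => y - x)) :=
    Finset.image_injective hinj
  have h := star_dense a b (F.image (fun A => A.image (fun y => y - x))) ?_ ?_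
    (G.image (fun A => A.image (fun y => y - x))) (T.image (fun A => A.image (fun y => y - x))) ?_ ?_
  · rw [card_image_of_injective _ hinj2, card_image_of_injective _ hinj2, hab] at h
    exact h
  · intro A hA
    obtain ⟨B, hB, rfl⟩ := mem_image.1 hA
    intro w hw
    obtain ⟨y, hy, rfl⟩ := mem_image.1 hw
    have := mem_Icc.1 (hsub B hB hy)
    rw [mem_Icc]
    constructor <;> omega
  · intro A hA B hB hne
    obtain ⟨A', hA', rfl⟩ := mem_image.1 hA
    obtain ⟨B', hB', rfl⟩ := mem_image.1 hB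
    rw [← image_inter _ _ hinj]
    exact (hint A' hA' B' hB' (fun h => hne (by rw [h]))).shift x
  · intro A hA
    obtain ⟨B, hB, rfl⟩ := mem_image.1 hA
    obtain ⟨h1, h2, h3⟩ := hG B hB
    exact ⟨mem_image_of_mem _ h1, fun h => h2 (IsAP.unshift h), mem_image.2 ⟨x, h3, by ring⟩⟩
  · intro A hA
    obtain ⟨B, hB, rfl⟩ := mem_image.1 hA
    obtain ⟨h1, h2, h3, h4⟩ := hT B hB
    refine ⟨mem_image_of_mem _ h1, h2.shift x, mem_image.2 ⟨x, h3, by ring⟩, ?_⟩
    rw [card_image_of_injective _ hinj]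
    exact h4

end Pool.Agent.H21.AP
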