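import Pool.Agent.H21.AP.Sums
import Pool.Agent.H21.AP.StarD
import Pool.Agent.H21.AP.Ivl

/-! few intervals, or few progressions that are not intervals -/

set_option autoImplicit false
namespace Pool.Agent.H21.AP
open Finset Pool.Agent.H483S

theorem four_mul_le (s u : ℕ) : 4 * (s * u) ≤ (s + u) ^ 2 := by
  have : (4 : ℤ) * (s * u) ≤ (s + u) ^ 2 := by nlinarith [sq_nonneg ((s : ℤ) - u)]
  exact_mod_cast this

theorem sq_split (N s u : ℕ) (h : s + u + 1 = N) : N ^ 2 = s ^ 2 + u ^ 2 + 2 * (s * u) + 2 * N - 1 := by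
  subst h
  have : (s + u + 1) ^ 2 + 1 = s ^ 2 + u ^ 2 + 2 * (s * u) + 2 * (s + u + 1) := by ring
  omega

theorem div_two_sq (N : ℕ) : 4 * (N / 2) ^ 2 ≤ N ^ 2 := by
  have : 2 * (N / 2) ≤ N := Nat.mul_div_le N 2
  calc 4 * (N / 2) ^ 2 = (2 * (N / 2)) ^ 2 := by ring
    _ ≤ N ^ 2 := Nat.pow_le_pow_left this 2

/-- interval of integers -/
def IsIvl (A : Finset ℤ) : Prop := ∃ a b : ℤ, a ≤ b ∧ A = Icc a b

theorem image_range_one (a : ℤ) (l : ℕ) (hl : 1 ≤ l) :
    (Finset.range l).image (fun i : ℕ => a + i * (1 : ℤ)) = Icc a (a + (l - 1 : ℕ)) := by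
  ext w
  simp only [mem_image, mem_range, mem_Icc]
  constructor
  · rintro ⟨i, hi, rfl⟩
    constructor <;> omega
  · rintro ⟨h1, h2⟩
    exact ⟨(w - a).toNat, by omega, by omega⟩

theorem isAP_of_isIvl {A : Finset ℤ} (h : IsIvl A) : IsAP A := by
  obtain ⟨a, b, hab, rfl⟩ := h
  refine ⟨a, 1, (b - a).toNat + 1, le_rfl, by omega, ?_⟩
  rw [image_range_one a _ (by omega)]
  congr 1
  omega

theorem isAPd_of {N : ℕ} {A : Finset ℤ} (hA : IsAP A) (hni : ¬ IsIvl A) (hsub : A ⊆ Icc 1 (N : ℤ)) :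
    ∃ d ∈ Icc 2 N, IsAPd d A := by
  obtain ⟨a, d, l, hd, hl, rfl⟩ := hA
  have hd1 : d ≠ 1 := by
    rintro rfl
    exact hni ⟨a, a + (l - 1 : ℕ), by omega, image_range_one a l hl⟩
  have hl2 : 2 ≤ l := by
    by_contra hc
    have : l = 1 := by omega
    subst this
    apply hni
    exact ⟨a, a, le_rfl, by simp⟩
  have h0 : a ∈ (Finset.range l).image (fun i : ℕ => a + i * d) :=
    mem_image.2 ⟨0, by rw [mem_range]; omega, by simp⟩
  have h1 : a + d ∈ (Finset.range l).image (fun i : ℕ => a + i * d) :=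
    mem_image.2 ⟨1, by rw [mem_range]; omega, by simp⟩
  have h2 := mem_Icc.1 (hsub h0)
  have h3 := mem_Icc.1 (hsub h1)
  refine ⟨d.toNat, mem_Icc.2 ⟨by omega, by omega⟩, a, l, hl2, ?_⟩
  have : ((d.toNat : ℕ) : ℤ) = d := Int.toNat_of_nonneg (by omega)
  rw [this]

theorem apd_card {N d : ℕ} (hd : 1 ≤ d) {A : Finset ℤ} (hA : IsAPd d A) (hsub : A ⊆ Icc 1 (N : ℤ)) :
    (A.card - 1) * d + 1 ≤ N ∧ 2 ≤ A.card := by
  obtain ⟨a, l, hl, rfl⟩ := hA
  have hd' : (d : ℤ) ≠ 0 := by omega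
  have hc : ((Finset.range l).image (fun i : ℕ => a + i * (d : ℤ))).card = l := by
    rw [card_image_of_injective, card_range]
    intro i j h
    have h' : (i : ℤ) * d = j * d := by
      have : a + (i : ℤ) * d = a + j * d := h
      linarith
    exact_mod_cast mul_right_cancel₀ hd' h'
  rw [hc]
  have h0 : a ∈ (Finset.range l).image (fun i : ℕ => a + i * (d : ℤ)) :=
    mem_image.2 ⟨0, by rw [mem_range]; omega, by simp⟩
  have h1 : a + ((l - 1 : ℕ) : ℤ) * d ∈ (Finset.range l).image (fun i : ℕ => a + i * (d : ℤ)) :=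
    mem_image.2 ⟨l - 1, by rw [mem_range]; omega, rfl⟩
  have h2 := mem_Icc.1 (hsub h0)
  have h3 := mem_Icc.1 (hsub h1)
  refine ⟨?_, hl⟩
  have : (((l - 1) * d + 1 : ℕ) : ℤ) ≤ N := by push_cast; linarith
  exact_mod_cast this

theorem ivl_card (N : ℕ) (F : Finset (Finset ℤ)) (hsub : ∀ A ∈ F, A ⊆ Icc 1 (N : ℤ))
    (hint : ∀ A ∈ F, ∀ B ∈ F, A ≠ B → IsAP (A ∩ B)) (I : Finset (Finset ℤ))
    (hI : ∀ A ∈ I, A ∈ F ∧ IsIvl A) : 4 * I.card ≤ (N + 3) ^ 2 + 4 := by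
  classical
  have hs : (I.filter (fun A => A.card ≤ 1)).card + (I.filter (fun A => ¬ A.card ≤ 1)).card = I.card :=
    card_filter_add_card_filter_not _
  have h1 : (I.filter (fun A => A.card ≤ 1)).card ≤ 1 := by
    apply card_le_one.2
    intro A hA B hB
    by_contra hne
    obtain ⟨hA1, hA2⟩ := mem_filter.1 hA
    obtain ⟨hB1, hB2⟩ := mem_filter.1 hB
    obtain ⟨u, hu⟩ := (hint A (hI A hA1).1 B (hI B hB1).1 hne).nonempty
    obtain ⟨hu1, hu2⟩ := mem_inter.1 hu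
    apply hne
    have e1 : A = {u} := by
      apply eq_singleton_iff_unique_mem.2
      exact ⟨hu1, fun v hv => card_le_one.1 hA2 v hv u hu1⟩
    have e2 : B = {u} := by
      apply eq_singleton_iff_unique_mem.2
      exact ⟨hu2, fun v hv => card_le_one.1 hB2 v hv u hu2⟩
    rw [e1, e2]
  have h2 := apd_count N 1 le_rfl (I.filter (fun A => ¬ A.card ≤ 1))
    (fun A hA => hsub A (hI A (mem_filter.1 hA).1).1) (by
      intro A hA
      obtain ⟨hA1, hA2⟩ := mem_filter.1 hA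
      obtain ⟨a, b, hab, rfl⟩ := (hI A hA1).2
      rw [Int.card_Icc] at hA2
      refine ⟨a, (b - a).toNat + 1, by omega, ?_⟩
      rw [Nat.cast_one, image_range_one a _ (by omega)]
      congr 1
      omega)
    (fun A hA B hB hne => (hint A (hI A (mem_filter.1 hA).1).1 B (hI B (mem_filter.1 hB).1).1 hne).nonempty)
  rw [Nat.div_one] at h2
  omega

open Classical in
/-- few progressions that are not intervals -/
theorem caseX : ∃ N0 : ℕ, ∀ N : ℕ, N0 ≤ N → ∀ F : Finset (Finset ℤ), (∀ A ∈ F, A ⊆ Icc 1 (N : ℤ)) →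
    (∀ A ∈ F, ∀ B ∈ F, A ≠ B → IsAP (A ∩ B)) →
    10 ^ 10 * (F.filter (fun A => IsAP A ∧ ¬ IsIvl A)).card ≤ N ^ 2 →
    F.card ≤ N.choose 2 + 1 + (N - 1) / 4 := by
  obtain ⟨N1, hN1⟩ := main_few
  obtain ⟨N2, hN2⟩ := core
  refine ⟨N1 + N2 + 10 ^ 10, fun N hN F hsub hint hP' => ?_⟩
  by_contra hlt
  push Not at hlt
  set P' := F.filter (fun A => IsAP A ∧ ¬ IsIvl A) with hP'd
  set I := F.filter (fun A => IsIvl A) with hId
  have hIF : ∀ A ∈ I, A ∈ F ∧ IsIvl A := fun A hA => mem_filter.1 hA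
  have hIc := ivl_card N F hsub hint I hIF
  have hcov : ∀ A ∈ F, IsAP A → A ∈ I ∪ P' := by
    intro A hA h
    by_cases hi : IsIvl A
    · exact mem_union_left _ (mem_filter.2 ⟨hA, hi⟩)
    · exact mem_union_right _ (mem_filter.2 ⟨hA, h, hi⟩)
  have hPc : (I ∪ P').card ≤ I.card + P'.card := card_union_le _ _
  have hN10 : 10 ^ 10 * N ≤ N ^ 2 := by
    calc 10 ^ 10 * N ≤ N * N := Nat.mul_le_mul_right _ (by omega)
      _ = N ^ 2 := by ring
  have e1 : (N + 3) ^ 2 = N ^ 2 + 6 * N + 9 := by ring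
  rw [e1] at hIc
  obtain ⟨S, x, Qs, Ql, hxN, hx, hQs, hsplit, hQl, hE6, hE4, hNN⟩ :=
    hN2 N (by omega) F hsub hint (I ∪ P') hcov (by omega) hlt
  have h1 := ivl_count N S F hsub hint x hxN Qs hQs I (fun A hA => by
    obtain ⟨k1, a, b, k2, k3⟩ := hIF A hA
    exact ⟨k1, a, b, k2, k3⟩)
  have e2 : 100 * N * (2 * S + 1) ^ 6 = 100 * (N * (2 * S + 1) ^ 6) := by ring
  rw [e2] at h1
  have hstep := choose_two_step N (by omega)
  have hfew : 10 ^ 8 * (F.filter (fun A => IsAP A)).card ≤ N ^ 2 := by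
    have h2 : (F.filter (fun A => IsAP A)).card ≤ (I ∪ P').card := by
      apply card_le_card
      intro A hA
      obtain ⟨h3, h4⟩ := mem_filter.1 hA
      exact hcov A h3 h4
    omega
  have := hN1 N (by omega) F hsub hint hfew
  omega

open Classical in
/-- few intervals -/
theorem caseY : ∃ N0 : ℕ, ∀ N : ℕ, N0 ≤ N → ∀ F : Finset (Finset ℤ), (∀ A ∈ F, A ⊆ Icc 1 (N : ℤ)) →
    (∀ A ∈ F, ∀ B ∈ F, A ≠ B → IsAP (A ∩ B)) →
    10 ^ 10 * (F.filter (fun A => IsIvl A)).card ≤ N ^ 2 →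
    F.card ≤ N.choose 2 + 1 + (N - 1) / 4 := by
  obtain ⟨N1, hN1⟩ := main_few
  obtain ⟨N2, hN2⟩ := core
  obtain ⟨N3, hN3⟩ := harm_small
  refine ⟨N1 + N2 + N3 + 10 ^ 10, fun N hN F hsub hint hI => ?_⟩
  by_contra hlt
  push Not at hlt
  set P' := F.filter (fun A => IsAP A ∧ ¬ IsIvl A) with hP'd
  set I := F.filter (fun A => IsIvl A) with hId
  have hcov : ∀ A ∈ F, IsAP A → A ∈ I ∪ P' := by
    intro A hA h
    by_cases hi : IsIvl A
    · exact mem_union_left _ (mem_filter.2 ⟨hA, hi⟩)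
    · exact mem_union_right _ (mem_filter.2 ⟨hA, h, hi⟩)
  have hPc : (I ∪ P').card ≤ I.card + P'.card := card_union_le _ _
  have hP'F : ∀ A ∈ P', A ∈ F ∧ IsAP A ∧ ¬ IsIvl A := fun A hA => mem_filter.1 hA
  have hH := hN3 N (by omega)
  set H := ∑ d ∈ Icc 1 N, (N / d + 1) with hHd
  -- the progressions with difference `d`
  set Pd : ℕ → Finset (Finset ℤ) := fun d => P'.filter (fun A => IsAPd d A) with hPd
  have hPdF : ∀ d, ∀ A ∈ Pd d, A ∈ F ∧ IsAPd d A := fun d A hA =>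
    ⟨(hP'F A (mem_filter.1 hA).1).1, (mem_filter.1 hA).2⟩
  have hPdc : ∀ d, 1 ≤ d → 4 * (Pd d).card ≤ (N / d + 3) ^ 2 := by
    intro d hd
    exact apd_count N d hd (Pd d) (fun A hA => hsub A (hPdF d A hA).1) (fun A hA => (hPdF d A hA).2)
      (fun A hA B hB hne => (hint A (hPdF d A hA).1 B (hPdF d B hB).1 hne).nonempty)
  have hsumD : ∀ D, 1 ≤ D → (2 * D - 1) * (4 * ∑ d ∈ Icc D N, (Pd d).card) ≤
      2 * N ^ 2 + (2 * D - 1) * (9 * H) := by
    intro D hD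
    refine le_trans ?_ (sq_sum' N D hD)
    apply Nat.mul_le_mul_left
    rw [mul_sum]
    apply sum_le_sum
    intro d hd
    exact hPdc d (le_trans hD (mem_Icc.1 hd).1)
  have hcovd : ∀ A ∈ P', ∃ d ∈ Icc 2 N, A ∈ Pd d := by
    intro A hA
    obtain ⟨h1, h2, h3⟩ := hP'F A hA
    obtain ⟨d, hd, h4⟩ := isAPd_of h2 h3 (hsub A h1)
    exact ⟨d, hd, mem_filter.2 ⟨hA, h4⟩⟩
  have hP'c : P'.card ≤ ∑ d ∈ Icc 2 N, (Pd d).card := by
    have : P' ⊆ (Icc 2 N).biUnion Pd := by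
      intro A hA
      obtain ⟨d, hd, h⟩ := hcovd A hA
      exact mem_biUnion.2 ⟨d, hd, h⟩
    exact (card_le_card this).trans card_biUnion_le
  have hS2 := hsumD 2 (by norm_num)
  have hS3 := hsumD 3 (by norm_num)
  have hN10 : 10 ^ 10 * N ≤ N ^ 2 := by
    calc 10 ^ 10 * N ≤ N * N := Nat.mul_le_mul_right _ (by omega)
      _ = N ^ 2 := by ring
  norm_num at hS2 hS3
  obtain ⟨S, x, Qs, Ql, hxN, hx, hQs, hsplit, hQl, hE6, hE4, hNN⟩ :=
    hN2 N (by omega) F hsub hint (I ∪ P') hcov (by omega) hlt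
  have hstep := choose_two_step N (by omega)
  have hc2 := two_choose N
  -- a member that misses x
  have hhit : ∀ A ∈ F, x ∉ A → ∀ s, A.card = s → s + 1 ≤ N ∧
      Qs.card + (N - 1 - s).choose 2 ≤ (N - 1).choose 2 + N * (2 * S + 1) ^ 4 := by
    intro A hA hxA s hs
    have h1 := hitting N S Qs (fun B hB => hsub B (hQs B hB).1)
      (fun B hB C hC => hint B (hQs B hB).1 C (hQs C hC).1) (fun B hB => (hQs B hB).2.1)
      (fun B hB => (hQs B hB).2.2.2) hxN (fun B hB => (hQs B hB).2.2.1) A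
      (fun B hB => hint B (hQs B hB).1 A hA (by
        rintro rfl
        exact hxA (hQs _ hB).2.2.1)) hxA
    have hAX : A ⊆ (Icc 1 (N : ℤ)).erase x := fun u hu =>
      mem_erase.2 ⟨fun h => hxA (h ▸ hu), hsub A hA hu⟩
    have hXc : ((Icc 1 (N : ℤ)).erase x).card = N - 1 := by
      rw [card_erase_of_mem hxN, Int.card_Icc]; omega
    have h2 : (((Icc 1 (N : ℤ)).erase x) \ A).card = N - 1 - s := by
      rw [card_sdiff_of_subset hAX, hXc, hs]
    have h3 := card_le_card hAX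
    rw [hXc, hs] at h3
    rw [h2] at h1
    exact ⟨by omega, h1⟩
  by_cases hB : ∃ A ∈ P', x ∉ A ∧ ∃ d, 3 ≤ d ∧ IsAPd d A
  · -- Case B
    obtain ⟨A, hA, hxA, d, hd, hAd⟩ := hB
    have hAF := (hP'F A hA).1
    obtain ⟨k1, k2⟩ := hhit A hAF hxA A.card rfl
    obtain ⟨k3, k4⟩ := apd_card (by omega) hAd (hsub A hAF)
    have k5 : 3 * (A.card - 1) + 1 ≤ N := by nlinarith
    obtain ⟨u, hu⟩ : ∃ u, u = N - 1 - A.card := ⟨_, rfl⟩
    rw [← hu] at k2
    have hu2 := two_choose u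
    have k6 : 2 * N ≤ 3 * u + 5 := by omega
    have k7 : 4 * N ^ 2 ≤ 9 * u ^ 2 + 30 * u + 25 := by nlinarith
    have k8 : u ≤ N := by omega
    omega
  by_cases hC : ∃ A ∈ Pd 2, x ∉ A
  · -- Case C
    obtain ⟨A1, hA1, hxA1⟩ := hC
    obtain ⟨A0, hA0, hmin⟩ := exists_min_image ((Pd 2).filter (fun A => x ∉ A)) (fun A => A.card)
      ⟨A1, mem_filter.2 ⟨hA1, hxA1⟩⟩
    obtain ⟨hA0P, hxA0⟩ := mem_filter.1 hA0
    have h1 := apd_avoid N 2 (by norm_num) (Pd 2) (fun A hA => hsub A (hPdF 2 A hA).1)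
      (fun A hA => (hPdF 2 A hA).2)
      (fun A hA B hB hne => (hint A (hPdF 2 A hA).1 B (hPdF 2 B hB).1 hne).nonempty) x A0 hA0P hxA0
      (fun A hA hxA => hmin A (mem_filter.2 ⟨hA, hxA⟩))
    obtain ⟨k1, k2⟩ := hhit A0 (hPdF 2 A0 hA0P).1 hxA0 A0.card rfl
    obtain ⟨s, hs⟩ : ∃ s, s = A0.card := ⟨_, rfl⟩
    rw [← hs] at h1 k1 k2
    obtain ⟨u, hu⟩ : ∃ u, u = N - 1 - s := ⟨_, rfl⟩
    rw [← hu] at k2
    have hu2 := two_choose u
    have hsum3 : ∑ d ∈ Icc 2 N, (Pd d).card = (Pd 2).card + ∑ d ∈ Icc 3 N, (Pd d).card := by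
      rw [← Finset.insert_Icc_succ_left_eq_Icc (by omega : 2 ≤ N), sum_insert (by simp)]
      rfl
    have hdiv := div_two_sq N
    have hsu : s + u + 1 = N := by omega
    have key : 4 * (s * u) ≤ N ^ 2 := by
      have h4 : 4 * (s * u) ≤ (s + u) ^ 2 := four_mul_le s u
      have h5 : (s + u) ^ 2 ≤ N ^ 2 := Nat.pow_le_pow_left (by omega) 2
      exact h4.trans h5
    have e3 := sq_split N s u hsu
    have hdN : N / 2 ≤ N := Nat.div_le_self _ _
    omega
  · -- Case A: all of P' contain x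
    have hall : ∀ A ∈ P', x ∈ A := by
      intro A hA
      by_contra hxA
      obtain ⟨d, hd, h⟩ := hcovd A hA
      rcases Nat.lt_or_ge d 3 with h3 | h3
      · have : d = 2 := by have := (mem_Icc.1 hd).1; omega
        subst this
        exact hC ⟨A, h, hxA⟩
      · exact hB ⟨A, hA, hxA, d, h3, (hPdF d A h).2⟩
    have hs : (P'.filter (fun A => A.card ≤ 2)).card + (P'.filter (fun A => ¬ A.card ≤ 2)).card =
      P'.card := card_filter_add_card_filter_not _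
    have h1 : (P'.filter (fun A => A.card ≤ 2)).card ≤ N := by
      have h2 := small_le x (P'.filter (fun A => A.card ≤ 2)) (Icc 1 (N : ℤ))
        (fun A hA => hall A (mem_filter.1 hA).1) (fun A hA => (mem_filter.1 hA).2) (by
          intro A hA
          have hA' := (mem_filter.1 hA).1
          obtain ⟨d, hd, h⟩ := hcovd A hA'
          have hd2 := (mem_Icc.1 hd).1
          obtain ⟨-, h3⟩ := apd_card (by omega) (hPdF d A h).2 (hsub A (hPdF d A h).1)
          refine ⟨card_pos.1 ?_, fun u hu => hsub A (hPdF d A h).1 (mem_erase.1 hu).2⟩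
          rw [card_erase_of_mem (hall A hA')]
          omega)
      rw [Int.card_Icc] at h2
      omega
    have h2 := star_dense_x N F hsub hint x hxN Qs (P'.filter (fun A => ¬ A.card ≤ 2))
      (fun A hA => ⟨(hQs A hA).1, (hQs A hA).2.1, (hQs A hA).2.2.1⟩) (by
        intro A hA
        obtain ⟨h3, h4⟩ := mem_filter.1 hA
        exact ⟨(hP'F A h3).1, (hP'F A h3).2.1, hall A h3, by omega⟩)
    have h3 : ∑ d ∈ Icc 1 (N - 1), ((N - 1) / d + 1) ≤ H := by
      rw [hHd]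
      refine (sum_le_sum (fun d _ => Nat.add_le_add_right (Nat.div_le_div_right (c := d) (Nat.sub_le N 1)) 1)).trans ?_
      apply sum_le_sum_of_subset
      intro d hd
      rw [mem_Icc] at hd ⊢
      omega
    have hfew : 10 ^ 8 * (F.filter (fun A => IsAP A)).card ≤ N ^ 2 := by
      have h2 : (F.filter (fun A => IsAP A)).card ≤ (I ∪ P').card := by
        apply card_le_card
        intro A hA
        obtain ⟨h3, h4⟩ := mem_filter.1 hA
        exact hcov A h3 h4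
      omega
    have := hN1 N (by omega) F hsub hint hfew
    omega

end Pool.Agent.H21.AP
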