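import Pool.Graph.R_pool_sql_team_seeded_620a6dc7.H483S.Near

/-!
The covered pairs of a family of progressions through `0` are more numerous than the family (helper82,
after the paper proof of helper21 and helper3).
-/

set_option autoImplicit false

namespace Pool.Agent.H21.AP

open Finset Pool.Agent.H483S

open scoped Classical

/-- the covered pairs with greatest common divisor `d` -/
noncomputable def UU (T : Finset (ℕ × ℕ × ℕ)) (d : ℕ) : Finset (ℤ × ℤ) :=
  (T.biUnion (fun p => prs (prog p.1 p.2.1 p.2.2))).filter fun q => Int.gcd q.1 q.2 = d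

theorem W_ge' (J : ℕ) : ((1 - cc) * (J : ℝ) ^ 2 - 2 * J - 1) / 2 ≤ ((W J).card : ℝ) := by
  rcases Nat.eq_zero_or_pos J with h | h
  · subst h
    have h0 : (0 : ℝ) ≤ ((W 0).card : ℝ) := Nat.cast_nonneg _
    have e : ((1 - cc) * ((0 : ℕ) : ℝ) ^ 2 - 2 * ((0 : ℕ) : ℝ) - 1) / 2 = -(1 / 2) := by
      rw [Nat.cast_zero]
      ring
    rw [e]
    linarith
  · have := W_ge J h
    linarith

theorem dense_d (a b : ℕ) (T : Finset (ℕ × ℕ × ℕ))
    (hT : ∀ p ∈ T, 1 ≤ p.1 ∧ 2 ≤ p.2.1 + p.2.2 ∧ p.1 * p.2.1 ≤ a ∧ p.1 * p.2.2 ≤ b) (d : ℕ) :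
    102 * (T.filter fun p => p.1 = d).card ≤ 100 * (UU T d).card + 1000 * ((a + b) / d + 1) := by
  obtain ⟨Td, hTd⟩ : ∃ Td, Td = T.filter fun p => p.1 = d := ⟨_, rfl⟩
  rw [← hTd]
  have hm : ∀ p ∈ Td, p ∈ T ∧ p.1 = d := fun p hp => by rwa [hTd, mem_filter] at hp
  rcases Td.eq_empty_or_nonempty with h0 | hne
  · rw [h0, card_empty, mul_zero]
    exact Nat.zero_le _
  obtain ⟨p1, hp1, hI⟩ := exists_max_image Td (fun p => p.2.1) hne
  obtain ⟨p2, hp2, hJ⟩ := exists_max_image Td (fun p => p.2.2) hne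
  obtain ⟨I, hI0⟩ : ∃ I, I = p1.2.1 := ⟨_, rfl⟩
  obtain ⟨J, hJ0⟩ : ∃ J, J = p2.2.2 := ⟨_, rfl⟩
  have hI' : ∀ p ∈ Td, p.2.1 ≤ I := fun p hp => by rw [hI0]; exact hI p hp
  have hJ' : ∀ p ∈ Td, p.2.2 ≤ J := fun p hp => by rw [hJ0]; exact hJ p hp
  have hd1 : 1 ≤ d := by
    rw [← (hm p1 hp1).2]
    exact (hT p1 (hm p1 hp1).1).1
  have hd' : (0 : ℤ) < d := by exact_mod_cast hd1
  have hIJ : I + J ≤ (a + b) / d := by
    rw [Nat.le_div_iff_mul_le hd1]
    have e1 := (hT p1 (hm p1 hp1).1).2.2.1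
    have e2 := (hT p2 (hm p2 hp2).1).2.2.2
    rw [(hm p1 hp1).2, ← hI0] at e1
    rw [(hm p2 hp2).2, ← hJ0] at e2
    nlinarith
  -- membership
  have hU : ∀ p ∈ Td, ∀ k l : ℤ, -(p.2.1 : ℤ) ≤ k → k < l → l ≤ p.2.2 → k ≠ 0 → l ≠ 0 →
      Int.gcd k l = 1 → ((k * d, l * d) : ℤ × ℤ) ∈ UU T d := by
    intro p hp k l h1 h2 h3 h4 h5 h6
    unfold UU
    rw [mem_filter, mem_biUnion]
    refine ⟨⟨p, (hm p hp).1, ?_⟩, ?_⟩
    · rw [(hm p hp).2]
      exact ap_count_prs hd1 h1 h2 h3 h4 h5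
    · show Int.gcd (k * d) (l * d) = d
      rw [Int.gcd_mul_right, h6, one_mul, Int.natAbs_natCast]
  -- the coprime elements
  obtain ⟨C, hC⟩ : ∃ C, C = Td.filter fun p => p.2.1 ≠ 0 ∧ p.2.2 ≠ 0 ∧ Nat.Coprime p.2.1 p.2.2 :=
    ⟨_, rfl⟩
  have hCU : C.card ≤ ((UU T d).filter fun q => q.1 < 0 ∧ 0 < q.2).card := by
    refine card_le_card_of_injOn (fun p => ((-(p.2.1 : ℤ)) * d, (p.2.2 : ℤ) * d)) ?_ ?_
    · intro p hp
      rw [hC] at hp
      obtain ⟨hp1', hp2', hp3, hp4⟩ := mem_filter.1 hp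
      have e1 : (0 : ℤ) < p.2.1 := by exact_mod_cast Nat.pos_of_ne_zero hp2'
      have e2 : (0 : ℤ) < p.2.2 := by exact_mod_cast Nat.pos_of_ne_zero hp3
      show ((-(p.2.1 : ℤ)) * (d : ℤ), (p.2.2 : ℤ) * (d : ℤ)) ∈
        (UU T d).filter fun q => q.1 < 0 ∧ 0 < q.2
      rw [mem_filter]
      refine ⟨hU p hp1' _ _ le_rfl (by linarith) le_rfl (by linarith) (by linarith) ?_, ?_, ?_⟩
      · rw [Int.neg_gcd, Int.gcd_natCast_natCast]
        exact hp4
      · show (-(p.2.1 : ℤ)) * (d : ℤ) < 0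
        have := mul_pos e1 hd'
        linarith
      · exact mul_pos e2 hd'
    · intro p hp q hq h
      rw [hC] at hp hq
      have hp' := (hm p (mem_filter.1 hp).1).2
      have hq' := (hm q (mem_filter.1 hq).1).2
      obtain ⟨h1, h2⟩ := Prod.mk.inj h
      have h3 := mul_right_cancel₀ hd'.ne' h1
      have h4 := mul_right_cancel₀ hd'.ne' h2
      have h5 : p.2.1 = q.2.1 := by
        have := neg_inj.1 h3
        exact_mod_cast this
      have h6 : p.2.2 = q.2.2 := by exact_mod_cast h4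
      exact Prod.ext (by rw [hp', hq']) (Prod.ext h5 h6)
  -- the pairs on the same side
  have hWU : (W I).card + (W J).card ≤ ((UU T d).filter fun q => ¬ (q.1 < 0 ∧ 0 < q.2)).card := by
    refine ap_W_card _ d I J hd1 ?_ ?_
    · intro p hp
      obtain ⟨w1, w2, w3, w4⟩ := ap_mem_W hp
      rw [mem_filter]
      refine ⟨hU p2 hp2 _ _ ?_ ?_ ?_ ?_ ?_ ?_, ?_⟩
      · have : (0 : ℤ) ≤ (p2.2.1 : ℤ) := Nat.cast_nonneg _
        have : (0 : ℤ) ≤ (p.1 : ℤ) := Nat.cast_nonneg _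
        linarith
      · exact_mod_cast w2
      · rw [← hJ0]
        exact_mod_cast w3
      · have : p.1 ≠ 0 := by omega
        exact_mod_cast this
      · have : p.2 ≠ 0 := by omega
        exact_mod_cast this
      · rw [Int.gcd_natCast_natCast]
        exact w4
      · rintro ⟨h1, -⟩
        have : (0 : ℤ) ≤ (p.1 : ℤ) * d := by positivity
        exact absurd h1 (not_lt.2 this)
    · intro p hp
      obtain ⟨w1, w2, w3, w4⟩ := ap_mem_W hp
      rw [mem_filter]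
      refine ⟨hU p1 hp1 _ _ ?_ ?_ ?_ ?_ ?_ ?_, ?_⟩
      · rw [← hI0]
        have : (p.2 : ℤ) ≤ I := by exact_mod_cast w3
        linarith
      · have : (p.1 : ℤ) < p.2 := by exact_mod_cast w2
        linarith
      · have : (0 : ℤ) ≤ (p1.2.2 : ℤ) := Nat.cast_nonneg _
        have : (0 : ℤ) ≤ (p.1 : ℤ) := Nat.cast_nonneg _
        linarith
      · have : p.2 ≠ 0 := by omega
        have : (p.2 : ℤ) ≠ 0 := by exact_mod_cast this
        exact neg_ne_zero.2 this
      · have : p.1 ≠ 0 := by omega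
        have : (p.1 : ℤ) ≠ 0 := by exact_mod_cast this
        exact neg_ne_zero.2 this
      · rw [Int.neg_gcd, Int.gcd_neg, Int.gcd_natCast_natCast]
        exact w4.symm
      · rintro ⟨-, h1⟩
        have : (0 : ℤ) ≤ (p.1 : ℤ) * d := by positivity
        have h1' : 0 < -(p.1 : ℤ) * d := h1
        linarith
  have hUs : C.card + (W I).card + (W J).card ≤ (UU T d).card := by
    have e := card_filter_add_card_filter_not (s := UU T d) (fun q : ℤ × ℤ => q.1 < 0 ∧ 0 < q.2)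
    omega
  -- the upper bounds for the family
  have hB1 : Td.card ≤ C.card + (NP I J).card + (I + J + 2) := by
    have e := card_filter_add_card_filter_not (s := Td)
      (fun p : ℕ × ℕ × ℕ => p.2.1 ≠ 0 ∧ p.2.2 ≠ 0 ∧ Nat.Coprime p.2.1 p.2.2)
    rw [← hC] at e
    have e2 : (Td.filter fun p => ¬ (p.2.1 ≠ 0 ∧ p.2.2 ≠ 0 ∧ Nat.Coprime p.2.1 p.2.2)).card ≤
        (NP I J ∪ (((range (I + 1)) ×ˢ {0}) ∪ ({0} ×ˢ (range (J + 1))))).card := by
      refine card_le_card_of_injOn (fun p => p.2) ?_ ?_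
      · intro p hp
        obtain ⟨q1, q2⟩ := mem_filter.1 hp
        have r1 := hI' p q1
        have r2 := hJ' p q1
        rw [mem_coe, mem_union, mem_union, mem_product, mem_product, mem_range, mem_singleton,
          mem_singleton, mem_range]
        dsimp only
        by_cases z1 : p.2.1 = 0
        · exact Or.inr (Or.inr ⟨z1, by omega⟩)
        · by_cases z2 : p.2.2 = 0
          · exact Or.inr (Or.inl ⟨by omega, z2⟩)
          · left
            unfold NP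
            rw [mem_filter, mem_product, mem_Icc, mem_Icc]
            refine ⟨⟨⟨by omega, r1⟩, ⟨by omega, r2⟩⟩, fun h => q2 ⟨z1, z2, h⟩⟩
      · intro p hp q hq h
        have hp' := (hm p (mem_filter.1 hp).1).2
        have hq' := (hm q (mem_filter.1 hq).1).2
        exact Prod.ext (by rw [hp', hq']) h
    have e3 := card_union_le (NP I J) (((range (I + 1)) ×ˢ {0}) ∪ ({0} ×ˢ (range (J + 1))))
    have e4 := card_union_le ((range (I + 1)) ×ˢ ({0} : Finset ℕ)) (({0} : Finset ℕ) ×ˢ (range (J + 1)))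
    rw [card_product, card_product, card_range, card_range, card_singleton, mul_one, one_mul] at e4
    omega
  have hB2 : Td.card ≤ (I + 1) * (J + 1) := by
    have e := card_le_card_of_injOn (s := Td) (t := (range (I + 1)) ×ˢ (range (J + 1)))
      (fun p => p.2) (by
        intro p hp
        have r1 := hI' p hp
        have r2 := hJ' p hp
        rw [mem_coe, mem_product, mem_range, mem_range]
        dsimp only
        exact ⟨by omega, by omega⟩) (by
        intro p hp q hq h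
        exact Prod.ext (by rw [(hm p hp).2, (hm q hq).2]) h)
    rwa [card_product, card_range, card_range] at e
  -- the numbers
  have n1 := NP_le I J
  have n2 := W_ge' I
  have n3 := W_ge' J
  have n4 : ((Td.card : ℕ) : ℝ) ≤ C.card + (NP I J).card + (I + J + 2) := by exact_mod_cast hB1
  have n5 : ((Td.card : ℕ) : ℝ) ≤ (I + 1) * (J + 1) := by exact_mod_cast hB2
  have n6 : ((C.card : ℕ) : ℝ) + (W I).card + (W J).card ≤ (UU T d).card := by exact_mod_cast hUs
  obtain ⟨m, hmm⟩ : ∃ m, m = (a + b) / d := ⟨_, rfl⟩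
  rw [← hmm] at hIJ ⊢
  have n7 : (I : ℝ) + J ≤ m := by exact_mod_cast hIJ
  have hI00 : (0 : ℝ) ≤ I := Nat.cast_nonneg _
  have hJ00 : (0 : ℝ) ≤ J := Nat.cast_nonneg _
  have n8 : (0 : ℝ) ≤ (I : ℝ) * J := mul_nonneg hI00 hJ00
  have n9 : 2 * ((I : ℝ) * J) ≤ (I : ℝ) ^ 2 + (J : ℝ) ^ 2 := by nlinarith [sq_nonneg ((I : ℝ) - J)]
  have hcc : cc ≤ 0.48 := by
    unfold cc
    norm_num
  have hcc0 : 0 ≤ cc := by
    unfold cc
    norm_num
  have key : (102 : ℝ) * Td.card ≤ 100 * (UU T d).card + 1000 * (m + 1) := by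
    have k1 : (1 - cc) * (2 * ((I : ℝ) * J)) ≤ (1 - cc) * ((I : ℝ) ^ 2 + (J : ℝ) ^ 2) :=
      mul_le_mul_of_nonneg_left n9 (by linarith)
    have k2 : cc * ((I : ℝ) * J) ≤ 0.48 * ((I : ℝ) * J) := mul_le_mul_of_nonneg_right hcc n8
    nlinarith
  exact_mod_cast key

theorem ap_dense (a b : ℕ) (T : Finset (ℕ × ℕ × ℕ))
    (hT : ∀ p ∈ T, 1 ≤ p.1 ∧ 2 ≤ p.2.1 + p.2.2 ∧ p.1 * p.2.1 ≤ a ∧ p.1 * p.2.2 ≤ b) :
    102 * T.card ≤ 100 * (T.biUnion (fun p => prs (prog p.1 p.2.1 p.2.2))).card +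
      1000 * ∑ d ∈ Icc 1 (a + b), ((a + b) / d + 1) := by
  have h1 : T.card = ∑ d ∈ Icc 1 (a + b), (T.filter fun p => p.1 = d).card := by
    refine card_eq_sum_card_fiberwise (f := fun p : ℕ × ℕ × ℕ => p.1) ?_
    intro p hp
    obtain ⟨e1, e2, e3, e4⟩ := hT p hp
    show p.1 ∈ Icc 1 (a + b)
    rw [mem_Icc]
    refine ⟨e1, ?_⟩
    nlinarith
  have h2 : ∑ d ∈ Icc 1 (a + b), (UU T d).card ≤
      (T.biUnion (fun p => prs (prog p.1 p.2.1 p.2.2))).card := by
    rw [← card_biUnion]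
    · refine card_le_card fun q hq => ?_
      rw [mem_biUnion] at hq
      obtain ⟨d, -, hq⟩ := hq
      exact (mem_filter.1 hq).1
    · intro d _ d' _ hne
      show Disjoint (UU T d) (UU T d')
      rw [Finset.disjoint_left]
      intro q hq hq'
      exact hne ((mem_filter.1 hq).2.symm.trans (mem_filter.1 hq').2)
  have h3 : 102 * T.card ≤ 100 * ∑ d ∈ Icc 1 (a + b), (UU T d).card +
      1000 * ∑ d ∈ Icc 1 (a + b), ((a + b) / d + 1) := by
    rw [h1, mul_sum, mul_sum, mul_sum, ← sum_add_distrib]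
    exact sum_le_sum fun d _ => dense_d a b T hT d
  omega

end Pool.Agent.H21.AP
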