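import Mathlib

/-!
A Sauer–Shelah type bound for a family of finite sets with a common element whose pairwise
intersections are order-convex.
-/

set_option autoImplicit false

namespace Pool.Agent.H21.AP

open Finset

/-- order-convex (an interval) -/
def Cvx (B : Finset ℤ) : Prop := ∀ u ∈ B, ∀ w ∈ B, ∀ v : ℤ, u ≤ v → v ≤ w → v ∈ B

/-- a member that is not an interval has an element in no other member -/
theorem exists_own_elt {m : ℤ} {B : Finset (Finset ℤ)} (hm : ∀ b ∈ B, m ∈ b)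
    (hc : ∀ b ∈ B, ∀ b' ∈ B, b ≠ b' → Cvx (b ∩ b')) {b : Finset ℤ} (hb : b ∈ B)
    (hn : ¬ Cvx b) : ∃ e ∈ b, ∀ b' ∈ B, b ≠ b' → e ∉ b' := by
  by_contra hcon
  push Not at hcon
  -- all numbers between `m` and an element of `b` are in `b`
  have key : ∀ e ∈ b, (∀ v : ℤ, m ≤ v → v ≤ e → v ∈ b) ∧ (∀ v : ℤ, e ≤ v → v ≤ m → v ∈ b) := by
    intro e he
    obtain ⟨b', hb', hne, heb'⟩ := hcon e he
    have h := hc b hb b' hb' hne
    have hem : e ∈ b ∩ b' := mem_inter.2 ⟨he, heb'⟩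
    have hmm : m ∈ b ∩ b' := mem_inter.2 ⟨hm b hb, hm b' hb'⟩
    exact ⟨fun v h1 h2 => (mem_inter.1 (h m hmm e hem v h1 h2)).1,
      fun v h1 h2 => (mem_inter.1 (h e hem m hmm v h1 h2)).1⟩
  apply hn
  intro u hu w hw v huv hvw
  rcases le_total v m with h | h
  · exact (key u hu).2 v huv h
  · exact (key w hw).1 v h hvw

/-- the sets shattered by intervals containing `m` -/
theorem shattered_cases {m : ℤ} {C : Finset (Finset ℤ)} (hm : ∀ b ∈ C, m ∈ b)
    (hC : ∀ b ∈ C, Cvx b) {s : Finset ℤ} (hs : C.Shatters s) :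
    s = ∅ ∨ (∃ y : ℤ, s = {y} ∧ (∃ b ∈ C, y ∈ b) ∧ (∃ b ∈ C, y ∉ b)) ∨
      (∃ y z : ℤ, s = {y, z} ∧ y < m ∧ m < z ∧ (∃ b ∈ C, y ∈ b ∧ z ∈ b) ∧
        (∃ b ∈ C, y ∉ b ∧ z ∉ b)) := by
  classical
  rcases s.eq_empty_or_nonempty with h0 | hne
  · exact Or.inl h0
  right
  obtain ⟨ball, hball, hball'⟩ := hs (Subset.refl s)
  obtain ⟨bnone, hbnone, hbnone'⟩ := hs (empty_subset s)
  have hsub : s ⊆ ball := inter_eq_left.1 hball'
  have hdis : ∀ u ∈ s, u ∉ bnone := by
    intro u hu hu'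
    have : u ∈ s ∩ bnone := mem_inter.2 ⟨hu, hu'⟩
    rw [hbnone'] at this
    exact absurd this (notMem_empty u)
  set y := s.min' hne with hy
  set z := s.max' hne with hz
  have hys : y ∈ s := s.min'_mem hne
  have hzs : z ∈ s := s.max'_mem hne
  have hyz : y ≤ z := s.min'_le z hzs
  rcases hyz.eq_or_lt with heq | hlt
  · left
    refine ⟨y, ?_, ⟨ball, hball, hsub hys⟩, ⟨bnone, hbnone, hdis y hys⟩⟩
    ext v
    rw [mem_singleton]
    constructor
    · intro hv
      have h1 : y ≤ v := s.min'_le v hv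
      have h2 : v ≤ z := s.le_max' v hv
      omega
    · rintro rfl
      exact hys
  · right
    refine ⟨y, z, ?_, ?_, ?_, ⟨ball, hball, hsub hys, hsub hzs⟩,
      ⟨bnone, hbnone, hdis y hys, hdis z hzs⟩⟩
    · ext v
      rw [mem_insert, mem_singleton]
      constructor
      · intro hv
        by_contra hcon
        push Not at hcon
        have h1 : y ≤ v := s.min'_le v hv
        have h2 : v ≤ z := s.le_max' v hv
        obtain ⟨b, hb, hb'⟩ := hs (show ({y, z} : Finset ℤ) ⊆ s by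
          intro t ht
          rw [mem_insert, mem_singleton] at ht
          rcases ht with rfl | rfl
          · exact hys
          · exact hzs)
        have hyb : y ∈ b := (mem_inter.1 (hb'.symm ▸ mem_insert_self y {z} : y ∈ s ∩ b)).2
        have hzb : z ∈ b := (mem_inter.1 (hb'.symm ▸ mem_insert_of_mem (mem_singleton_self z) :
          z ∈ s ∩ b)).2
        have hvb : v ∈ s ∩ b := mem_inter.2 ⟨hv, hC b hb y hyb z hzb v h1 h2⟩
        rw [hb', mem_insert, mem_singleton] at hvb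
        rcases hvb with h | h
        · exact hcon.1 h
        · exact hcon.2 h
      · rintro (rfl | rfl)
        · exact hys
        · exact hzs
    · by_contra hcon
      push Not at hcon
      -- `m ≤ y < z`: a member containing `z` and not `y`
      obtain ⟨b, hb, hb'⟩ := hs (singleton_subset_iff.2 hzs)
      have hzb : z ∈ b := (mem_inter.1 (hb'.symm ▸ mem_singleton_self z : z ∈ s ∩ b)).2
      have hyb : y ∈ s ∩ b := mem_inter.2 ⟨hys, hC b hb m (hm b hb) z hzb y hcon hlt.le⟩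
      rw [hb', mem_singleton] at hyb
      omega
    · by_contra hcon
      push Not at hcon
      obtain ⟨b, hb, hb'⟩ := hs (singleton_subset_iff.2 hys)
      have hyb : y ∈ b := (mem_inter.1 (hb'.symm ▸ mem_singleton_self y : y ∈ s ∩ b)).2
      have hzb : z ∈ s ∩ b := mem_inter.2 ⟨hzs, hC b hb y hyb m (hm b hb) z hlt.le hcon⟩
      rw [hb', mem_singleton] at hzb
      omega

open Classical in
/-- `X` the ground set, `m` a common element -/
theorem sauer (X : Finset ℤ) (m : ℤ) (B : Finset (Finset ℤ)) (hX : ∀ b ∈ B, b ⊆ X) (hm : ∀ b ∈ B, m ∈ b)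
    (hc : ∀ b ∈ B, ∀ b' ∈ B, b ≠ b' → Cvx (b ∩ b')) (h2 : 2 ≤ B.card) :
    B.card ≤ 1 + (X.filter (fun u => ∃ b ∈ B, u ∉ b)).card +
      ((X ×ˢ X).filter (fun q : ℤ × ℤ => q.1 < m ∧ m < q.2 ∧ (∃ b ∈ B, Cvx b ∧ q.1 ∈ b ∧ q.2 ∈ b) ∧
        (∃ b ∈ B, Cvx b ∧ q.1 ∉ b ∧ q.2 ∉ b))).card := by
  set F := X.filter (fun u => ∃ b ∈ B, u ∉ b) with hF
  set Q := (X ×ˢ X).filter (fun q : ℤ × ℤ => q.1 < m ∧ m < q.2 ∧
    (∃ b ∈ B, Cvx b ∧ q.1 ∈ b ∧ q.2 ∈ b) ∧ (∃ b ∈ B, Cvx b ∧ q.1 ∉ b ∧ q.2 ∉ b)) with hQ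
  set Bp := B.filter (fun b => Cvx b) with hBp
  set Bn := B.filter (fun b => ¬ Cvx b) with hBn
  have hsplit : Bp.card + Bn.card = B.card := card_filter_add_card_filter_not _
  -- the members of `Bn`
  have hown : ∀ b ∈ Bn, ∃ e ∈ b, ∀ b' ∈ B, b ≠ b' → e ∉ b' := by
    intro b hb
    exact exists_own_elt hm hc (mem_filter.1 hb).1 (mem_filter.1 hb).2
  choose! e heb hee using hown
  have hBncard : Bn.card ≤ (F.filter (fun u => ∀ b ∈ Bp, u ∉ b)).card := by
    apply card_le_card_of_injOn e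
    · intro b hb
      have hb0 : b ∈ Bn := hb
      have hbB : b ∈ B := (mem_filter.1 hb0).1
      rw [mem_coe, mem_filter, hF, mem_filter]
      refine ⟨⟨hX b hbB (heb b hb0), ?_⟩, ?_⟩
      · obtain ⟨b', hb', hne⟩ := exists_mem_ne (show 1 < B.card by omega) b
        exact ⟨b', hb', hee b hb0 b' hb' hne.symm⟩
      · intro b' hb'
        refine hee b hb0 b' (mem_filter.1 hb').1 ?_
        rintro rfl
        exact (mem_filter.1 hb0).2 (mem_filter.1 hb').2
    · intro b hb b' hb' heq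
      have hb0 : b ∈ Bn := hb
      have hb0' : b' ∈ Bn := hb'
      by_contra hne
      exact hee b hb0 b' (mem_filter.1 hb0').1 hne (heq ▸ heb b' hb0')
  -- the members of `Bp`
  set Y := F.filter (fun u => ¬ ∀ b ∈ Bp, u ∉ b) with hY
  have hshat : Bp.shatterer ⊆ ({∅} ∪ Y.image (fun y => ({y} : Finset ℤ))) ∪
      Q.image (fun q => ({q.1, q.2} : Finset ℤ)) := by
    intro s hs
    rw [mem_shatterer] at hs
    have hBpB : ∀ b ∈ Bp, b ∈ B := fun b hb => (mem_filter.1 hb).1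
    have hBpC : ∀ b ∈ Bp, Cvx b := fun b hb => (mem_filter.1 hb).2
    rcases shattered_cases (fun b hb => hm b (hBpB b hb)) hBpC hs with h | ⟨y, rfl, h1, h2'⟩ |
      ⟨y, z, rfl, hym, hmz, ⟨b, hb, hyb, hzb⟩, ⟨b', hb', hyb', hzb'⟩⟩
    · rw [mem_union, mem_union, mem_singleton]
      exact Or.inl (Or.inl h)
    · rw [mem_union, mem_union]
      refine Or.inl (Or.inr (mem_image.2 ⟨y, ?_, rfl⟩))
      obtain ⟨b, hb, hyb⟩ := h1
      obtain ⟨b', hb', hyb'⟩ := h2'
      rw [hY, mem_filter, hF, mem_filter]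
      refine ⟨⟨hX b (hBpB b hb) hyb, b', hBpB b' hb', hyb'⟩, ?_⟩
      intro hall
      exact hall b hb hyb
    · rw [mem_union]
      refine Or.inr (mem_image.2 ⟨(y, z), ?_, rfl⟩)
      rw [hQ, mem_filter, mem_product]
      exact ⟨⟨hX b (hBpB b hb) hyb, hX b (hBpB b hb) hzb⟩, hym, hmz,
        ⟨b, hBpB b hb, hBpC b hb, hyb, hzb⟩, ⟨b', hBpB b' hb', hBpC b' hb', hyb', hzb'⟩⟩
  have hBpcard : Bp.card ≤ 1 + Y.card + Q.card := by
    calc Bp.card ≤ Bp.shatterer.card := card_le_card_shatterer Bp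
      _ ≤ _ := card_le_card hshat
      _ ≤ _ := card_union_le _ _
      _ ≤ (1 + Y.card) + Q.card := by
        refine Nat.add_le_add ((card_union_le _ _).trans ?_) card_image_le
        exact Nat.add_le_add (by rw [card_singleton]) card_image_le
  have hFsplit : (F.filter (fun u => ∀ b ∈ Bp, u ∉ b)).card + Y.card = F.card :=
    card_filter_add_card_filter_not _
  omega

end Pool.Agent.H21.AP
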