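import Pool.Agent.H21.AP.Star
import Pool.Agent.H21.AP.Box
import Pool.Agent.H21.AP.Sauer

set_option autoImplicit false

namespace Pool.Agent.H21.AP

open Finset Pool.Agent.H483S

/-- a long progression in `[N]` is an interval -/
theorem cvx_of_long {N : ℕ} {P : Finset ℤ} (hP : IsAP P) (hsub : P ⊆ Icc 1 (N : ℤ))
    (hl : N + 2 < 2 * P.card) : Cvx P := by
  obtain ⟨a, d, l, hd, hl1, rfl⟩ := hP
  have hcard : ((range l).image (fun i : ℕ => a + i * d)).card ≤ l := by
    simpa using card_image_le (s := range l) (f := fun i : ℕ => a + i * d)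
  have h0 : a + ((0 : ℕ) : ℤ) * d ∈ (range l).image (fun i : ℕ => a + i * d) :=
    mem_image.2 ⟨0, mem_range.2 (by omega), rfl⟩
  have h1 : a + ((l - 1 : ℕ) : ℤ) * d ∈ (range l).image (fun i : ℕ => a + i * d) :=
    mem_image.2 ⟨l - 1, mem_range.2 (by omega), rfl⟩
  have e0 := mem_Icc.1 (hsub h0)
  have e1 := mem_Icc.1 (hsub h1)
  have hl2 : ((l - 1 : ℕ) : ℤ) = (l : ℤ) - 1 := by omega
  have hlN : (N : ℤ) + 2 < 2 * l := by exact_mod_cast (lt_of_lt_of_le hl (by omega))
  have hd1 : d = 1 := by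
    by_contra hne
    have hd2 : 2 ≤ d := by omega
    have h3 : ((l : ℤ) - 1) * d ≤ N - 1 := by
      have := e1.2
      rw [hl2] at this
      have := e0.1
      push_cast at this
      linarith
    nlinarith
  subst hd1
  intro u hu w hw v huv hvw
  obtain ⟨i, hi, rfl⟩ := mem_image.1 hu
  obtain ⟨j, hj, rfl⟩ := mem_image.1 hw
  have hj' := mem_range.1 hj
  refine mem_image.2 ⟨(v - a).toNat, mem_range.2 ?_, ?_⟩
  · omega
  · have : 0 ≤ v - a := by
      have : (0 : ℤ) ≤ i := Int.natCast_nonneg i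
      linarith
    rw [Int.toNat_of_nonneg this]; ring

/-- the middle element is in every long interval -/
theorem mid_mem {N : ℕ} {P : Finset ℤ} (hc : Cvx P) (hsub : P ⊆ Icc 1 (N : ℤ))
    (hl : N + 2 < 2 * P.card) : ((N / 2 + 1 : ℕ) : ℤ) ∈ P := by
  classical
  by_contra hm
  set m : ℤ := ((N / 2 + 1 : ℕ) : ℤ) with hmdef
  -- all elements are on one side of m
  by_cases hleft : ∃ u ∈ P, u < m
  · obtain ⟨u, hu, hum⟩ := hleft
    have : P ⊆ Icc 1 (m - 1) := by
      intro w hw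
      have h1 := mem_Icc.1 (hsub hw)
      rw [mem_Icc]
      refine ⟨h1.1, ?_⟩
      by_contra hc'
      push Not at hc'
      exact hm (hc u hu w hw m hum.le (by omega))
    have h2 := card_le_card this
    rw [Int.card_Icc] at h2
    omega
  · push Not at hleft
    have : P ⊆ Icc (m + 1) (N : ℤ) := by
      intro w hw
      have h1 := mem_Icc.1 (hsub hw)
      have h2 := hleft w hw
      have h3 : w ≠ m := fun h => hm (h ▸ hw)
      rw [mem_Icc]
      exact ⟨by omega, h1.2⟩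
    have h2 := card_le_card this
    rw [Int.card_Icc] at h2
    omega

/-- the exact bound if `x` is in the left half and every member that misses `x` is very large -/
theorem exact_left (N : ℕ) (hN : 3000 ≤ N) (F : Finset (Finset ℤ)) (hsub : ∀ A ∈ F, A ⊆ Icc 1 (N : ℤ))
    (hint : ∀ A ∈ F, ∀ B ∈ F, A ≠ B → IsAP (A ∩ B)) (x : ℤ) (hxN : x ∈ Icc 1 (N : ℤ))
    (hx2 : 2 * x ≤ N + 1)
    (hfar : ∀ B ∈ F, x ∉ B → 3000 * (((Icc 1 (N : ℤ)).erase x) \ B).card ≤ N) :
    F.card ≤ N.choose 2 + 1 + (N - 1) / 4 := by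
  classical
  set Fi := F.filter (fun A => x ∈ A) with hFi
  set Fo := F.filter (fun A => x ∉ A) with hFo
  by_cases h3 : Fo.card ≤ 3
  · exact near_le N F hsub hint x hxN h3
  push Not at h3
  set X := (Icc 1 (N : ℤ)).erase x with hX
  have hXc : X.card = N - 1 := by
    rw [hX, card_erase_of_mem hxN, Int.card_Icc]; omega
  have hFoF : ∀ B ∈ Fo, B ∈ F ∧ x ∉ B := fun B hB => mem_filter.1 hB
  have hFoX : ∀ B ∈ Fo, B ⊆ X := by
    intro B hB u hu
    obtain ⟨h1, h2⟩ := hFoF B hB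
    exact mem_erase.2 ⟨fun h => h2 (h ▸ hu), hsub B h1 hu⟩
  -- intersections are long intervals
  have hlong : ∀ B ∈ Fo, ∀ B' ∈ Fo, N + 2 < 2 * (B ∩ B').card := by
    intro B hB B' hB'
    have h1 := hfar B (hFoF B hB).1 (hFoF B hB).2
    have h2 := hfar B' (hFoF B' hB').1 (hFoF B' hB').2
    have h4 : X \ (B ∩ B') ⊆ (X \ B) ∪ (X \ B') := by
      intro u hu
      obtain ⟨hu1, hu2⟩ := mem_sdiff.1 hu
      rw [mem_union, mem_sdiff, mem_sdiff]
      by_cases hB1 : u ∈ B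
      · right; exact ⟨hu1, fun h => hu2 (mem_inter.2 ⟨hB1, h⟩)⟩
      · left; exact ⟨hu1, hB1⟩
    have h5 := (card_le_card h4).trans (card_union_le _ _)
    have h6 : (X \ (B ∩ B')).card = X.card - (B ∩ B').card :=
      card_sdiff_of_subset (inter_subset_left.trans (hFoX B hB))
    omega
  have hcvx : ∀ B ∈ Fo, ∀ B' ∈ Fo, B ≠ B' → Cvx (B ∩ B') := by
    intro B hB B' hB' hne
    exact cvx_of_long (hint B (hFoF B hB).1 B' (hFoF B' hB').1 hne)
      (inter_subset_left.trans (hsub B (hFoF B hB).1)) (hlong B hB B' hB')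
  set m : ℤ := ((N / 2 + 1 : ℕ) : ℤ) with hmdef
  have hmB : ∀ B ∈ Fo, m ∈ B := by
    intro B hB
    obtain ⟨B', hB', hne⟩ : ∃ B' ∈ Fo, B' ≠ B := by
      by_contra hc
      push Not at hc
      have : Fo.card ≤ 1 := card_le_one.2 (fun a ha b hb => by rw [hc a ha, hc b hb])
      omega
    have := mid_mem (hcvx B hB B' hB' hne.symm)
      (inter_subset_left.trans (hsub B (hFoF B hB).1)) (hlong B hB B' hB')
    exact (mem_inter.1 this).1
  obtain ⟨B0, hB0⟩ : Fo.Nonempty := card_pos.1 (by omega)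
  have hxm : x < m := by
    have h1 : x ≠ m := fun h => (hFoF B0 hB0).2 (h ▸ hmB B0 hB0)
    have : x ≤ m := by omega
    omega
  -- Sauer
  set D := (X ×ˢ X).filter (fun q : ℤ × ℤ => q.1 < m ∧ m < q.2 ∧
    (∃ b ∈ Fo, Cvx b ∧ q.1 ∈ b ∧ q.2 ∈ b) ∧ (∃ b ∈ Fo, Cvx b ∧ q.1 ∉ b ∧ q.2 ∉ b)) with hD
  have hsau := sauer X m Fo hFoX hmB hcvx (by omega)
  rw [← hD] at hsau
  set K := (Icc 1 (N : ℤ)).filter (fun u => ∀ A ∈ F, x ∉ A → u ∈ A) with hK
  have hKX : K.card + (X.filter (fun u => ∃ b ∈ Fo, u ∉ b)).card ≤ N - 1 := by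
    rw [← hXc]
    have hdis : Disjoint K (X.filter (fun u => ∃ b ∈ Fo, u ∉ b)) := by
      rw [disjoint_left]
      intro u hu hu'
      obtain ⟨-, b, hb, hub⟩ := mem_filter.1 hu'
      exact hub ((mem_filter.1 hu).2 b (hFoF b hb).1 (hFoF b hb).2)
    rw [← card_union_of_disjoint hdis]
    apply card_le_card
    intro u hu
    rcases mem_union.1 hu with h | h
    · obtain ⟨h1, h2⟩ := mem_filter.1 h
      exact mem_erase.2 ⟨fun he => (hFoF B0 hB0).2 (he ▸ h2 B0 (hFoF B0 hB0).1 (hFoF B0 hB0).2), h1⟩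
    · exact (mem_filter.1 h).1
  have hs1 : Fi.card + Fo.card = F.card := card_filter_add_card_filter_not _
  have hs2 : (Fi.filter (fun A => A.card ≤ 2)).card + (Fi.filter (fun A => ¬ A.card ≤ 2)).card =
    Fi.card := card_filter_add_card_filter_not _
  have hsm : (Fi.filter (fun A => A.card ≤ 2)).card ≤ K.card := by
    have hmeet : ∀ A ∈ Fi.filter (fun A => A.card ≤ 2), ∀ B ∈ F, x ∉ B →
        ∃ u ∈ A, u ∈ B ∧ u ≠ x := by
      intro A hA B hB hxB
      obtain ⟨hA1, hA2⟩ := mem_filter.1 hA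
      obtain ⟨hA3, hA4⟩ := mem_filter.1 hA1
      have hne : A ≠ B := by rintro rfl; exact hxB hA4
      obtain ⟨u, hu⟩ := (hint A hA3 B hB hne).nonempty
      obtain ⟨hu1, hu2⟩ := mem_inter.1 hu
      exact ⟨u, hu1, hu2, by rintro rfl; exact hxB hu2⟩
    refine small_le x _ K (fun A hA => (mem_filter.1 (mem_filter.1 hA).1).2)
      (fun A hA => (mem_filter.1 hA).2) (fun A hA => ?_)
    obtain ⟨hA1, hA2⟩ := mem_filter.1 hA
    obtain ⟨hA3, hA4⟩ := mem_filter.1 hA1
    obtain ⟨hB01, hB02⟩ := mem_filter.1 hB0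
    obtain ⟨u0, hu0, -, hu0x⟩ := hmeet A hA B0 hB01 hB02
    refine ⟨⟨u0, mem_erase.2 ⟨hu0x, hu0⟩⟩, fun v hv => ?_⟩
    obtain ⟨hvx, hvA⟩ := mem_erase.1 hv
    refine mem_filter.2 ⟨hsub A hA3 hvA, fun B hB hxB => ?_⟩
    obtain ⟨u, hu1, hu2, hu3⟩ := hmeet A hA B hB hxB
    have hc : (A.erase x).card ≤ 1 := by
      rw [card_erase_of_mem hA4]; omega
    have := card_le_one.1 hc u (mem_erase.2 ⟨hu3, hu1⟩) v hv
    rwa [← this]
  -- the large members through x
  have hbig : (Fi.filter (fun A => ¬ A.card ≤ 2)).card + D.card ≤ (N - 1).choose 2 + (N - 1) / 4 := by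
    rcases D.eq_empty_or_nonempty with hDe | ⟨q0, hq0⟩
    · rw [hDe, card_empty, add_zero]
      exact big_le N Fi (fun A hA => hsub A (mem_filter.1 hA).1)
        (fun A hA B hB => hint A (mem_filter.1 hA).1 B (mem_filter.1 hB).1) x hxN
        (fun A hA => (mem_filter.1 hA).2)
    -- facts about the pairs of D
    have hDq : ∀ q ∈ D, x < q.1 ∧ q.1 < m ∧ m < q.2 ∧ q.2 ≤ N ∧ 3000 * (q.1 - 2) ≤ N ∧
        3000 * (N - q.2) ≤ N := by
      intro q hq
      obtain ⟨hqX, h1, h2, ⟨b1, hb1, c1, k1, k2⟩, ⟨b0, hb0, c0, l1, l2⟩⟩ := mem_filter.1 hq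
      obtain ⟨hqX1, hqX2⟩ := mem_product.1 hqX
      have hq1N := mem_Icc.1 (mem_erase.1 hqX1).2
      have hq2N := mem_Icc.1 (mem_erase.1 hqX2).2
      have hxq : x < q.1 := by
        by_contra hc
        push Not at hc
        exact (hFoF b1 hb1).2 (c1 q.1 k1 m (hmB b1 hb1) x hc hxm.le)
      have hmb0 := hmB b0 hb0
      have hsubset : ((Icc 1 q.1).erase x) ∪ (Icc q.2 (N : ℤ)) ⊆ X \ b0 := by
        intro u hu
        rw [mem_sdiff]
        rcases mem_union.1 hu with h | h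
        · obtain ⟨hux, hu1⟩ := mem_erase.1 h
          obtain ⟨hu2, hu3⟩ := mem_Icc.1 hu1
          refine ⟨mem_erase.2 ⟨hux, mem_Icc.2 ⟨hu2, by omega⟩⟩, fun hub => ?_⟩
          exact l1 (c0 u hub m hmb0 q.1 hu3 h1.le)
        · obtain ⟨hu2, hu3⟩ := mem_Icc.1 h
          refine ⟨mem_erase.2 ⟨by omega, mem_Icc.2 ⟨by omega, hu3⟩⟩, fun hub => ?_⟩
          exact l2 (c0 m hmb0 u hub q.2 h2.le hu2)
      have hc1 := card_le_card hsubset
      have hdisj : Disjoint ((Icc 1 q.1).erase x) (Icc q.2 (N : ℤ)) := by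
        rw [disjoint_left]
        intro u hu hu'
        have h5 := mem_Icc.1 (mem_erase.1 hu).2
        have h6 := mem_Icc.1 hu'
        omega
      have hxI : x ∈ Icc 1 q.1 := mem_Icc.2 ⟨(mem_Icc.1 hxN).1, hxq.le⟩
      rw [card_union_of_disjoint hdisj, card_erase_of_mem hxI, Int.card_Icc, Int.card_Icc] at hc1
      have hf := hfar b0 (hFoF b0 hb0).1 (hFoF b0 hb0).2
      refine ⟨hxq, h1, h2, hq2N.2, ?_, ?_⟩ <;> omega
    obtain ⟨hq01, hq02, hq03, hq04, hq05, hq06⟩ := hDq q0 hq0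
    obtain ⟨hx1, hx2'⟩ := mem_Icc.1 hxN
    set a := (x - 1).toNat with ha
    set b := ((N : ℤ) - x).toNat with hb
    have ha' : (a : ℤ) = x - 1 := Int.toNat_of_nonneg (by omega)
    have hb' : (b : ℤ) = N - x := Int.toNat_of_nonneg (by omega)
    have hinj : Function.Injective (fun y : ℤ => y - x) := fun y z h => by simpa using h
    have hinj2 : Function.Injective (fun A : Finset ℤ => A.image (fun y => y - x)) :=
      Finset.image_injective hinj
    have hinj3 : Function.Injective (fun q : ℤ × ℤ => (q.1 - x, q.2 - x)) := by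
      intro q r h
      simp only [Prod.mk.injEq] at h
      exact Prod.ext (by linarith [h.1]) (by linarith [h.2])
    have h3' := star_big_box ap_count_box a b (by omega)
      (Fi.image (fun A => A.image (fun y => y - x))) ?_ ?_ ?_
      (D.image (fun q : ℤ × ℤ => (q.1 - x, q.2 - x))) ?_ ?_ ?_
    · have h4 : a + b = N - 1 := by omega
      rw [h4, filter_image, card_image_of_injective _ hinj2, card_image_of_injective _ hinj3] at h3'
      simpa only [card_image_of_injective _ hinj] using h3'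
    · intro A hA
      obtain ⟨B, hB, rfl⟩ := mem_image.1 hA
      intro w hw
      obtain ⟨y, hy, rfl⟩ := mem_image.1 hw
      have := mem_Icc.1 (hsub B (mem_filter.1 hB).1 hy)
      rw [mem_Icc]
      constructor <;> omega
    · intro A hA
      obtain ⟨B, hB, rfl⟩ := mem_image.1 hA
      exact mem_image.2 ⟨x, (mem_filter.1 hB).2, by ring⟩
    · intro A hA B hB hne
      obtain ⟨A', hA', rfl⟩ := mem_image.1 hA
      obtain ⟨B', hB', rfl⟩ := mem_image.1 hB
      rw [← image_inter _ _ hinj]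
      exact (hint A' (mem_filter.1 hA').1 B' (mem_filter.1 hB').1 (fun h => hne (by rw [h]))).shift x
    · intro r hr
      obtain ⟨q, hq, rfl⟩ := mem_image.1 hr
      obtain ⟨k1, k2, k3, k4, k5, k6⟩ := hDq q hq
      rw [mem_prs]
      dsimp only
      refine ⟨⟨mem_Icc.2 ?_, mem_Icc.2 ?_⟩, ?_, ?_, ?_⟩ <;> first | (constructor <;> omega) | omega
    · intro r hr
      obtain ⟨q, hq, rfl⟩ := mem_image.1 hr
      obtain ⟨k1, k2, k3, k4, k5, k6⟩ := hDq q hq
      dsimp only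
      refine ⟨?_, ?_, ?_⟩ <;> omega
    · intro A hA hnAP
      obtain ⟨A', hA', rfl⟩ := mem_image.1 hA
      obtain ⟨hA'F, hxA'⟩ := mem_filter.1 hA'
      have hnAP' : ¬ IsAP A' := fun h => hnAP (h.shift x)
      obtain ⟨y, hy, z, hz, hyz, hyx, hzx, ho, hnD⟩ := exists_own_avoid hnAP' hxA' (D : Set (ℤ × ℤ)) (by
        intro y hy z hz hyz
        have hyzD : (y, z) ∈ D := mem_coe.1 hyz
        obtain ⟨k1, k2, k3, k4, k5, k6⟩ := hDq (y, z) hyzD
        obtain ⟨-, -, -, ⟨b1, hb1, c1, l1, l2⟩, ⟨b0, hb0, c0, m1, m2⟩⟩ := mem_filter.1 hyzD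
        dsimp only at *
        have hne1 : A' ≠ b1 := by rintro rfl; exact (hFoF _ hb1).2 hxA'
        have hne0 : A' ≠ b0 := by rintro rfl; exact (hFoF _ hb0).2 hxA'
        obtain ⟨v, hv⟩ := (hint A' hA'F b0 (hFoF b0 hb0).1 hne0).nonempty
        obtain ⟨hvA, hvb0⟩ := mem_inter.1 hv
        have hyv : y < v := by
          by_contra hc
          push Not at hc
          exact m1 (c0 v hvb0 m (hmB b0 hb0) y hc k2.le)
        have hvz : v < z := by
          by_contra hc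
          push Not at hc
          exact m2 (c0 m (hmB b0 hb0) v hvb0 z k3.le hc)
        refine ⟨A' ∩ b1, hint A' hA'F b1 (hFoF b1 hb1).1 hne1, inter_subset_left,
          mem_inter.2 ⟨hy, l1⟩, mem_inter.2 ⟨hz, l2⟩,
          ⟨v, mem_inter.2 ⟨hvA, c1 y l1 z l2 v hyv.le hvz.le⟩, hyv, hvz⟩, Or.inl k1⟩)
      refine ⟨(y - x, z - x), ?_, own_shift ho, ?_⟩
      · rw [mem_prs]
        dsimp only
        refine ⟨⟨mem_image.2 ⟨y, hy, rfl⟩, mem_image.2 ⟨z, hz, rfl⟩⟩, by linarith,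
          sub_ne_zero.2 hyx, sub_ne_zero.2 hzx⟩
      · intro hc
        obtain ⟨q, hq, he⟩ := mem_image.1 hc
        simp only [Prod.mk.injEq] at he
        apply hnD
        have : q = (y, z) := Prod.ext (by linarith [he.1]) (by linarith [he.2])
        rw [← this]
        exact mem_coe.2 hq
  have hN1 := choose_two_step N (by omega)
  omega

end Pool.Agent.H21.AP
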