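import Pool.Agent.H3.AP.ZAFinal
import Pool.Agent.H33.AP.CaseBFinal

/-! the full theorem with an explicit bound for `N` -/

set_option autoImplicit false
namespace Pool.Agent.H21.AP
open Finset Pool.Agent.H483S

set_option exponentiation.threshold 1000 in
theorem n_bound (n : ℕ) (hn : 430 ≤ n) : 10 ^ 90 * n ^ 13 ≤ 2 ^ (n - 1) := by
  induction n, hn using Nat.le_induction with
  | base => norm_num
  | succ n hn ih =>
    have h1 : 430 * (n + 1) ≤ 431 * n := by omega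
    have h2 : (430 * (n + 1)) ^ 13 ≤ (431 * n) ^ 13 := Nat.pow_le_pow_left h1 13
    rw [mul_pow, mul_pow] at h2
    have h3 : 431 ^ 13 ≤ 2 * 430 ^ 13 := by norm_num
    have h4 : 430 ^ 13 * (n + 1) ^ 13 ≤ 430 ^ 13 * (2 * n ^ 13) := by
      calc 430 ^ 13 * (n + 1) ^ 13 ≤ 431 ^ 13 * n ^ 13 := h2
        _ ≤ (2 * 430 ^ 13) * n ^ 13 := Nat.mul_le_mul_right _ h3
        _ = 430 ^ 13 * (2 * n ^ 13) := by ring
    have h5 : (n + 1) ^ 13 ≤ 2 * n ^ 13 := Nat.le_of_mul_le_mul_left h4 (by positivity)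
    have h6 : 2 ^ (n + 1 - 1) = 2 * 2 ^ (n - 1) := by
      rw [← pow_succ']; congr 1; omega
    rw [h6]
    calc 10 ^ 90 * (n + 1) ^ 13 ≤ 10 ^ 90 * (2 * n ^ 13) := Nat.mul_le_mul_left _ h5
      _ = 2 * (10 ^ 90 * n ^ 13) := by ring
      _ ≤ 2 * 2 ^ (n - 1) := Nat.mul_le_mul_left _ ih

set_option exponentiation.threshold 1000 in
theorem expl_params (N : ℕ) (hN : 10 ^ 130 ≤ N) :
    ∃ n : ℕ, N < 2 ^ n ∧ 430 ≤ n ∧ 10 ^ 90 * n ^ 13 ≤ N := by
  have h0 : 2 ^ 430 ≤ N := le_trans (by norm_num) hN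
  obtain ⟨n, hn, hn1, hn2⟩ := log_bd h0
  exact ⟨n, hn2, hn, (n_bound n hn).trans hn1⟩

theorem harm_expl (N : ℕ) (hN : 10 ^ 130 ≤ N) : 10 ^ 20 * ∑ d ∈ Icc 1 N, (N / d + 1) ≤ N ^ 2 := by
  obtain ⟨n, hn2, hn430, hNn⟩ := expl_params N hN
  have h1 := harm_le N n hn2
  rw [sum_add_distrib, sum_const, Nat.card_Icc, smul_eq_mul]
  have h2 : n ≤ n ^ 13 := Nat.le_self_pow (by norm_num) n
  have h3 : 10 ^ 20 * (n + 2) ≤ N := by omega
  calc 10 ^ 20 * (∑ x ∈ Icc 1 N, N / x + (N + 1 - 1) * 1) ≤ 10 ^ 20 * (N * (n + 1) + N) := by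
        apply Nat.mul_le_mul_left
        omega
    _ = N * (10 ^ 20 * (n + 2)) := by ring
    _ ≤ N * N := Nat.mul_le_mul_left _ h3
    _ = N ^ 2 := by ring

/-- many members and not too many progressions: a common element of the small members -/
theorem core3 : ∀ N : ℕ, 10 ^ 130 ≤ N → ∀ F : Finset (Finset ℤ), (∀ A ∈ F, A ⊆ Icc 1 (N : ℤ)) →
    (∀ A ∈ F, ∀ B ∈ F, A ≠ B → IsAP (A ∩ B)) → ∀ P : Finset (Finset ℤ), (∀ A ∈ F, IsAP A → A ∈ P) →
    20 * P.card ≤ 9 * N ^ 2 → N.choose 2 + 1 + (N - 1) / 4 < F.card →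
    ∃ (S L : ℕ) (x : ℤ) (Qs Ql : Finset (Finset ℤ)), N < 2 ^ L ∧ x ∈ Icc 1 (N : ℤ) ∧
      (∀ B ∈ F, B.card ≤ S → x ∈ B) ∧
      (∀ A ∈ Qs, A ∈ F ∧ ¬ IsAP A ∧ x ∈ A ∧ A.card ≤ S) ∧
      F.card ≤ P.card + Ql.card + Qs.card ∧
      2 * 10 ^ 10 * Ql.card ≤ N ^ 2 ∧ 10 ^ 18 * (N * (L + 1) * (2 * S + 1) ^ 6) ≤ N ^ 2 ∧
      10 ^ 18 * (N * (2 * S + 1) ^ 4) ≤ N ^ 2 ∧ 10 ^ 20 * N ≤ N ^ 2 := by
  classical
  intro N hN F hsub hint P hFP hP hlt
  have hNpos : 0 < N := lt_of_lt_of_le (by positivity) hN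
  obtain ⟨n, hn2, hn430, hNn⟩ := expl_params N hN
  set S := 10 ^ 11 * n ^ 2 with hS
  set Ql := F.filter (fun A => ¬ IsAP A ∧ S ≤ A.card) with hQl
  set Qs := F.filter (fun A => ¬ IsAP A ∧ A.card ≤ S) with hQs
  have hsplit : F.card ≤ P.card + Ql.card + Qs.card := by
    have h1 : F ⊆ (P ∪ Ql) ∪ Qs := by
      intro A hA
      by_cases h : IsAP A
      · exact mem_union_left _ (mem_union_left _ (hFP A hA h))
      · rcases le_total S A.card with h2 | h2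
        · exact mem_union_left _ (mem_union_right _ (mem_filter.2 ⟨hA, h, h2⟩))
        · exact mem_union_right _ (mem_filter.2 ⟨hA, h, h2⟩)
    exact (card_le_card h1).trans ((card_union_le _ _).trans (Nat.add_le_add_right (card_union_le _ _) _))
  have hn1' : 1 ≤ n := le_trans (by norm_num) hn430
  have hS4 : 4 ≤ S := by
    rw [hS]
    have : 1 ≤ n ^ 2 := Nat.one_le_pow _ _ hn1'
    omega
  have hlarge := large_few N n S hn2 hS4 Ql (fun A hA => hsub A (mem_filter.1 hA).1)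
    (fun A hA B hB => hint A (mem_filter.1 hA).1 B (mem_filter.1 hB).1)
    (fun A hA => (mem_filter.1 hA).2.1) (fun A hA => (mem_filter.1 hA).2.2)
  have hQlc : 2 * 10 ^ 10 * Ql.card ≤ N ^ 2 := by
    have h1 : n * (N ^ 2 * (4 * n + 104)) ≤ N ^ 2 * (5 * n ^ 2) := by
      have : 4 * n + 104 ≤ 5 * n := by omega
      calc n * (N ^ 2 * (4 * n + 104)) ≤ n * (N ^ 2 * (5 * n)) :=
            Nat.mul_le_mul_left _ (Nat.mul_le_mul_left _ this)
        _ = N ^ 2 * (5 * n ^ 2) := by ring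
    have h2 : (Ql.card * 10 ^ 11) * n ^ 2 ≤ (5 * N ^ 2) * n ^ 2 := by
      calc (Ql.card * 10 ^ 11) * n ^ 2 = Ql.card * S := by rw [hS]; ring
        _ ≤ n * (N ^ 2 * (4 * n + 104)) := hlarge
        _ ≤ N ^ 2 * (5 * n ^ 2) := h1
        _ = (5 * N ^ 2) * n ^ 2 := by ring
    have h3 : Ql.card * 10 ^ 11 ≤ 5 * N ^ 2 := Nat.le_of_mul_le_mul_right h2 (by positivity)
    have h4 : 5 * (2 * 10 ^ 10 * Ql.card) ≤ 5 * N ^ 2 := by
      calc 5 * (2 * 10 ^ 10 * Ql.card) = Ql.card * 10 ^ 11 := by ring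
        _ ≤ 5 * N ^ 2 := h3
    exact Nat.le_of_mul_le_mul_left h4 (by norm_num)
  -- size of the error terms
  have h729 : (2 * S + 1) ^ 6 ≤ 729 * 10 ^ 66 * n ^ 12 := by
    calc (2 * S + 1) ^ 6 ≤ (3 * S) ^ 6 := Nat.pow_le_pow_left (by omega) 6
      _ = 729 * 10 ^ 66 * n ^ 12 := by rw [hS]; ring
  have h4le6 : (2 * S + 1) ^ 4 ≤ (2 * S + 1) ^ 6 := Nat.pow_le_pow_right (by omega) (by norm_num)
  have h12 : n ^ 12 ≤ n ^ 13 := Nat.pow_le_pow_right hn1' (by norm_num)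
  have h1_13 : 1 ≤ n ^ 13 := Nat.one_le_pow _ _ hn1'
  have hNN : 10 ^ 20 * N ≤ N ^ 2 := by
    calc 10 ^ 20 * N ≤ N * N := Nat.mul_le_mul_right _ (by omega)
      _ = N ^ 2 := by ring
  have hE1 : 10 ^ 18 * (N * (2 * S + 1) ^ 4) ≤ N ^ 2 := by
    have : 10 ^ 18 * (2 * S + 1) ^ 4 ≤ N := by omega
    calc 10 ^ 18 * (N * (2 * S + 1) ^ 4) = N * (10 ^ 18 * (2 * S + 1) ^ 4) := by ring
      _ ≤ N * N := Nat.mul_le_mul_left _ this
      _ = N ^ 2 := by ring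
  have hE0 : 10 ^ 18 * (N * (n + 1) * (2 * S + 1) ^ 6) ≤ N ^ 2 := by
    have h7 : (n + 1) * (2 * S + 1) ^ 6 ≤ (2 * n) * (729 * 10 ^ 66 * n ^ 12) :=
      Nat.mul_le_mul (by omega) h729
    have h8 : (2 * n) * (729 * 10 ^ 66 * n ^ 12) = 1458 * 10 ^ 66 * n ^ 13 := by ring
    have : 10 ^ 18 * ((n + 1) * (2 * S + 1) ^ 6) ≤ N := by omega
    calc 10 ^ 18 * (N * (n + 1) * (2 * S + 1) ^ 6) = N * (10 ^ 18 * ((n + 1) * (2 * S + 1) ^ 6)) := by ring
      _ ≤ N * N := Nat.mul_le_mul_left _ this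
      _ = N ^ 2 := by ring
  have hE2 : 10 ^ 10 * (S ^ 2 * (N + (2 * S + 1) ^ 4)) ≤ 2 * N ^ 2 := by
    have h1 : S ^ 2 ≤ (2 * S + 1) ^ 6 := by
      calc S ^ 2 ≤ (2 * S + 1) ^ 2 := Nat.pow_le_pow_left (by omega) 2
        _ ≤ (2 * S + 1) ^ 6 := Nat.pow_le_pow_right (by omega) (by norm_num)
    have h2 : 10 ^ 10 * (S ^ 2 * N) ≤ N ^ 2 := by
      have : 10 ^ 10 * S ^ 2 ≤ N := by omega
      calc 10 ^ 10 * (S ^ 2 * N) = N * (10 ^ 10 * S ^ 2) := by ring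
        _ ≤ N * N := Nat.mul_le_mul_left _ this
        _ = N ^ 2 := by ring
    have h3 : 10 ^ 10 * (S ^ 2 * (2 * S + 1) ^ 4) ≤ N ^ 2 := by
      have h4 : S ^ 2 * (2 * S + 1) ^ 4 ≤ (2 * S + 1) ^ 6 := by
        calc S ^ 2 * (2 * S + 1) ^ 4 ≤ (2 * S + 1) ^ 2 * (2 * S + 1) ^ 4 :=
              Nat.mul_le_mul_right _ (Nat.pow_le_pow_left (by omega) 2)
          _ = (2 * S + 1) ^ 6 := by ring
      have h7 : N ≤ N ^ 2 := Nat.le_self_pow (by norm_num) N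
      omega
    rw [mul_add, mul_add]
    omega
  have hc2 := two_choose N
  have hne : ∀ A ∈ F, A.Nonempty := by
    intro A hA
    by_contra hc
    rw [not_nonempty_iff_eq_empty] at hc
    subst hc
    obtain ⟨B, hB, hBne⟩ : ∃ B ∈ F, B ≠ ∅ := by
      by_contra hc'
      push Not at hc'
      have : F.card ≤ 1 := card_le_one.2 (fun a ha b hb => by rw [hc' a ha, hc' b hb])
      omega
    obtain ⟨u, hu⟩ := (hint ∅ hA B hB hBne.symm).nonempty
    simp at hu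
  obtain ⟨x, hxN, hx⟩ := small_star N S F hsub hint hne Qs (fun A hA => by
    obtain ⟨h1, h2, h3⟩ := mem_filter.1 hA
    exact ⟨h1, h2, h3⟩) (by omega)
  refine ⟨S, n, x, Qs, Ql, hn2, hxN, hx, ?_, hsplit, hQlc, hE0, hE1, hNN⟩
  intro A hA
  obtain ⟨h1, h2, h3⟩ := mem_filter.1 hA
  exact ⟨h1, h2, hx A h1 h3, h3⟩



open Classical in
theorem main_few_expl (N : ℕ) (hN : 10 ^ 130 ≤ N) (F : Finset (Finset ℤ)) (hsub : ∀ A ∈ F, A ⊆ Icc 1 (N : ℤ))
    (hint : ∀ A ∈ F, ∀ B ∈ F, A ≠ B → IsAP (A ∩ B))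
    (hP : 10 ^ 8 * (F.filter (fun A => IsAP A)).card ≤ N ^ 2) :
    F.card ≤ N.choose 2 + 1 + (N - 1) / 4 := by
  by_contra hlt
  push Not at hlt
  obtain ⟨S, L, x, Qs, Ql, hL, hxN, hx, hQs, hsplit, hQl, hE6, hE4, hNN⟩ :=
    core3 N hN F hsub hint (F.filter (fun A => IsAP A)) (fun A hA h => mem_filter.2 ⟨hA, h⟩)
      (by omega) hlt
  have hstep := choose_two_step N (by omega)
  have hc2 := two_choose N
  have hfar : ∀ B ∈ F, x ∉ B → 3000 * (((Icc 1 (N : ℤ)).erase x) \ B).card ≤ N := by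
    intro B hB hxB
    have h1 := hitting N S Qs (fun B hB => hsub B (hQs B hB).1)
      (fun B hB C hC => hint B (hQs B hB).1 C (hQs C hC).1) (fun B hB => (hQs B hB).2.1)
      (fun B hB => (hQs B hB).2.2.2) hxN (fun B hB => (hQs B hB).2.2.1) B
      (fun C hC => hint C (hQs C hC).1 B hB (by
        rintro rfl
        exact hxB (hQs _ hC).2.2.1)) hxB
    set u := (((Icc 1 (N : ℤ)).erase x) \ B).card with hu
    by_contra hc
    push Not at hc
    have h2 : 10 ^ 9 * u.choose 2 ≤ 12 * N ^ 2 := by omega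
    have h3 := two_choose u
    have h4 : N ^ 2 < 9000000 * u ^ 2 := by
      calc N ^ 2 < (3000 * u) ^ 2 := Nat.pow_lt_pow_left hc (by norm_num)
        _ = 9000000 * u ^ 2 := by ring
    have h5 : 10 * u ≤ u ^ 2 := by
      have : 10 ≤ u := by omega
      calc 10 * u ≤ u * u := Nat.mul_le_mul_right _ this
        _ = u ^ 2 := by ring
    omega
  have := exact_near N (by omega) F hsub hint x hxN hfar
  omega

/-- **all admissible families, `N ≥ 10^130`** -/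
theorem main_full_expl (N : ℕ) (hN : 10 ^ 130 ≤ N) (F : Finset (Finset ℤ)) (hsub : ∀ A ∈ F, A ⊆ Icc 1 (N : ℤ))
    (hint : ∀ A ∈ F, ∀ B ∈ F, A ≠ B → IsAP (A ∩ B)) : F.card ≤ N.choose 2 + 1 + (N - 1) / 4 := by
  classical
  by_contra hlt
  push Not at hlt
  set P := F.filter (fun A => IsAP A) with hPd
  set I := F.filter (fun A => IsIvl A) with hId
  set P' := F.filter (fun A => IsAP A ∧ ¬ IsIvl A) with hP'd
  have hcov : ∀ A ∈ F, IsAP A → A ∈ I ∪ P' := by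
    intro A hA h
    by_cases hi : IsIvl A
    · exact mem_union_left _ (mem_filter.2 ⟨hA, hi⟩)
    · exact mem_union_right _ (mem_filter.2 ⟨hA, h, hi⟩)
  have hPc : P.card ≤ I.card + P'.card := by
    refine le_trans (card_le_card ?_) (card_union_le _ _)
    intro A hA
    obtain ⟨h1, h2⟩ := mem_filter.1 hA
    exact hcov A h1 h2
  have hP'F : ∀ A ∈ P', A ∈ F ∧ IsAP A ∧ ¬ IsIvl A := fun A hA => mem_filter.1 hA
  have hPF : ∀ A ∈ P, A ∈ F ∧ IsAP A := fun A hA => mem_filter.1 hA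
  have hIF : ∀ A ∈ I, A ∈ F ∧ IsIvl A := fun A hA => mem_filter.1 hA
  have hIc := ivl_card N F hsub hint I hIF
  have hH := harm_expl N hN
  set H := ∑ d ∈ Icc 1 N, (N / d + 1) with hHd
  set Pd : ℕ → Finset (Finset ℤ) := fun d => P'.filter (fun A => IsAPd d A) with hPd'
  have hPdF : ∀ d, ∀ A ∈ Pd d, A ∈ F ∧ IsAPd d A := fun d A hA =>
    ⟨(hP'F A (mem_filter.1 hA).1).1, (mem_filter.1 hA).2⟩
  have hPdc : ∀ d, 1 ≤ d → 4 * (Pd d).card ≤ (N / d + 3) ^ 2 := by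
    intro d hd
    exact apd_count N d hd (Pd d) (fun A hA => hsub A (hPdF d A hA).1) (fun A hA => (hPdF d A hA).2)
      (fun A hA B hB hne => (hint A (hPdF d A hA).1 B (hPdF d B hB).1 hne).nonempty)
  have hcovd : ∀ A ∈ P', ∃ d ∈ Icc 2 N, A ∈ Pd d := by
    intro A hA
    obtain ⟨h1, h2, h3⟩ := hP'F A hA
    obtain ⟨d, hd, h4⟩ := isAPd_of h2 h3 (hsub A h1)
    exact ⟨d, hd, mem_filter.2 ⟨hA, h4⟩⟩
  have hP'c : P'.card ≤ ∑ d ∈ Icc 2 N, (Pd d).card := by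
    have : P' ⊆ (Icc 2 N).biUnion Pd := by
      intro A hA
      obtain ⟨d, hd, h⟩ := hcovd A hA
      exact mem_biUnion.2 ⟨d, hd, h⟩
    exact (card_le_card this).trans card_biUnion_le
  have hS2 : 3 * (4 * ∑ d ∈ Icc 2 N, (Pd d).card) ≤ 2 * N ^ 2 + 3 * (9 * H) := by
    refine le_trans ?_ (sq_sum' N 2 (by norm_num))
    apply Nat.mul_le_mul_left
    rw [mul_sum]
    apply sum_le_sum
    intro d hd
    exact hPdc d (le_trans (by norm_num) (mem_Icc.1 hd).1)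
  have hN10 : 10 ^ 20 * N ≤ N ^ 2 := by
    calc 10 ^ 20 * N ≤ N * N := Nat.mul_le_mul_right _ (by omega)
      _ = N ^ 2 := by ring
  have e1 : (N + 3) ^ 2 = N ^ 2 + 6 * N + 9 := by ring
  rw [e1] at hIc
  obtain ⟨S, L, x, Qs, Ql, hL, hxN, hx, hQs, hsplit, hQl, hE6, hE4, hNN⟩ :=
    core3 N hN F hsub hint P (fun A hA h => mem_filter.2 ⟨hA, h⟩) (by omega) hlt
  have hstep := choose_two_step N (by omega)
  have hc2 := two_choose N
  -- the three bounds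
  set T := F.filter (fun A => IsAP A ∧ x ∈ A ∧ ¬ IsIvl A) with hTd
  have h1 := ivl_count N S F hsub hint x hxN Qs hQs I (fun A hA => by
    obtain ⟨k1, a, b, k2, k3⟩ := hIF A hA
    exact ⟨k1, a, b, k2, k3⟩)
  have e2 : 100 * N * (2 * S + 1) ^ 6 ≤ 100 * (N * (L + 1) * (2 * S + 1) ^ 6) := by
    calc 100 * N * (2 * S + 1) ^ 6 = 100 * (N * 1 * (2 * S + 1) ^ 6) := by ring
      _ ≤ 100 * (N * (L + 1) * (2 * S + 1) ^ 6) := by
        apply Nat.mul_le_mul_left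
        apply Nat.mul_le_mul_right
        apply Nat.mul_le_mul_left
        omega
  have h2 := za_count N S L hL F hsub hint x hxN Qs hQs I (fun A hA => by
    obtain ⟨k1, a, b, k2, k3⟩ := hIF A hA
    exact ⟨k1, a, b, k2, k3⟩) T (fun A hA => by
    obtain ⟨k1, k2, k3, k4⟩ := mem_filter.1 hA
    exact ⟨k1, k2, k3, k4⟩)
  have hhit : ∀ A ∈ F, x ∉ A → ∀ s, A.card = s → s + 1 ≤ N ∧
      Qs.card + (N - 1 - s).choose 2 ≤ (N - 1).choose 2 + N * (2 * S + 1) ^ 4 := by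
    intro A hA hxA s hs
    have h1 := hitting N S Qs (fun B hB => hsub B (hQs B hB).1)
      (fun B hB C hC => hint B (hQs B hB).1 C (hQs C hC).1) (fun B hB => (hQs B hB).2.1)
      (fun B hB => (hQs B hB).2.2.2) hxN (fun B hB => (hQs B hB).2.2.1) A
      (fun B hB => hint B (hQs B hB).1 A hA (by
        rintro rfl
        exact hxA (hQs _ hB).2.2.1)) hxA
    have hAX : A ⊆ (Icc 1 (N : ℤ)).erase x := fun u hu =>
      mem_erase.2 ⟨fun h => hxA (h ▸ hu), hsub A hA hu⟩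
    have hXc : ((Icc 1 (N : ℤ)).erase x).card = N - 1 := by
      rw [card_erase_of_mem hxN, Int.card_Icc]; omega
    have h2 : (((Icc 1 (N : ℤ)).erase x) \ A).card = N - 1 - s := by
      rw [card_sdiff_of_subset hAX, hXc, hs]
    have h3 := card_le_card hAX
    rw [hXc, hs] at h3
    rw [h2] at h1
    exact ⟨by omega, h1⟩
  obtain ⟨E, hEd⟩ : ∃ E, E = N ^ 2 / 10 ^ 6 := ⟨_, rfl⟩
  have hE1 : 10 ^ 6 * E ≤ N ^ 2 := by rw [hEd]; exact Nat.mul_div_le _ _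
  have hE2 : N ^ 2 < 10 ^ 6 * E + 10 ^ 6 := by
    have := Nat.lt_mul_div_succ (N ^ 2) (by norm_num : 0 < 10 ^ 6)
    rw [← hEd] at this
    omega
  have hPI : (P.filter (fun A => IsIvl A)).card ≤ I.card := by
    apply card_le_card
    intro A hA
    obtain ⟨k1, k2⟩ := mem_filter.1 hA
    exact mem_filter.2 ⟨(hPF A k1).1, k2⟩
  have hPIT : (P.filter (fun A => IsIvl A ∨ x ∈ A)).card ≤ I.card + T.card := by
    refine le_trans (card_le_card ?_) (card_union_le _ _)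
    intro A hA
    obtain ⟨k1, k2⟩ := mem_filter.1 hA
    obtain ⟨k3, k4⟩ := hPF A k1
    by_cases k5 : IsIvl A
    · exact mem_union_left _ (mem_filter.2 ⟨k3, k5⟩)
    · exact mem_union_right _ (mem_filter.2 ⟨k3, k4, k2.resolve_left k5, k5⟩)
  have hb := case_b N E (by omega) hE1 P (fun A hA => hsub A (hPF A hA).1) (fun A hA => (hPF A hA).2)
    (fun A hA B hB hne => (hint A (hPF A hA).1 B (hPF B hB).1 hne).nonempty) x hxN (by omega) (by omega)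
    (by
      intro A hA hxA
      obtain ⟨k1, k2⟩ := hhit A (hPF A hA).1 hxA A.card rfl
      obtain ⟨u, hu⟩ : ∃ u, u = N - 1 - A.card := ⟨_, rfl⟩
      rw [← hu] at k2
      have hu2 := two_choose u
      have e3 : N - A.card = u + 1 := by omega
      rw [e3]
      have e4 : (u + 1) ^ 2 = u ^ 2 + 2 * u + 1 := by ring
      rw [e4]
      omega)
  have hPle : P.card ≤ I.card + T.card := by
    refine le_trans (card_le_card ?_) (card_union_le _ _)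
    intro A hA
    obtain ⟨k3, k4⟩ := hPF A hA
    by_cases k5 : IsIvl A
    · exact mem_union_left _ (mem_filter.2 ⟨k3, k5⟩)
    · refine mem_union_right _ (mem_filter.2 ⟨k3, k4, ?_, k5⟩)
      by_contra hxA
      exact k5 (hb A hA hxA)
  have := main_few_expl N hN F hsub hint (by
    show 10 ^ 8 * P.card ≤ N ^ 2
    omega)
  omega

end Pool.Agent.H21.AP
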