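import Mathlib

/-!
Real inequalities for the case of a non-interval progression which avoids `x` (helper82).
-/

set_option autoImplicit false

namespace Pool.Agent.H21.AP

theorem max_sq_le (t : ℝ) : (max 0 t) ^ 2 ≤ t ^ 2 := by
  rcases le_total 0 t with h | h
  · rw [max_eq_right h]
  · rw [max_eq_left h]
    nlinarith [sq_nonneg t]

theorem max_sq_le' (t s : ℝ) (hs : 0 ≤ s) (h : t ≤ s) : (max 0 t) ^ 2 ≤ s ^ 2 :=
  pow_le_pow_left₀ (le_max_left _ _) (max_le hs h) 2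

theorem fin_k3 (al xi : ℝ) (h1 : 0.195 ≤ al) (h3 : al ≤ 0.334) (h0 : 0 ≤ xi) (hx : xi ≤ 1)
    (h2 : 0.0263*(1-al)^2 ≤ (max 0 (1/3-al))^2/2 + (max 0 ((1-xi)/2-al))^2/2 +
      (max 0 ((1-xi)/4-al))^2/2 + (max 0 ((1-xi)/5-al))^2/2) :
    0.466*(xi*(1-xi)) + ((max 0 (1/3-al))^2/2 + (max 0 ((1-xi)/2-al))^2/2 +
      (max 0 ((1-xi)/4-al))^2/2 + (max 0 ((1-xi)/5-al))^2/2) ≤ 0.2485*(1-al)^2 := by
  obtain ⟨y, hy⟩ : ∃ y, y = (1 - xi) / 2 - al := ⟨_, rfl⟩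
  have e4 : (1 - xi) / 4 - al = (y - al) / 2 := by rw [hy]; ring
  have e5 : (1 - xi) / 5 - al = (2 * y - 3 * al) / 5 := by rw [hy]; ring
  have ex : xi = 1 - 2 * (y + al) := by rw [hy]; ring
  have q3 := max_sq_le (1 / 3 - al)
  rw [← hy, e4, e5] at h2 ⊢
  rcases le_total y 0 with hy0 | hy0
  · exfalso
    have m1 : max 0 y = 0 := max_eq_left hy0
    have m2 : max 0 ((y - al) / 2) = 0 := max_eq_left (by linarith)
    have m3 : max 0 ((2 * y - 3 * al) / 5) = 0 := max_eq_left (by linarith)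
    rw [m1, m2, m3] at h2
    nlinarith [mul_nonneg (sub_nonneg.2 h1) (sub_nonneg.2 h3)]
  · have hyal : y ≤ 1 / 2 - al := by linarith
    have hal : 0.639 * y ≤ al := by linarith
    have q2 := max_sq_le' y y hy0 le_rfl
    have q4 := max_sq_le' ((y - al) / 2) (0.1805 * y) (by linarith) (by linarith)
    have q5 := max_sq_le' ((2 * y - 3 * al) / 5) (0.0166 * y) (by linarith) (by linarith)
    have hF : 0.466 * (xi * (1 - xi)) + ((1 / 3 - al) ^ 2 / 2 + 0.5165 * y ^ 2) ≤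
        0.2485 * (1 - al) ^ 2 := by
      rw [ex]
      rcases le_total al 0.25 with ha | ha
      · nlinarith [sq_nonneg (2.695 * y + 3.728 * al - 0.932), mul_nonneg (sub_nonneg.2 h1) (sub_nonneg.2 ha)]
      · nlinarith [mul_nonneg hy0 (sub_nonneg.2 ha), sq_nonneg (al - 0.34), sq_nonneg y]
    have hy2 : 0 ≤ y ^ 2 := sq_nonneg y
    nlinarith

theorem fin_none (al xi : ℝ) (h1 : 0.195 ≤ al) (h0 : 0 ≤ xi) (hx : xi ≤ 1)
    (h2 : 0.0263*(1-al)^2 ≤ (max 0 ((1-xi)/2-al))^2/2 + (max 0 ((1-xi)/3-al))^2/2 +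
      (max 0 ((1-xi)/4-al))^2/2 + (max 0 ((1-xi)/5-al))^2/2) (hal1 : al < 1) :
    0.6457*(xi*(1-xi)) + ((max 0 ((1-xi)/2-al))^2/2 + (max 0 ((1-xi)/3-al))^2/2 +
      (max 0 ((1-xi)/4-al))^2/2 + (max 0 ((1-xi)/5-al))^2/2) ≤ 0.2485*(1-al)^2 := by
  obtain ⟨y, hy⟩ : ∃ y, y = (1 - xi) / 2 - al := ⟨_, rfl⟩
  have e3 : (1 - xi) / 3 - al = (2 * y - al) / 3 := by rw [hy]; ring
  have e4 : (1 - xi) / 4 - al = (y - al) / 2 := by rw [hy]; ring
  have e5 : (1 - xi) / 5 - al = (2 * y - 3 * al) / 5 := by rw [hy]; ring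
  have ex : xi = 1 - 2 * (y + al) := by rw [hy]; ring
  rw [← hy, e3, e4, e5] at h2 ⊢
  rcases le_total y 0 with hy0 | hy0
  · have m1 : max 0 y = 0 := max_eq_left hy0
    have m0 : max 0 ((2 * y - al) / 3) = 0 := max_eq_left (by linarith)
    have m2 : max 0 ((y - al) / 2) = 0 := max_eq_left (by linarith)
    have m3 : max 0 ((2 * y - 3 * al) / 5) = 0 := max_eq_left (by linarith)
    rw [m0, m1, m2, m3] at h2
    exfalso
    nlinarith [mul_pos (sub_pos.2 hal1) (sub_pos.2 hal1)]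
  · have hyal : y ≤ 1 / 2 - al := by linarith
    have hal : 0.639 * y ≤ al := by linarith
    have q2 := max_sq_le' y y hy0 le_rfl
    have q3 := max_sq_le' ((2 * y - al) / 3) (0.4537 * y) (by linarith) (by linarith)
    have q4 := max_sq_le' ((y - al) / 2) (0.1805 * y) (by linarith) (by linarith)
    have q5 := max_sq_le' ((2 * y - 3 * al) / 5) (0.0166 * y) (by linarith) (by linarith)
    have hy2 : 0 ≤ y ^ 2 := sq_nonneg y
    have h2' : 0.0263 * (1 - al) ^ 2 ≤ 0.62 * y ^ 2 := by nlinarith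
    have h2'' : 0.205 * (1 - al) ≤ y := by
      by_contra hlt
      push Not at hlt
      nlinarith
    have hF : 0.6457 * (xi * (1 - xi)) + 0.62 * y ^ 2 ≤ 0.2485 * (1 - al) ^ 2 := by
      rw [ex]
      obtain ⟨t, ht⟩ : ∃ t, t = y - 0.205 * (1 - al) := ⟨_, rfl⟩
      have ht0 : 0 ≤ t := by linarith
      have hyt : y = t + 0.205 * (1 - al) := by linarith
      rw [hyt]
      nlinarith [mul_nonneg ht0 (sub_nonneg.2 h1), sq_nonneg t, sq_nonneg (al - 0.2)]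
    nlinarith

theorem fin_k2 (al : ℝ) (h1 : 0.195 ≤ al) (h3 : al ≤ 0.5001) :
    0.0598 + (max 0 (1/2-al))^2/2 + (max 0 (1/4-al))^2/2 ≤ 0.2485*(1-al)^2 := by
  have q2 := max_sq_le (1 / 2 - al)
  rcases le_total al 0.25 with ha | ha
  · have q4 := max_sq_le (1 / 4 - al)
    nlinarith [mul_nonneg (sub_nonneg.2 h1) (sub_nonneg.2 ha)]
  · have q4 : max 0 (1 / 4 - al) = 0 := max_eq_left (by linarith)
    rw [q4]
    nlinarith [mul_nonneg (sub_nonneg.2 ha) (sub_nonneg.2 h3)]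

theorem fin_k4 (al : ℝ) (h1 : 0.195 ≤ al) (h3 : al ≤ 0.2501) :
    0.1365 + (max 0 (1/4-al))^2/2 ≤ 0.2485*(1-al)^2 := by
  have q4 := max_sq_le (1 / 4 - al)
  nlinarith [mul_nonneg (sub_nonneg.2 h1) (sub_nonneg.2 h3)]

theorem fin_k5 (al : ℝ) (h1 : 0.195 ≤ al) (h3 : al ≤ 0.2001) :
    0.1456 + (max 0 (1/5-al))^2/2 ≤ 0.2485*(1-al)^2 := by
  have q4 := max_sq_le (1 / 5 - al)
  nlinarith [mul_nonneg (sub_nonneg.2 h1) (sub_nonneg.2 h3)]

end Pool.Agent.H21.AP
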