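import Pool.Agent.H21.AP.Exact

/-! reflection: the exact bound for a common element in either half -/

set_option autoImplicit false
namespace Pool.Agent.H21.AP
open Finset Pool.Agent.H483S

theorem IsAP.refl' {P : Finset ℤ} (hP : IsAP P) (c : ℤ) : IsAP (P.image (fun y => c - y)) := by
  obtain ⟨a, d, l, hd, hl, rfl⟩ := hP
  refine ⟨c - a - (l - 1 : ℕ) * d, d, l, hd, hl, ?_⟩
  ext w
  simp only [mem_image, mem_range]
  constructor
  · rintro ⟨y, ⟨i, hi, rfl⟩, rfl⟩
    refine ⟨l - 1 - i, by omega, ?_⟩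
    have : ((l - 1 - i : ℕ) : ℤ) = ((l - 1 : ℕ) : ℤ) - i := by omega
    rw [this]; ring
  · rintro ⟨i, hi, rfl⟩
    refine ⟨a + ((l - 1 - i : ℕ) : ℤ) * d, ⟨l - 1 - i, by omega, rfl⟩, ?_⟩
    have : ((l - 1 - i : ℕ) : ℤ) = ((l - 1 : ℕ) : ℤ) - i := by omega
    rw [this]; ring

theorem exact_near (N : ℕ) (hN : 3000 ≤ N) (F : Finset (Finset ℤ)) (hsub : ∀ A ∈ F, A ⊆ Icc 1 (N : ℤ))
    (hint : ∀ A ∈ F, ∀ B ∈ F, A ≠ B → IsAP (A ∩ B)) (x : ℤ) (hxN : x ∈ Icc 1 (N : ℤ))
    (hfar : ∀ B ∈ F, x ∉ B → 3000 * (((Icc 1 (N : ℤ)).erase x) \ B).card ≤ N) :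
    F.card ≤ N.choose 2 + 1 + (N - 1) / 4 := by
  classical
  by_cases hx2 : 2 * x ≤ N + 1
  · exact exact_left N hN F hsub hint x hxN hx2 hfar
  push Not at hx2
  set c : ℤ := N + 1 with hc
  have hinj : Function.Injective (fun y : ℤ => c - y) := fun y z h => by
    have : c - y = c - z := h
    linarith
  have hinj2 : Function.Injective (fun A : Finset ℤ => A.image (fun y => c - y)) :=
    Finset.image_injective hinj
  have hmem : ∀ (A : Finset ℤ) (w : ℤ), w ∈ A.image (fun y => c - y) ↔ c - w ∈ A := by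
    intro A w
    rw [mem_image]
    constructor
    · rintro ⟨y, hy, rfl⟩
      simpa using hy
    · intro h
      exact ⟨c - w, h, by ring⟩
  have hcard : (F.image (fun A => A.image (fun y => c - y))).card = F.card :=
    card_image_of_injective _ hinj2
  rw [← hcard]
  have hx := mem_Icc.1 hxN
  refine exact_left N hN _ ?_ ?_ (c - x) (mem_Icc.2 ⟨by omega, by omega⟩) (by omega) ?_
  · intro A hA w hw
    obtain ⟨B, hB, rfl⟩ := mem_image.1 hA
    have := mem_Icc.1 (hsub B hB ((hmem B w).1 hw))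
    rw [mem_Icc]; constructor <;> omega
  · intro A hA B hB hne
    obtain ⟨A', hA', rfl⟩ := mem_image.1 hA
    obtain ⟨B', hB', rfl⟩ := mem_image.1 hB
    rw [← image_inter _ _ hinj]
    exact IsAP.refl' (hint A' hA' B' hB' (fun h => hne (by rw [h]))) c
  · intro B hB hxB
    obtain ⟨B', hB', rfl⟩ := mem_image.1 hB
    have hxB' : x ∉ B' := by
      intro h
      exact hxB ((hmem B' _).2 (by simpa using h))
    have h1 := hfar B' hB' hxB'
    have h2 : ((Icc 1 (N : ℤ)).erase (c - x) \ B'.image (fun y => c - y)) =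
        ((Icc 1 (N : ℤ)).erase x \ B').image (fun y => c - y) := by
      ext w
      rw [hmem, mem_sdiff, mem_sdiff, mem_erase, mem_erase, mem_Icc, mem_Icc, hmem]
      constructor
      · rintro ⟨⟨h3, h4, h5⟩, h6⟩
        exact ⟨⟨by omega, by omega, by omega⟩, h6⟩
      · rintro ⟨⟨h3, h4, h5⟩, h6⟩
        exact ⟨⟨by omega, by omega, by omega⟩, h6⟩
    rw [h2, card_image_of_injective _ hinj]
    exact h1

end Pool.Agent.H21.AP
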