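import Pool.Agent.H21.AP.Flags
import Pool.Agent.H21.AP.Small
import Pool.Agent.H21.AP.Refl

/-! final assembly -/

set_option autoImplicit false
namespace Pool.Agent.H21.AP
open Finset Pool.Agent.H483S

theorem harm_le (N L : ℕ) (hL : N < 2 ^ L) : ∑ d ∈ Icc 1 N, N / d ≤ N * (L + 1) := by
  rcases Nat.eq_zero_or_pos N with rfl | hN
  · simp
  have h1 : ((∑ d ∈ Icc 1 N, N / d : ℕ) : ℝ) ≤ N * (harmonic N : ℝ) := by
    rw [harmonic_eq_sum_Icc]
    push_cast
    rw [mul_sum]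
    apply sum_le_sum
    intro d hd
    have := @Nat.cast_div_le ℝ _ _ _ N d
    rw [div_eq_mul_inv] at this
    exact this
  have h2 := harmonic_le_one_add_log N
  have h3 : Real.log N ≤ L := by
    have h4 : (N : ℝ) ≤ 2 ^ L := by exact_mod_cast hL.le
    have h5 : Real.log N ≤ Real.log (2 ^ L) := Real.log_le_log (by exact_mod_cast hN) h4
    rw [Real.log_pow] at h5
    have h6 : Real.log 2 ≤ 1 := by
      have := Real.log_two_lt_d9
      linarith
    have h7 : (0 : ℝ) ≤ L := Nat.cast_nonneg L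
    nlinarith
  have h8 : ((∑ d ∈ Icc 1 N, N / d : ℕ) : ℝ) ≤ ((N * (L + 1) : ℕ) : ℝ) := by
    refine h1.trans ?_
    push_cast
    have h9 : (0 : ℝ) ≤ N := Nat.cast_nonneg N
    have : (harmonic N : ℝ) ≤ L + 1 := by linarith
    exact mul_le_mul_of_nonneg_left this h9
  exact_mod_cast h8

/-- the large non-progressions are few -/
theorem large_few (N L S : ℕ) (hL : N < 2 ^ L) (hS : 4 ≤ S) (Q : Finset (Finset ℤ))
    (hsub : ∀ A ∈ Q, A ⊆ Icc 1 (N : ℤ)) (hint : ∀ A ∈ Q, ∀ B ∈ Q, A ≠ B → IsAP (A ∩ B))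
    (hn : ∀ A ∈ Q, ¬ IsAP A) (h1 : ∀ A ∈ Q, S ≤ A.card) :
    Q.card * S ≤ L * (N ^ 2 * (4 * L + 104)) := by
  classical
  have key : ∀ K : ℕ, (Q.filter (fun A => A.card < S * 2 ^ K)).card * S ≤ K * (N ^ 2 * (4 * L + 104)) := by
    intro K
    induction K with
    | zero =>
      have : Q.filter (fun A => A.card < S * 2 ^ 0) = ∅ := by
        apply filter_eq_empty_iff.2
        intro A hA
        have := h1 A hA
        simp; omega
      rw [this]; simp
    | succ K ih =>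
      set G := Q.filter (fun A => S * 2 ^ K ≤ A.card ∧ A.card < S * 2 ^ (K + 1)) with hG
      have hGQ : ∀ A ∈ G, A ∈ Q := fun A hA => (mem_filter.1 hA).1
      have h2 : Q.filter (fun A => A.card < S * 2 ^ (K + 1)) ⊆
          Q.filter (fun A => A.card < S * 2 ^ K) ∪ G := by
        intro A hA
        obtain ⟨hA1, hA2⟩ := mem_filter.1 hA
        by_cases h : A.card < S * 2 ^ K
        · exact mem_union_left _ (mem_filter.2 ⟨hA1, h⟩)
        · exact mem_union_right _ (mem_filter.2 ⟨hA1, by omega, hA2⟩)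
      have h3 := (card_le_card h2).trans (card_union_le _ _)
      have h4 : 4 ≤ S * 2 ^ K := le_trans hS (Nat.le_mul_of_pos_right _ (by positivity))
      have h5 := flags N (S * 2 ^ K) h4 G (fun A hA => hsub A (hGQ A hA))
        (fun A hA B hB => hint A (hGQ A hA) B (hGQ B hB)) (fun A hA => hn A (hGQ A hA))
        (fun A hA => (mem_filter.1 hA).2.1) (fun A hA => by
          have := (mem_filter.1 hA).2.2
          rw [pow_succ] at this
          linarith)
      have h6 := harm_le N L hL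
      have h7 : G.card * S ≤ N ^ 2 * (4 * L + 104) := by
        have h8 : G.card * S ≤ G.card * (S * 2 ^ K) :=
          Nat.mul_le_mul_left _ (Nat.le_mul_of_pos_right _ (by positivity))
        have h9 : 4 * N * (∑ d ∈ Icc 1 N, N / d) ≤ 4 * N * (N * (L + 1)) := Nat.mul_le_mul_left _ h6
        nlinarith
      calc (Q.filter (fun A => A.card < S * 2 ^ (K + 1))).card * S
          ≤ ((Q.filter (fun A => A.card < S * 2 ^ K)).card + G.card) * S := Nat.mul_le_mul_right _ h3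
        _ = (Q.filter (fun A => A.card < S * 2 ^ K)).card * S + G.card * S := by ring
        _ ≤ K * (N ^ 2 * (4 * L + 104)) + N ^ 2 * (4 * L + 104) := Nat.add_le_add ih h7
        _ = (K + 1) * (N ^ 2 * (4 * L + 104)) := by ring
  have h2 := key L
  have h3 : Q.filter (fun A => A.card < S * 2 ^ L) = Q := by
    apply filter_true_of_mem
    intro A hA
    have h4 := card_le_card (hsub A hA)
    rw [Int.card_Icc] at h4
    have h5 : A.card ≤ N := by omega
    calc A.card ≤ N := h5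
      _ < 2 ^ L := hL
      _ ≤ S * 2 ^ L := Nat.le_mul_of_pos_left _ (by omega)
  rw [h3] at h2
  exact h2

/-- the parameters -/
theorem params : ∃ n0 : ℕ, ∀ n : ℕ, n0 ≤ n → 10 ^ 12 * n ^ 18 ≤ 2 ^ (n - 1) ∧ 10 ^ 12 ≤ n := by
  have h := tendsto_pow_const_div_const_pow_of_one_lt 18 (r := (2 : ℝ)) (by norm_num)
  have h1 : ∀ᶠ n : ℕ in Filter.atTop, (n : ℝ) ^ 18 / 2 ^ n < 1 / (2 * 10 ^ 12) :=
    h.eventually (gt_mem_nhds (by positivity))
  obtain ⟨n1, hn1⟩ := Filter.eventually_atTop.1 h1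
  refine ⟨max n1 (10 ^ 12), fun n hn => ⟨?_, le_trans (le_max_right _ _) hn⟩⟩
  have h2 := hn1 n (le_trans (le_max_left _ _) hn)
  have hn' : 1 ≤ n := le_trans (by norm_num) (le_trans (le_max_right _ _) hn)
  have h3 : (2 : ℝ) ^ n = 2 * 2 ^ (n - 1) := by
    rw [← pow_succ']; congr 1; omega
  rw [div_lt_div_iff₀ (by positivity) (by positivity)] at h2
  have h4 : (10 : ℝ) ^ 12 * (n : ℝ) ^ 18 ≤ 2 ^ (n - 1) := by
    rw [h3] at h2
    linarith
  exact_mod_cast h4

open Classical in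
theorem main_few : ∃ N0 : ℕ, ∀ N : ℕ, N0 ≤ N → ∀ F : Finset (Finset ℤ), (∀ A ∈ F, A ⊆ Icc 1 (N : ℤ)) →
    (∀ A ∈ F, ∀ B ∈ F, A ≠ B → IsAP (A ∩ B)) → 10 ^ 8 * (F.filter (fun A => IsAP A)).card ≤ N ^ 2 →
    F.card ≤ N.choose 2 + 1 + (N - 1) / 4 := by
  obtain ⟨n0, hn0⟩ := params
  refine ⟨2 ^ n0, fun N hN F hsub hint hP => ?_⟩
  have hNpos : 0 < N := lt_of_lt_of_le (by positivity) hN
  obtain ⟨n, hn, hn1, hn2⟩ : ∃ n : ℕ, n0 ≤ n ∧ 2 ^ (n - 1) ≤ N ∧ N < 2 ^ n := by
    refine ⟨Nat.log 2 N + 1, ?_, ?_, ?_⟩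
    · have := Nat.le_log_of_pow_le (by norm_num : 1 < 2) hN
      omega
    · simpa using Nat.pow_log_le_self 2 hNpos.ne'
    · exact Nat.lt_pow_succ_log_self (by norm_num) N
  obtain ⟨hp1, hp2⟩ := hn0 n hn
  have hNn : 10 ^ 12 * n ^ 18 ≤ N := hp1.trans hn1
  by_contra hlt
  push Not at hlt
  set S := n ^ 3 with hS
  set P := F.filter (fun A => IsAP A) with hPdef
  set Ql := F.filter (fun A => ¬ IsAP A ∧ S ≤ A.card) with hQl
  set Qs := F.filter (fun A => ¬ IsAP A ∧ A.card ≤ S) with hQs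
  have hsplit : F.card ≤ P.card + Ql.card + Qs.card := by
    have h1 : F ⊆ (P ∪ Ql) ∪ Qs := by
      intro A hA
      by_cases h : IsAP A
      · exact mem_union_left _ (mem_union_left _ (mem_filter.2 ⟨hA, h⟩))
      · rcases le_total S A.card with h2 | h2
        · exact mem_union_left _ (mem_union_right _ (mem_filter.2 ⟨hA, h, h2⟩))
        · exact mem_union_right _ (mem_filter.2 ⟨hA, h, h2⟩)
    exact (card_le_card h1).trans ((card_union_le _ _).trans (Nat.add_le_add_right (card_union_le _ _) _))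
  have hn1' : 1 ≤ n := le_trans (by norm_num) hp2
  have hS4 : 4 ≤ S := by
    rw [hS]
    calc 4 ≤ 10 ^ 12 := by norm_num
      _ ≤ n := hp2
      _ ≤ n ^ 3 := Nat.le_self_pow (by norm_num) n
  have hlarge := large_few N n S hn2 hS4 Ql (fun A hA => hsub A (mem_filter.1 hA).1)
    (fun A hA B hB => hint A (mem_filter.1 hA).1 B (mem_filter.1 hB).1)
    (fun A hA => (mem_filter.1 hA).2.1) (fun A hA => (mem_filter.1 hA).2.2)
  have hQlc : 10 ^ 9 * Ql.card ≤ N ^ 2 := by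
    have h1 : n * (N ^ 2 * (4 * n + 104)) ≤ N ^ 2 * (5 * n ^ 2) := by
      have : 4 * n + 104 ≤ 5 * n := by omega
      calc n * (N ^ 2 * (4 * n + 104)) ≤ n * (N ^ 2 * (5 * n)) :=
            Nat.mul_le_mul_left _ (Nat.mul_le_mul_left _ this)
        _ = N ^ 2 * (5 * n ^ 2) := by ring
    have h2 : (Ql.card * n) * n ^ 2 ≤ (5 * N ^ 2) * n ^ 2 := by
      calc (Ql.card * n) * n ^ 2 = Ql.card * S := by rw [hS]; ring
        _ ≤ n * (N ^ 2 * (4 * n + 104)) := hlarge
        _ ≤ N ^ 2 * (5 * n ^ 2) := h1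
        _ = (5 * N ^ 2) * n ^ 2 := by ring
    have h3 : Ql.card * n ≤ 5 * N ^ 2 := Nat.le_of_mul_le_mul_right h2 (by positivity)
    have h4 : Ql.card * 10 ^ 12 ≤ Ql.card * n := Nat.mul_le_mul_left _ hp2
    omega
  -- size of the error terms
  have h81 : (2 * S + 1) ^ 4 ≤ 81 * n ^ 12 := by
    calc (2 * S + 1) ^ 4 ≤ (3 * S) ^ 4 := Nat.pow_le_pow_left (by omega) 4
      _ = 81 * n ^ 12 := by rw [hS]; ring
  have h12 : n ^ 12 ≤ n ^ 18 := Nat.pow_le_pow_right hn1' (by norm_num)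
  have h6 : n ^ 6 ≤ n ^ 18 := Nat.pow_le_pow_right hn1' (by norm_num)
  have hN12 : 10 ^ 12 ≤ N := by
    have : 1 ≤ n ^ 18 := Nat.one_le_pow _ _ hn1'
    omega
  have hNN : 10 ^ 12 * N ≤ N ^ 2 := by
    calc 10 ^ 12 * N ≤ N * N := Nat.mul_le_mul_right _ hN12
      _ = N ^ 2 := by ring
  have hE1 : 10 ^ 10 * (N * (2 * S + 1) ^ 4) ≤ N ^ 2 := by
    have : 10 ^ 10 * (2 * S + 1) ^ 4 ≤ N := by omega
    calc 10 ^ 10 * (N * (2 * S + 1) ^ 4) = N * (10 ^ 10 * (2 * S + 1) ^ 4) := by ring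
      _ ≤ N * N := Nat.mul_le_mul_left _ this
      _ = N ^ 2 := by ring
  have hE2 : 10 ^ 10 * (S ^ 2 * (N + (2 * S + 1) ^ 4)) ≤ 2 * N ^ 2 := by
    have h1 : S ^ 2 = n ^ 6 := by rw [hS]; ring
    have h2 : 10 ^ 10 * (n ^ 6 * N) ≤ N ^ 2 := by
      have : 10 ^ 10 * n ^ 6 ≤ N := by omega
      calc 10 ^ 10 * (n ^ 6 * N) = N * (10 ^ 10 * n ^ 6) := by ring
        _ ≤ N * N := Nat.mul_le_mul_left _ this
        _ = N ^ 2 := by ring
    have h3 : 10 ^ 10 * (n ^ 6 * (2 * S + 1) ^ 4) ≤ N ^ 2 := by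
      have h4 : n ^ 6 * (2 * S + 1) ^ 4 ≤ n ^ 6 * (81 * n ^ 12) := Nat.mul_le_mul_left _ h81
      have h5 : n ^ 6 * (81 * n ^ 12) = 81 * n ^ 18 := by ring
      have h7 : N ≤ N ^ 2 := Nat.le_self_pow (by norm_num) N
      omega
    rw [h1, mul_add, mul_add]
    omega
  have hc2 : 2 * N.choose 2 + N = N ^ 2 := by
    have h1 := Nat.triangle_succ (N - 1)
    rw [Nat.choose_two_right]
    have h2 : 2 ∣ N * (N - 1) := (Nat.even_mul_pred_self N).two_dvd
    have h3 : 2 * (N * (N - 1) / 2) = N * (N - 1) := Nat.mul_div_cancel' h2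
    rw [h3]
    obtain ⟨m, rfl⟩ : ∃ m, N = m + 1 := ⟨N - 1, by omega⟩
    simp only [Nat.add_sub_cancel]
    ring
  have hstep := choose_two_step N hNpos
  -- a common element of the small members
  have hne : ∀ A ∈ F, A.Nonempty := by
    intro A hA
    by_contra hc
    rw [not_nonempty_iff_eq_empty] at hc
    subst hc
    obtain ⟨B, hB, hBne⟩ : ∃ B ∈ F, B ≠ ∅ := by
      by_contra hc'
      push Not at hc'
      have : F.card ≤ 1 := card_le_one.2 (fun a ha b hb => by rw [hc' a ha, hc' b hb])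
      omega
    obtain ⟨u, hu⟩ := (hint ∅ hA B hB hBne.symm).nonempty
    simp at hu
  obtain ⟨x, hxN, hx⟩ := small_star N S F hsub hint hne Qs (fun A hA => by
    obtain ⟨h1, h2, h3⟩ := mem_filter.1 hA
    exact ⟨h1, h2, h3⟩) (by omega)
  have hfar : ∀ B ∈ F, x ∉ B → 3000 * (((Icc 1 (N : ℤ)).erase x) \ B).card ≤ N := by
    intro B hB hxB
    have h1 := hitting N S Qs (fun A hA => hsub A (mem_filter.1 hA).1)
      (fun A hA B hB => hint A (mem_filter.1 hA).1 B (mem_filter.1 hB).1)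
      (fun A hA => (mem_filter.1 hA).2.1) (fun A hA => (mem_filter.1 hA).2.2) hxN
      (fun A hA => hx A (mem_filter.1 hA).1 (mem_filter.1 hA).2.2) B
      (fun A hA => hint A (mem_filter.1 hA).1 B hB (by
        rintro rfl
        exact hxB (hx _ hB (mem_filter.1 hA).2.2))) hxB
    set u := (((Icc 1 (N : ℤ)).erase x) \ B).card with hu
    by_contra hc
    push Not at hc
    have h2 : 10 ^ 9 * u.choose 2 ≤ 12 * N ^ 2 := by omega
    have h3 : 2 * u.choose 2 + u = u ^ 2 := by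
      rw [Nat.choose_two_right]
      have h2 : 2 ∣ u * (u - 1) := (Nat.even_mul_pred_self u).two_dvd
      have h3 : 2 * (u * (u - 1) / 2) = u * (u - 1) := Nat.mul_div_cancel' h2
      rw [h3]
      obtain ⟨m, hm⟩ : ∃ m, u = m + 1 := ⟨u - 1, by omega⟩
      rw [hm]
      simp only [Nat.add_sub_cancel]
      ring
    have h4 : N ^ 2 < 9000000 * u ^ 2 := by
      calc N ^ 2 < (3000 * u) ^ 2 := Nat.pow_lt_pow_left hc (by norm_num)
        _ = 9000000 * u ^ 2 := by ring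
    have h5 : 10 * u ≤ u ^ 2 := by
      have : 10 ≤ u := by omega
      calc 10 * u ≤ u * u := Nat.mul_le_mul_right _ this
        _ = u ^ 2 := by ring
    omega
  have := exact_near N (by omega) F hsub hint x hxN hfar
  omega

end Pool.Agent.H21.AP
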