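import Pool.Agent.H21.AP.Base

/-!
The number of the members of size about `s` that are not progressions (helper82, after the paper proof
of helper21).
-/

set_option autoImplicit false

namespace Pool.Agent.H21.AP

open Finset Pool.Agent.H483S

open scoped Classical

/-- `p`, `p + d` are neighbours in `A` -/
def Flag (A : Finset ℤ) (p : ℤ) (d : ℕ) : Prop :=
  1 ≤ d ∧ p ∈ A ∧ p + d ∈ A ∧ ∀ w ∈ A, ¬ (p < w ∧ w < p + d)

theorem own_of_not_dvd {A : Finset ℤ} {p z : ℤ} {d : ℕ} (hf : Flag A p d)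
    (hz : ¬ (d : ℤ) ∣ z - p) : Own A p (p + d) z := by
  obtain ⟨h1, h2, h3, h4⟩ := hf
  unfold Own
  rw [add_sub_cancel_left]
  obtain ⟨g, hg⟩ : ∃ g : ℕ, g = Int.gcd (d : ℤ) (z - p) := ⟨_, rfl⟩
  rw [← hg]
  have hgd : (g : ℤ) ∣ (d : ℤ) := by rw [hg]; exact Int.gcd_dvd_left ..
  have hgz : (g : ℤ) ∣ z - p := by rw [hg]; exact Int.gcd_dvd_right ..
  have hd : (0 : ℤ) < d := by exact_mod_cast h1
  have hg0 : (0 : ℤ) < g := by
    rcases Nat.eq_zero_or_pos g with h | h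
    · rw [h] at hgd
      have := zero_dvd_iff.1 (by exact_mod_cast hgd : (0 : ℤ) ∣ (d : ℤ))
      omega
    · exact_mod_cast h
  have hle : (g : ℤ) ≤ d := Int.le_of_dvd hd hgd
  have hne : (g : ℤ) ≠ d := by
    intro h
    rw [h] at hgz
    exact hz hgz
  have hlt : (g : ℤ) < d := lt_of_le_of_ne hle hne
  refine ⟨p + g, ?_, ?_, ?_, ?_⟩
  · intro h
    exact h4 _ h ⟨by linarith, by linarith⟩
  · rw [add_sub_cancel_left]
  · exact (min_le_left _ _).trans (by linarith)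
  · exact le_trans (by linarith) ((le_max_left (p + (d : ℤ)) z).trans (le_max_right _ _))

theorem exists_own_flag {A : Finset ℤ} {p : ℤ} {d : ℕ} (hf : Flag A p d) (hn : ¬ IsAP A) :
    ∃ z ∈ A, Own A p (p + d) z := by
  by_contra hcon
  push Not at hcon
  apply hn
  have hdv : ∀ z ∈ A, (d : ℤ) ∣ z - p := by
    intro z hz
    by_contra h
    exact hcon z hz (own_of_not_dvd hf h)
  obtain ⟨h1, h2, h3, h4⟩ := hf
  have hd : (0 : ℤ) < d := by exact_mod_cast h1
  have hmem : ∀ z ∈ A, ∀ w : ℤ, (d : ℤ) ∣ w - p → min p (min (p + d) z) ≤ w →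
      w ≤ max p (max (p + d) z) → w ∈ A := by
    intro z hz w hw hw1 hw2
    by_contra h
    refine hcon z hz ⟨w, h, ?_, hw1, hw2⟩
    rw [add_sub_cancel_left]
    exact (Int.gcd_dvd_left ..).trans hw
  have hne : A.Nonempty := ⟨p, h2⟩
  obtain ⟨m, hm⟩ : ∃ m, m = A.min' hne := ⟨_, rfl⟩
  obtain ⟨M, hM⟩ : ∃ M, M = A.max' hne := ⟨_, rfl⟩
  have hmA : m ∈ A := by rw [hm]; exact A.min'_mem hne
  have hMA : M ∈ A := by rw [hM]; exact A.max'_mem hne
  have hml : ∀ z ∈ A, m ≤ z := fun z hz => by rw [hm]; exact A.min'_le z hz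
  have hMl : ∀ z ∈ A, z ≤ M := fun z hz => by rw [hM]; exact A.le_max' z hz
  have hall : ∀ w : ℤ, (d : ℤ) ∣ w - p → m ≤ w → w ≤ M → w ∈ A := by
    intro w hw hw1 hw2
    rcases le_or_gt p w with h | h
    · refine hmem M hMA w hw ((min_le_left _ _).trans h) ?_
      exact hw2.trans ((le_max_right (p + (d : ℤ)) M).trans (le_max_right _ _))
    · refine hmem m hmA w hw ?_ (h.le.trans (le_max_left _ _))
      exact ((min_le_right p _).trans (min_le_right _ _)).trans hw1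
  refine ⟨m, d, ((M - m) / d).toNat + 1, by exact_mod_cast h1, Nat.le_add_left 1 _, ?_⟩
  have hq0 : 0 ≤ (M - m) / d := Int.ediv_nonneg (by linarith [hml M hMA]) hd.le
  ext z
  rw [mem_image]
  constructor
  · intro hz
    obtain ⟨c, hc⟩ : (d : ℤ) ∣ z - m := by
      have := dvd_sub (hdv z hz) (hdv m hmA)
      rwa [sub_sub_sub_cancel_right] at this
    have hc0 : 0 ≤ c := by
      by_contra h
      have h5 := hml z hz
      have : (d : ℤ) * c < 0 := mul_neg_of_pos_of_neg hd (not_le.1 h)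
      linarith
    have hc1 : c ≤ (M - m) / d := by
      rw [Int.le_ediv_iff_mul_le hd]
      have := hMl z hz
      rw [mul_comm]
      linarith
    refine ⟨c.toNat, ?_, ?_⟩
    · rw [mem_range]
      omega
    · rw [Int.toNat_of_nonneg hc0]
      linarith [mul_comm c (d : ℤ)]
  · rintro ⟨i, hi, rfl⟩
    rw [mem_range] at hi
    have hi' : (i : ℤ) ≤ (M - m) / d := by omega
    rw [Int.le_ediv_iff_mul_le hd] at hi'
    refine hall _ ?_ ?_ ?_
    · have e : m + (i : ℤ) * d - p = (m - p) + i * d := by ring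
      rw [e]
      exact dvd_add (hdv m hmA) (Dvd.intro_left _ rfl)
    · have : 0 ≤ (i : ℤ) * d := by positivity
      linarith
    · linarith

section

variable {N s : ℕ} {G : Finset (Finset ℤ)}

/-- the members with the flag -/
noncomputable def GF (G : Finset (Finset ℤ)) (p : ℤ) (d : ℕ) : Finset (Finset ℤ) :=
  G.filter fun A => Flag A p d

theorem mem_GF {p : ℤ} {d : ℕ} {A : Finset ℤ} : A ∈ GF G p d ↔ A ∈ G ∧ Flag A p d := mem_filter

theorem excl (hint : ∀ A ∈ G, ∀ B ∈ G, A ≠ B → IsAP (A ∩ B)) {p z : ℤ} {d : ℕ} {A B : Finset ℤ}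
    (hA : A ∈ GF G p d) (hB : B ∈ GF G p d) (hz : z ∈ A) (hz' : z ∈ B)
    (ho : Own A p (p + d) z) : A = B := by
  rw [mem_GF] at hA hB
  by_contra h
  exact own_unique (hint A hA.1 B hB.1 h) hA.2.2.1 hA.2.2.2.1 hz hB.2.2.1 hB.2.2.2.1 hz' ho

/-- at most `|B|` members have an own element in `B` -/
theorem touch (hint : ∀ A ∈ G, ∀ B ∈ G, A ≠ B → IsAP (A ∩ B)) (p : ℤ) (d : ℕ) (B : Finset ℤ) :
    ((GF G p d).filter fun A => ∃ z ∈ B, z ∈ A ∧ Own A p (p + d) z).card ≤ B.card := by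
  have hex : ∀ A ∈ (GF G p d).filter (fun A => ∃ z ∈ B, z ∈ A ∧ Own A p (p + d) z),
      ∃ z ∈ B, z ∈ A ∧ Own A p (p + d) z := fun A hA => (mem_filter.1 hA).2
  choose! f hf using hex
  refine card_le_card_of_injOn f (fun A hA => (hf A hA).1) ?_
  intro A hA A' hA' h
  have h1 := hf A hA
  have h2 := hf A' hA'
  refine excl hint (mem_filter.1 hA).1 (mem_filter.1 hA').1 h1.2.1 ?_ h1.2.2
  rw [h]
  exact h2.2.1

theorem n_le (hsub : ∀ A ∈ G, A ⊆ Icc 1 (N : ℤ))
    (hint : ∀ A ∈ G, ∀ B ∈ G, A ≠ B → IsAP (A ∩ B)) (hn : ∀ A ∈ G, ¬ IsAP A) (p : ℤ) (d : ℕ) :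
    (GF G p d).card ≤ N := by
  have h := touch hint p d (Icc 1 (N : ℤ))
  rw [Int.card_Icc, add_sub_cancel_right, Int.toNat_natCast] at h
  refine le_trans (card_le_card fun A hA => ?_) h
  rw [mem_filter]
  refine ⟨hA, ?_⟩
  rw [mem_GF] at hA
  obtain ⟨z, hz, ho⟩ := exists_own_flag hA.2 (hn A hA.1)
  exact ⟨z, hsub A hA.1 hz, hz, ho⟩

theorem card_prod_filter {α β : Type} (S : Finset α) (T : Finset β) (r : α × β → Prop) [DecidablePred r] {b : ℕ}
    (h : ∀ y ∈ T, (S.filter fun x => r (x, y)).card ≤ b) :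
    ((S ×ˢ T).filter r).card ≤ T.card * b := by
  rw [card_filter, sum_product_right]
  rw [← smul_eq_mul, ← sum_const]
  refine sum_le_sum fun y hy => ?_
  rw [← card_filter]
  exact h y hy

theorem card_prod_filter' {α β : Type} (S : Finset α) (T : Finset β) (r : α × β → Prop) [DecidablePred r] {b : ℕ}
    (h : ∀ x ∈ S, (T.filter fun y => r (x, y)).card ≤ b) :
    ((S ×ˢ T).filter r).card ≤ S.card * b := by
  rw [card_filter, sum_product]
  rw [← smul_eq_mul, ← sum_const]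
  refine sum_le_sum fun y hy => ?_
  rw [← card_filter]
  exact h y hy

theorem two_classes (hint : ∀ A ∈ G, ∀ B ∈ G, A ≠ B → IsAP (A ∩ B))
    (h2 : ∀ A ∈ G, A.card < 2 * s) {p p' : ℤ} {d : ℕ} (hp : ¬ (d : ℤ) ∣ p - p') :
    (GF G p d).card * (GF G p' d).card ≤
      (GF G p d).card + (GF G p' d).card * (2 * s) + (GF G p d).card * (2 * s) := by
  rw [← card_product]
  have hcov : GF G p d ×ˢ GF G p' d ⊆
      ((GF G p d ×ˢ GF G p' d).filter fun x => x.1 = x.2) ∪
      ((GF G p d ×ˢ GF G p' d).filter fun x => ∃ z ∈ x.2, z ∈ x.1 ∧ Own x.1 p (p + d) z) ∪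
      ((GF G p d ×ˢ GF G p' d).filter fun x => ∃ z ∈ x.1, z ∈ x.2 ∧ Own x.2 p' (p' + d) z) := by
    rintro ⟨A, B⟩ hx
    have hx' := mem_product.1 hx
    obtain ⟨hA, hB⟩ := hx'
    rw [mem_GF] at hA hB
    rw [mem_union, mem_union, mem_filter, mem_filter, mem_filter]
    by_cases hAB : A = B
    · exact Or.inl (Or.inl ⟨hx, hAB⟩)
    · obtain ⟨v, hv⟩ := (hint A hA.1 B hB.1 hAB).nonempty
      obtain ⟨hvA, hvB⟩ := mem_inter.1 hv
      by_cases h : (d : ℤ) ∣ v - p
      · refine Or.inr ⟨hx, v, hvA, hvB, own_of_not_dvd hB.2 ?_⟩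
        intro h'
        apply hp
        have := dvd_sub h' h
        rwa [sub_sub_sub_cancel_left] at this
      · exact Or.inl (Or.inr ⟨hx, v, hvB, hvA, own_of_not_dvd hA.2 h⟩)
  refine (card_le_card hcov).trans ((card_union_le _ _).trans ?_)
  refine add_le_add ((card_union_le _ _).trans (add_le_add ?_ ?_)) ?_
  · refine card_le_card_of_injOn Prod.fst (fun x hx => ?_) ?_
    · exact (mem_product.1 (mem_filter.1 hx).1).1
    · intro x hx y hy h
      have e1 := (mem_filter.1 hx).2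
      have e2 := (mem_filter.1 hy).2
      exact Prod.ext h (by rw [← e1, ← e2, h])
  · refine card_prod_filter _ _ _ fun B hB => ?_
    exact (touch hint p d B).trans (h2 B (mem_GF.1 hB).1).le
  · refine card_prod_filter' _ _ _ fun A hA => ?_
    exact (touch hint p' d A).trans (h2 A (mem_GF.1 hA).1).le

theorem res_count (N : ℕ) (p : ℤ) {d : ℕ} (hd : 1 ≤ d) :
    ((Icc 1 (N : ℤ)).filter fun q => (d : ℤ) ∣ q - p).card ≤ N / d + 1 := by
  have hd' : (0 : ℤ) < d := by exact_mod_cast hd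
  obtain ⟨K, hK⟩ : ∃ K, K = N / d := ⟨_, rfl⟩
  rw [← hK]
  have h := card_le_card_of_injOn (s := (Icc 1 (N : ℤ)).filter fun q => (d : ℤ) ∣ q - p)
    (t := range (K + 1)) (fun q => ((q - 1) / d).toNat) (by
      intro q hq
      have hq1 := mem_Icc.1 (mem_filter.1 hq).1
      show ((q - 1) / (d : ℤ)).toNat ∈ range (K + 1)
      rw [mem_range]
      have h1 : (q - 1) / (d : ℤ) ≤ (K : ℤ) := by
        rw [hK, Int.natCast_div]
        exact Int.ediv_le_ediv hd' (by linarith)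
      omega) (by
      intro q hq q' hq' h
      have hq1 := mem_Icc.1 (mem_filter.1 hq).1
      have hq1' := mem_Icc.1 (mem_filter.1 hq').1
      have h0 : 0 ≤ (q - 1) / (d : ℤ) := Int.ediv_nonneg (by linarith) hd'.le
      have h0' : 0 ≤ (q' - 1) / (d : ℤ) := Int.ediv_nonneg (by linarith) hd'.le
      have h1 : (q - 1) / (d : ℤ) = (q' - 1) / (d : ℤ) := by
        have h : ((q - 1) / (d : ℤ)).toNat = ((q' - 1) / (d : ℤ)).toNat := h
        omega
      obtain ⟨c, hc⟩ : (d : ℤ) ∣ q - q' := by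
        have := dvd_sub (mem_filter.1 hq).2 (mem_filter.1 hq').2
        rwa [sub_sub_sub_cancel_right] at this
      have e1 := Int.emod_add_mul_ediv (q - 1) d
      have e2 := Int.emod_add_mul_ediv (q' - 1) d
      have e3 : (q - 1) % (d : ℤ) = (q' - 1) % (d : ℤ) := by
        have : q - 1 = (q' - 1) + d * c := by linarith
        rw [this, Int.add_mul_emod_self_left]
      rw [h1, e3] at e1
      linarith)
  rwa [card_range] at h

theorem sum_flags (hsub : ∀ A ∈ G, A ⊆ Icc 1 (N : ℤ))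
    (hint : ∀ A ∈ G, ∀ B ∈ G, A ≠ B → IsAP (A ∩ B)) (hn : ∀ A ∈ G, ¬ IsAP A)
    (h2 : ∀ A ∈ G, A.card < 2 * s) {d : ℕ} (hd : 1 ≤ d) :
    ∑ p ∈ Icc 1 (N : ℤ), (GF G p d).card ≤ (N / d + 1) * N + N * (4 * s + 1) := by
  rcases (Icc 1 (N : ℤ)).eq_empty_or_nonempty with h0 | h0
  · rw [h0, sum_empty]
    exact Nat.zero_le _
  obtain ⟨q, hq, hmax⟩ := exists_max_image (Icc 1 (N : ℤ)) (fun p => (GF G p d).card) h0
  rw [← sum_filter_add_sum_filter_not (Icc 1 (N : ℤ)) fun p => (d : ℤ) ∣ p - q]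
  refine add_le_add ?_ ?_
  · refine (sum_le_card_nsmul _ _ N fun p _ => n_le hsub hint hn p d).trans ?_
    rw [smul_eq_mul]
    exact Nat.mul_le_mul_right _ (res_count N q hd)
  · refine (sum_le_card_nsmul _ _ (4 * s + 1) fun p hp => ?_).trans ?_
    · obtain ⟨hp1, hp2⟩ := mem_filter.1 hp
      have h3 := two_classes hint h2 hp2
      have h4 := hmax p hp1
      have h4' : (GF G p d).card ≤ (GF G q d).card := h4
      rcases Nat.eq_zero_or_pos (GF G q d).card with h5 | h5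
      · omega
      · by_contra h6
        rw [not_le] at h6
        have h7 : (4 * s + 1 + 1) * (GF G q d).card ≤ (GF G p d).card * (GF G q d).card :=
          Nat.mul_le_mul_right _ h6
        have h8 : (GF G p d).card * (2 * s) ≤ (GF G q d).card * (2 * s) :=
          Nat.mul_le_mul_right _ h4'
        nlinarith
    · rw [smul_eq_mul]
      refine Nat.mul_le_mul_right _ ?_
      refine (card_filter_le _ _).trans ?_
      rw [Int.card_Icc, add_sub_cancel_right, Int.toNat_natCast]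

theorem exists_flag {A : Finset ℤ} {p q : ℤ} (hp : p ∈ A) (hq : q ∈ A) (h : p < q) :
    ∃ d : ℕ, Flag A p d := by
  have hex : ∃ n : ℕ, 1 ≤ n ∧ p + n ∈ A := by
    refine ⟨(q - p).toNat, by omega, ?_⟩
    rw [Int.toNat_of_nonneg (by linarith)]
    rw [add_sub_cancel]
    exact hq
  refine ⟨Nat.find hex, (Nat.find_spec hex).1, hp, (Nat.find_spec hex).2, ?_⟩
  rintro w hw ⟨h1, h2⟩
  have h3 : (w - p).toNat < Nat.find hex := by omega
  refine Nat.find_min hex h3 ⟨by omega, ?_⟩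
  rw [Int.toNat_of_nonneg (by linarith), add_sub_cancel]
  exact hw

/-- the flags with small difference -/
noncomputable def SF (N D : ℕ) (A : Finset ℤ) : Finset (ℤ × ℕ) :=
  ((Icc 1 (N : ℤ)) ×ˢ (Icc 1 D)).filter fun x => Flag A x.1 x.2

theorem many_small {A : Finset ℤ} (hA : A ⊆ Icc 1 (N : ℤ)) (hs : 2 ≤ s) (h1 : s ≤ A.card) :
    s ≤ 4 * (SF N (2 * N / s + 1) A).card := by
  have hne : A.Nonempty := by
    rw [← card_pos]
    omega
  obtain ⟨M, hM⟩ : ∃ M, M = A.max' hne := ⟨_, rfl⟩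
  have hMA : M ∈ A := by rw [hM]; exact A.max'_mem hne
  have hMl : ∀ z ∈ A, z ≤ M := fun z hz => by rw [hM]; exact A.le_max' z hz
  have hex : ∀ p ∈ A.erase M, ∃ d : ℕ, Flag A p d := by
    intro p hp
    obtain ⟨hp1, hp2⟩ := mem_erase.1 hp
    exact exists_flag hp2 hMA (lt_of_le_of_ne (hMl p hp2) hp1)
  choose! gp hgp using hex
  obtain ⟨D, hD⟩ : ∃ D, D = 2 * N / s + 1 := ⟨_, rfl⟩
  rw [← hD]
  obtain ⟨L, hL⟩ : ∃ L, L = (A.erase M).filter fun p => ¬ gp p ≤ D := ⟨_, rfl⟩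
  have hcard : ((A.erase M).filter fun p => gp p ≤ D).card + L.card = A.card - 1 := by
    rw [hL, card_filter_add_card_filter_not, card_erase_of_mem hMA]
  -- the small flags
  have hsm : ((A.erase M).filter fun p => gp p ≤ D).card ≤ (SF N D A).card := by
    refine card_le_card_of_injOn (fun p => (p, gp p)) (fun p hp => ?_) ?_
    · obtain ⟨hp1, hp2⟩ := mem_filter.1 hp
      have hf := hgp p hp1
      show (p, gp p) ∈ SF N D A
      unfold SF
      rw [mem_filter, mem_product, mem_Icc]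
      exact ⟨⟨mem_Icc.1 (hA hf.2.1), mem_Icc.2 ⟨hf.1, hp2⟩⟩, hf⟩
    · intro p _ q _ h
      exact congrArg Prod.fst h
  -- the large gaps
  have hlg : L.card * (D + 1) ≤ N := by
    have hdis : ∀ p ∈ L, ∀ q ∈ L, p ≠ q →
        Disjoint (Ico p (p + gp p)) (Ico q (q + gp q)) := by
      have key : ∀ p ∈ L, ∀ q ∈ L, p < q →
          Disjoint (Ico p (p + gp p)) (Ico q (q + gp q)) := by
        intro p hp q hq hpq
        rw [hL, mem_filter] at hp hq
        have hf := hgp p hp.1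
        rw [Finset.disjoint_left]
        intro x hx hx'
        rw [mem_Ico] at hx hx'
        exact hf.2.2.2 q (mem_erase.1 hq.1).2 ⟨hpq, by linarith⟩
      intro p hp q hq hpq
      rcases lt_or_gt_of_ne hpq with h | h
      · exact key p hp q hq h
      · exact (key q hq p hp h).symm
    have hsubU : L.biUnion (fun p => Ico p (p + gp p)) ⊆ Icc 1 (N : ℤ) := by
      intro x hx
      rw [mem_biUnion] at hx
      obtain ⟨p, hp, hx⟩ := hx
      rw [hL, mem_filter] at hp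
      have hf := hgp p hp.1
      rw [mem_Ico] at hx
      have b1 := mem_Icc.1 (hA hf.2.1)
      have b2 := mem_Icc.1 (hA hf.2.2.1)
      rw [mem_Icc]
      exact ⟨by linarith, by linarith⟩
    have hc := card_le_card hsubU
    rw [card_biUnion hdis, Int.card_Icc, add_sub_cancel_right, Int.toNat_natCast] at hc
    refine le_trans ?_ hc
    rw [← smul_eq_mul, ← sum_const]
    refine sum_le_sum fun p hp => ?_
    rw [hL, mem_filter] at hp
    rw [Int.card_Ico, add_sub_cancel_left, Int.toNat_natCast]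
    omega
  have hD1 : 2 * N < s * (D + 1) := by
    have h3 := Nat.div_add_mod (2 * N) s
    have h4 := Nat.mod_lt (2 * N) (by omega : s > 0)
    rw [hD]
    nlinarith
  have hLs : 2 * L.card < s := by
    by_contra h
    rw [not_lt] at h
    have h3 : s * (D + 1) ≤ 2 * L.card * (D + 1) := Nat.mul_le_mul_right _ h
    nlinarith
  omega

theorem flags (N s : ℕ) (hs : 4 ≤ s) (G : Finset (Finset ℤ))
    (hsub : ∀ A ∈ G, A ⊆ Icc 1 (N : ℤ)) (hint : ∀ A ∈ G, ∀ B ∈ G, A ≠ B → IsAP (A ∩ B))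
    (hn : ∀ A ∈ G, ¬ IsAP A) (h1 : ∀ A ∈ G, s ≤ A.card) (h2 : ∀ A ∈ G, A.card < 2 * s) :
    G.card * s ≤ 4 * N * (∑ d ∈ Icc 1 N, N / d) + 100 * N ^ 2 := by
  rcases G.eq_empty_or_nonempty with h0 | ⟨A0, hA0⟩
  · rw [h0, card_empty, zero_mul]
    exact Nat.zero_le _
  have hsN : s ≤ N := by
    have h3 := card_le_card (hsub A0 hA0)
    rw [Int.card_Icc, add_sub_cancel_right, Int.toNat_natCast] at h3
    exact (h1 A0 hA0).trans h3
  obtain ⟨D, hD⟩ : ∃ D, D = 2 * N / s + 1 := ⟨_, rfl⟩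
  -- double counting
  have hdc : ∑ A ∈ G, (SF N D A).card = ∑ d ∈ Icc 1 D, ∑ p ∈ Icc 1 (N : ℤ), (GF G p d).card := by
    have e1 : ∀ A ∈ G, (SF N D A).card =
        ∑ x ∈ (Icc 1 (N : ℤ)) ×ˢ (Icc 1 D), if Flag A x.1 x.2 then 1 else 0 := by
      intro A _
      unfold SF
      rw [card_filter]
    rw [sum_congr rfl e1, sum_comm, sum_product_right]
    refine sum_congr rfl fun d _ => sum_congr rfl fun p _ => ?_
    unfold GF
    rw [card_filter]
  have hlow : G.card * s ≤ 4 * ∑ A ∈ G, (SF N D A).card := by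
    rw [mul_sum, ← smul_eq_mul, ← sum_const]
    refine sum_le_sum fun A hA => ?_
    rw [hD]
    exact many_small (hsub A hA) (by omega) (h1 A hA)
  have hup : ∑ d ∈ Icc 1 D, ∑ p ∈ Icc 1 (N : ℤ), (GF G p d).card ≤
      N * (∑ d ∈ Icc 1 D, N / d) + D * (N * (4 * s + 2)) := by
    have h3 : ∀ d ∈ Icc 1 D, ∑ p ∈ Icc 1 (N : ℤ), (GF G p d).card ≤
        N * (N / d) + N * (4 * s + 2) := by
      intro d hd
      refine (sum_flags hsub hint hn h2 (mem_Icc.1 hd).1).trans (le_of_eq ?_)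
      ring
    refine (sum_le_sum h3).trans (le_of_eq ?_)
    rw [sum_add_distrib, ← mul_sum, sum_const, Nat.card_Icc, smul_eq_mul, Nat.add_sub_cancel]
  have hsum : ∑ d ∈ Icc 1 D, N / d ≤ ∑ d ∈ Icc 1 N, N / d := by
    have h3 : ∑ d ∈ Icc 1 D, N / d = ∑ d ∈ (Icc 1 D).filter (fun d => d ≤ N), N / d := by
      rw [sum_filter]
      refine sum_congr rfl fun d hd => ?_
      split_ifs with h
      · rfl
      · exact Nat.div_eq_of_lt (not_le.1 h)
    rw [h3]
    refine sum_le_sum_of_subset fun d hd => ?_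
    rw [mem_filter, mem_Icc] at hd
    rw [mem_Icc]
    exact ⟨hd.1.1, hd.2⟩
  have hDb : D * (4 * s + 2) ≤ 18 * N := by
    have h3 : 2 * N / s * s ≤ 2 * N := Nat.div_mul_le_self _ _
    have h4 : 2 * N / s * 4 ≤ 2 * N / s * s := Nat.mul_le_mul_left _ hs
    rw [hD]
    nlinarith
  rw [hdc] at hlow
  have h5 : D * (N * (4 * s + 2)) ≤ 18 * N ^ 2 := by
    calc D * (N * (4 * s + 2)) = N * (D * (4 * s + 2)) := by ring
      _ ≤ N * (18 * N) := Nat.mul_le_mul_left _ hDb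
      _ = 18 * N ^ 2 := by ring
  have h6 : N * (∑ d ∈ Icc 1 D, N / d) ≤ N * ∑ d ∈ Icc 1 N, N / d := Nat.mul_le_mul_left _ hsum
  calc G.card * s ≤ 4 * (N * (∑ d ∈ Icc 1 D, N / d) + D * (N * (4 * s + 2))) :=
        hlow.trans (Nat.mul_le_mul_left _ hup)
    _ ≤ 4 * (N * (∑ d ∈ Icc 1 N, N / d) + 18 * N ^ 2) :=
        Nat.mul_le_mul_left _ (add_le_add h6 h5)
    _ ≤ 4 * N * (∑ d ∈ Icc 1 N, N / d) + 100 * N ^ 2 := by
        have : 4 * (N * (∑ d ∈ Icc 1 N, N / d) + 18 * N ^ 2) =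
            4 * N * (∑ d ∈ Icc 1 N, N / d) + 72 * N ^ 2 := by ring
        rw [this]
        have := Nat.zero_le (N ^ 2)
        omega

end

end Pool.Agent.H21.AP
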