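import Pool.Graph.R_pool_sql_team_seeded_620a6dc7.H483S.Near

/-!
Pairwise intersecting progressions with the same difference: the Helly property and two counts.
-/

set_option autoImplicit false

namespace Pool.Agent.H21.AP

open Finset Pool.Agent.H483S

/-- progression with difference `d` and at least two elements -/
def IsAPd (d : ℕ) (P : Finset ℤ) : Prop :=
  ∃ (a : ℤ) (l : ℕ), 2 ≤ l ∧ P = (Finset.range l).image (fun i : ℕ => a + i * d)

/-- the progression `{m + k d : -i ≤ k ≤ j}` -/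
noncomputable def hprog (d : ℕ) (m : ℤ) (p : ℕ × ℕ) : Finset ℤ :=
  (Finset.Icc (-(p.1 : ℤ)) p.2).image (fun k => m + k * d)

theorem mem_hprog {d : ℕ} (hd : 1 ≤ d) {m : ℤ} {p : ℕ × ℕ} {k : ℤ} :
    m + k * d ∈ hprog d m p ↔ -(p.1 : ℤ) ≤ k ∧ k ≤ p.2 := by
  have e1 : (0 : ℤ) < d := by exact_mod_cast hd
  unfold hprog
  rw [mem_image]
  constructor
  · rintro ⟨k', hk', h⟩
    have h1 : k' * d = k * d := by linarith
    have h2 := mul_right_cancel₀ e1.ne' h1
    subst h2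
    exact mem_Icc.1 hk'
  · intro h
    exact ⟨k, mem_Icc.2 h, rfl⟩

theorem card_hprog {d : ℕ} (hd : 1 ≤ d) (m : ℤ) (p : ℕ × ℕ) :
    (hprog d m p).card = p.1 + p.2 + 1 := by
  have e1 : (0 : ℤ) < d := by exact_mod_cast hd
  unfold hprog
  rw [card_image_of_injective, Int.card_Icc]
  · omega
  · intro k k' h
    have h1 : k * d = k' * d := by
      have : m + k * d = m + k' * d := h
      linarith
    exact mul_right_cancel₀ e1.ne' h1

theorem helly_form {N d : ℕ} (hd : 1 ≤ d) {P : Finset (Finset ℤ)}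
    (hsub : ∀ A ∈ P, A ⊆ Icc 1 (N : ℤ)) (hP : ∀ A ∈ P, IsAPd d A)
    (hint : ∀ A ∈ P, ∀ B ∈ P, A ≠ B → (A ∩ B).Nonempty) (hne : P.Nonempty) :
    ∃ m : ℤ, ∃ I J : ℕ, I + J ≤ N / d ∧
      ∀ A ∈ P, ∃ p : ℕ × ℕ, p.1 ≤ I ∧ p.2 ≤ J ∧ A = hprog d m p := by
  classical
  have e1 : (0 : ℤ) < d := by exact_mod_cast hd
  choose! a l hl hA using hP
  obtain ⟨A0, hA0, hmax⟩ := exists_max_image P a hne
  have memA : ∀ A ∈ P, ∀ i : ℕ, i < l A → a A + i * d ∈ A := by
    intro A hAP i hi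
    have : a A + i * d ∈ (Finset.range (l A)).image (fun i : ℕ => a A + i * d) :=
      mem_image.2 ⟨i, mem_range.2 hi, rfl⟩
    rw [← hA A hAP] at this
    exact this
  have memA' : ∀ A ∈ P, ∀ c ∈ A, ∃ i : ℕ, i < l A ∧ c = a A + i * d := by
    intro A hAP c hc
    rw [hA A hAP] at hc
    obtain ⟨i, hi, rfl⟩ := mem_image.1 hc
    exact ⟨i, mem_range.1 hi, rfl⟩
  -- every member contains `m`
  have key : ∀ A ∈ P, ∃ i : ℕ, i < l A ∧ a A0 = a A + i * d := by
    intro A hAP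
    have hle := hmax A hAP
    by_cases h : A = A0
    · subst h
      exact ⟨0, by have := hl A hAP; omega, by simp⟩
    · obtain ⟨c, hc⟩ := hint A hAP A0 hA0 h
      obtain ⟨hc1, hc2⟩ := mem_inter.1 hc
      obtain ⟨i, hi, hi'⟩ := memA' A hAP c hc1
      obtain ⟨i0, hi0, hi0'⟩ := memA' A0 hA0 c hc2
      have h1 : a A + i * d = a A0 + i0 * d := by rw [← hi', ← hi0']
      -- `a A0 = a A + (i - i0) d`
      have h2 : i0 ≤ i := by
        by_contra hcon
        push Not at hcon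
        have h3 : (i : ℤ) + 1 ≤ i0 := by exact_mod_cast hcon
        nlinarith
      refine ⟨i - i0, by omega, ?_⟩
      have h3 : ((i - i0 : ℕ) : ℤ) = i - i0 := by push_cast [h2]; ring
      rw [h3]
      linarith [sub_mul (i : ℤ) i0 d]
  obtain ⟨m, hm⟩ : ∃ m, m = a A0 := ⟨_, rfl⟩
  rw [← hm] at key
  have hmA0 : m ∈ A0 := by
    have := memA A0 hA0 0 (by have := hl A0 hA0; omega)
    rw [hm]
    simpa using this
  have hmN := mem_Icc.1 (hsub A0 hA0 hmA0)
  refine ⟨m, ((m - 1).toNat) / d, ((N : ℤ) - m).toNat / d, ?_, ?_⟩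
  · have h1 : ((m - 1).toNat) / d * d ≤ (m - 1).toNat := Nat.div_mul_le_self _ _
    have h2 : ((N : ℤ) - m).toNat / d * d ≤ ((N : ℤ) - m).toNat := Nat.div_mul_le_self _ _
    rw [Nat.le_div_iff_mul_le hd, add_mul]
    omega
  · intro A hAP
    obtain ⟨i, hi, hi'⟩ := key A hAP
    refine ⟨(i, l A - 1 - i), ?_, ?_, ?_⟩
    · dsimp only
      rw [Nat.le_div_iff_mul_le hd]
      have h0 := memA A hAP 0 (by omega)
      have h1 := (mem_Icc.1 (hsub A hAP h0)).1
      push_cast at h1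
      have h2 : ((i * d : ℕ) : ℤ) ≤ m - 1 := by
        push_cast
        linarith
      omega
    · dsimp only
      rw [Nat.le_div_iff_mul_le hd]
      have h0 := memA A hAP (l A - 1) (by omega)
      have h1 := (mem_Icc.1 (hsub A hAP h0)).2
      have h2 : ((l A - 1 : ℕ) : ℤ) = ((l A - 1 - i : ℕ) : ℤ) + i := by
        have : l A - 1 = (l A - 1 - i) + i := by omega
        exact_mod_cast this
      rw [h2, add_mul] at h1
      have h3 : (((l A - 1 - i) * d : ℕ) : ℤ) ≤ N - m := by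
        push_cast
        linarith
      omega
    · unfold hprog
      dsimp only
      conv_lhs => rw [hA A hAP]
      ext c
      rw [mem_image, mem_image]
      constructor
      · rintro ⟨k, hk, rfl⟩
        rw [mem_range] at hk
        refine ⟨(k : ℤ) - i, ?_, ?_⟩
        · rw [mem_Icc]
          omega
        · rw [hi']
          ring
      · rintro ⟨k, hk, rfl⟩
        rw [mem_Icc] at hk
        refine ⟨(k + i).toNat, ?_, ?_⟩
        · rw [mem_range]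
          omega
        · rw [Int.toNat_of_nonneg (by omega), hi']
          ring

/-- all members as pairs -/
theorem helly_pairs {N d : ℕ} (hd : 1 ≤ d) {P : Finset (Finset ℤ)}
    (hsub : ∀ A ∈ P, A ⊆ Icc 1 (N : ℤ)) (hP : ∀ A ∈ P, IsAPd d A)
    (hint : ∀ A ∈ P, ∀ B ∈ P, A ≠ B → (A ∩ B).Nonempty) (hne : P.Nonempty) :
    ∃ m : ℤ, ∃ I J : ℕ, ∃ T : Finset (ℕ × ℕ), I + J ≤ N / d ∧ T.card = P.card ∧
      (∀ p ∈ T, p.1 ≤ I ∧ p.2 ≤ J ∧ hprog d m p ∈ P) ∧ ∀ A ∈ P, ∃ p ∈ T, A = hprog d m p := by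
  classical
  obtain ⟨m, I, J, h1, h2⟩ := helly_form hd hsub hP hint hne
  choose! f hf1 hf2 hf3 using h2
  refine ⟨m, I, J, P.image f, h1, ?_, ?_, ?_⟩
  · apply card_image_of_injOn
    intro A hA B hB h
    rw [hf3 A hA, hf3 B hB, h]
  · intro p hp
    obtain ⟨A, hA, rfl⟩ := mem_image.1 hp
    refine ⟨hf1 A hA, hf2 A hA, ?_⟩
    rw [← hf3 A hA]
    exact hA
  · intro A hA
    exact ⟨f A, mem_image_of_mem f hA, hf3 A hA⟩

theorem apd_count (N d : ℕ) (hd : 1 ≤ d) (P : Finset (Finset ℤ))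
    (hsub : ∀ A ∈ P, A ⊆ Icc 1 (N : ℤ)) (hP : ∀ A ∈ P, IsAPd d A)
    (hint : ∀ A ∈ P, ∀ B ∈ P, A ≠ B → (A ∩ B).Nonempty) :
    4 * P.card ≤ (N / d + 3) ^ 2 := by
  classical
  rcases P.eq_empty_or_nonempty with rfl | hne
  · simp
  · obtain ⟨m, I, J, T, h1, h2, h3, h4⟩ := helly_pairs hd hsub hP hint hne
    have h5 : T ⊆ range (I + 1) ×ˢ range (J + 1) := by
      intro p hp
      obtain ⟨k1, k2, -⟩ := h3 p hp
      rw [mem_product, mem_range, mem_range]
      omega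
    have h6 := card_le_card h5
    rw [card_product, card_range, card_range, h2] at h6
    have h7 : 4 * ((I + 1) * (J + 1)) ≤ (I + J + 2) ^ 2 := by
      zify
      nlinarith [sq_nonneg ((I : ℤ) - J)]
    have h8 : (I + J + 2) ^ 2 ≤ (N / d + 3) ^ 2 := Nat.pow_le_pow_left (by omega) 2
    omega

theorem gauss (q : ℕ) : 2 * ∑ t ∈ range q, (t + 1) = q * (q + 1) := by
  induction q with
  | zero => simp
  | succ q ih =>
    rw [sum_range_succ, mul_add, ih]
    ring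

/-- pairs in a diagonal strip -/
theorem strip_card (T : Finset (ℕ × ℕ)) (r q : ℕ) (hT : ∀ p ∈ T, r ≤ p.1 + p.2 ∧ p.1 + p.2 < q)
    (hrq : r ≤ q) : 2 * T.card + r * (r + 1) ≤ q * (q + 1) := by
  classical
  have h1 : T ⊆ (Ico r q).biUnion (fun t => antidiagonal t) := by
    intro p hp
    obtain ⟨k1, k2⟩ := hT p hp
    exact mem_biUnion.2 ⟨p.1 + p.2, mem_Ico.2 ⟨k1, k2⟩, mem_antidiagonal.2 rfl⟩
  have h2 := (card_le_card h1).trans card_biUnion_le
  simp only [Finset.Nat.card_antidiagonal] at h2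
  have h3 : ∑ t ∈ range r, (t + 1) + ∑ t ∈ Ico r q, (t + 1) = ∑ t ∈ range q, (t + 1) :=
    sum_range_add_sum_Ico _ hrq
  have h4 := gauss r
  have h5 := gauss q
  omega

/-- the counting inequality -/
theorem avoid_count (T : Finset (ℕ × ℕ)) (I J k s n : ℕ) (hT : ∀ p ∈ T, p.1 ≤ I ∧ p.2 ≤ J)
    (hn : I + J ≤ n) (hk : 1 ≤ k) (hkI : k ≤ I) (hs : s ≤ k + J)
    (hTs : ∀ p ∈ T, p.1 < k → s ≤ p.1 + p.2 + 1) :
    2 * T.card + s ^ 2 ≤ n ^ 2 + 20 * n + 100 := by
  classical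
  have h0 := card_filter_add_card_filter_not (s := T) (fun p : ℕ × ℕ => p.1 < k)
  -- members containing `x`
  have h1 : (T.filter (fun p : ℕ × ℕ => ¬ p.1 < k)).card ≤ (I - k + 1) * (J + 1) := by
    have h2 : T.filter (fun p : ℕ × ℕ => ¬ p.1 < k) ⊆ Icc k I ×ˢ range (J + 1) := by
      intro p hp
      obtain ⟨hp1, hp2⟩ := mem_filter.1 hp
      obtain ⟨k1, k2⟩ := hT p hp1
      rw [mem_product, mem_Icc, mem_range]
      omega
    have h3 := card_le_card h2
    rw [card_product, Nat.card_Icc, card_range] at h3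
    have h4 : I + 1 - k = I - k + 1 := by omega
    rwa [h4] at h3
  -- members avoiding `x`
  have h5 : 2 * (T.filter (fun p : ℕ × ℕ => p.1 < k)).card ≤ (k + J - s + 1) * (k + J - s + 2) := by
    have h6 : (T.filter (fun p : ℕ × ℕ => p.1 < k)).card =
        ((T.filter (fun p : ℕ × ℕ => p.1 < k)).image
          (fun p : ℕ × ℕ => ((k - 1 - p.1, J - p.2) : ℕ × ℕ))).card := by
      rw [card_image_of_injOn]
      rintro ⟨p, p'⟩ hp ⟨q, q'⟩ hq h
      obtain ⟨hp1, hp2⟩ := mem_filter.1 (mem_coe.1 hp)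
      obtain ⟨hq1, hq2⟩ := mem_filter.1 (mem_coe.1 hq)
      obtain ⟨k1, k2⟩ := hT _ hp1
      obtain ⟨k3, k4⟩ := hT _ hq1
      obtain ⟨e1, e2⟩ := Prod.mk.inj h
      dsimp only at hp2 hq2 k1 k2 k3 k4 e1 e2
      rw [Prod.mk.injEq]
      omega
    have h7 := strip_card ((T.filter (fun p : ℕ × ℕ => p.1 < k)).image
          (fun p : ℕ × ℕ => ((k - 1 - p.1, J - p.2) : ℕ × ℕ))) 0 (k + J - s + 1) (by
        intro p hp
        obtain ⟨q, hq, rfl⟩ := mem_image.1 hp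
        obtain ⟨hq1, hq2⟩ := mem_filter.1 hq
        obtain ⟨k1, k2⟩ := hT q hq1
        have k3 := hTs q hq1 hq2
        dsimp only
        omega) (by omega)
    rw [h6]
    have h8 : (k + J - s + 1) * (k + J - s + 1 + 1) = (k + J - s + 1) * (k + J - s + 2) := by ring
    omega
  obtain ⟨A, hA⟩ : ∃ A, A = I - k := ⟨_, rfl⟩
  obtain ⟨B, hB⟩ : ∃ B, B = k + J - s := ⟨_, rfl⟩
  rw [← hA] at h1
  rw [← hB] at h5
  have h9 : A + (B + s) ≤ n := by omega
  have h10 : J + 1 ≤ B + s := by omega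
  have h11 : (A + 1) * (J + 1) ≤ (A + 1) * (B + s) := Nat.mul_le_mul_left _ h10
  have h12 : 2 * T.card + s ^ 2 ≤ 2 * ((A + 1) * (B + s)) + (B + 1) * (B + 2) + s ^ 2 := by omega
  have h13 : 2 * ((A + 1) * (B + s)) + (B + 1) * (B + 2) + s ^ 2 ≤
      (A + (B + s)) ^ 2 + 20 * (A + (B + s)) + 100 := by
    nlinarith [Nat.zero_le (B * s), Nat.zero_le (A * A)]
  have h14 : (A + (B + s)) ^ 2 ≤ n ^ 2 := Nat.pow_le_pow_left h9 2
  omega

theorem apd_avoid (N d : ℕ) (hd : 1 ≤ d) (P : Finset (Finset ℤ))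
    (hsub : ∀ A ∈ P, A ⊆ Icc 1 (N : ℤ)) (hP : ∀ A ∈ P, IsAPd d A)
    (hint : ∀ A ∈ P, ∀ B ∈ P, A ≠ B → (A ∩ B).Nonempty)
    (x : ℤ) (A0 : Finset ℤ) (hA0 : A0 ∈ P) (hx : x ∉ A0)
    (hmin : ∀ A ∈ P, x ∉ A → A0.card ≤ A.card) :
    2 * P.card + A0.card ^ 2 ≤ (N / d) ^ 2 + 20 * (N / d) + 100 := by
  classical
  have e1 : (0 : ℤ) < d := by exact_mod_cast hd
  obtain ⟨m, I, J, T, h1, h2, h3, h4⟩ := helly_pairs hd hsub hP hint ⟨A0, hA0⟩
  obtain ⟨p0, hp0, hp0'⟩ := h4 A0 hA0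
  obtain ⟨n, hn⟩ : ∃ n, n = N / d := ⟨_, rfl⟩
  rw [← hn] at h1 ⊢
  rw [← h2]
  obtain ⟨s, hs⟩ : ∃ s, s = A0.card := ⟨_, rfl⟩
  rw [← hs] at hmin ⊢
  have hs' : s = p0.1 + p0.2 + 1 := by rw [hs, hp0', card_hprog hd]
  obtain ⟨q1, q2, -⟩ := h3 p0 hp0
  have hmin' : ∀ p ∈ T, x ∉ hprog d m p → s ≤ p.1 + p.2 + 1 := by
    intro p hp hxp
    have := hmin _ (h3 p hp).2.2 hxp
    rwa [card_hprog hd] at this
  by_cases hcase : ∃ p ∈ T, x ∈ hprog d m p
  · -- some member contains `x`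
    obtain ⟨p1, hp1, hxp1⟩ := hcase
    obtain ⟨r1, r2, -⟩ := h3 p1 hp1
    obtain ⟨k, hk⟩ : ∃ k : ℤ, x = m + k * d := by
      unfold hprog at hxp1
      obtain ⟨k, -, hk⟩ := mem_image.1 hxp1
      exact ⟨k, hk.symm⟩
    subst hk
    rw [mem_hprog hd] at hxp1
    rw [hp0', mem_hprog hd] at hx
    have hmin2 : ∀ p ∈ T, ¬ (-(p.1 : ℤ) ≤ k ∧ k ≤ p.2) → s ≤ p.1 + p.2 + 1 := by
      intro p hp hxp
      exact hmin' p hp (by rw [mem_hprog hd]; exact hxp)
    rcases lt_trichotomy k 0 with hk0 | hk0 | hk0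
    · apply avoid_count T I J (-k).toNat s n (fun p hp => ⟨(h3 p hp).1, (h3 p hp).2.1⟩) h1
        (by omega) (by omega) (by omega)
      intro p hp hpk
      exact hmin2 p hp (by omega)
    · exfalso
      omega
    · -- swap
      have hsw : (T.image Prod.swap).card = T.card := card_image_of_injective _ Prod.swap_injective
      rw [← hsw]
      apply avoid_count (T.image Prod.swap) J I k.toNat s n ?_ (by omega) (by omega) (by omega)
        (by omega)
      · intro p hp hpk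
        obtain ⟨q, hq, rfl⟩ := mem_image.1 hp
        rw [Prod.fst_swap] at hpk
        rw [Prod.fst_swap, Prod.snd_swap, add_comm q.2 q.1]
        exact hmin2 q hq (by omega)
      · intro p hp
        obtain ⟨q, hq, rfl⟩ := mem_image.1 hp
        exact ⟨(h3 q hq).2.1, (h3 q hq).1⟩
  · -- no member contains `x`
    push Not at hcase
    have h5 := strip_card T (s - 1) (n + 1) (by
      intro p hp
      obtain ⟨k1, k2, -⟩ := h3 p hp
      have := hmin' p hp (hcase p hp)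
      omega) (by omega)
    obtain ⟨t, rfl⟩ : ∃ t, s = t + 1 := ⟨s - 1, by omega⟩
    rw [Nat.add_sub_cancel] at h5
    have h6 : t ≤ n := by omega
    nlinarith

end Pool.Agent.H21.AP
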