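import Pool.Graph.R_pool_sql_team_seeded_620a6dc7.H483S.Constr

/-!
A family of the extremal size with few progressions (the library construction, cut down to the
exact size).
-/

set_option autoImplicit false

namespace Pool.Agent.H21.AP

open Finset Pool.Agent.H483S

theorem big_card_le {x : ℤ} {d : ℕ} {A : Finset ℤ} (h : IsBig x d A) : A.card ≤ 5 := by
  rcases h with rfl | rfl | rfl
  · unfold B1
    exact Finset.card_le_four.trans (by norm_num)
  · unfold B2
    exact Finset.card_le_four.trans (by norm_num)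
  · unfold B3
    exact Finset.card_le_five

theorem construction_five (N : ℕ) (hN : 1 ≤ N) :
    ∃ F : Finset (Finset ℤ), (∀ A ∈ F, A ⊆ Icc 1 (N : ℤ)) ∧
      (∀ A ∈ F, ∀ B ∈ F, A ≠ B → IsAP (A ∩ B)) ∧ (∃ x : ℤ, ∀ A ∈ F, x ∈ A ∧ A.card ≤ 5) ∧
      N.choose 2 + 1 + (N - 1) / 4 ≤ F.card := by
  set D : ℕ := (N - 1) / 4 with hD
  set x : ℤ := 2 * D + 1 with hx
  have hDN : 4 * D + 1 ≤ N := by omega
  have hxN : x ∈ Icc 1 (N : ℤ) := by
    rw [mem_Icc]; omega
  set Ex : Finset (Finset ℤ) := (Icc 1 D).image (E1 x) ∪ (Icc 1 D).image (E2 x) with hEx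
  set G1 : Finset (Finset ℤ) := (Icc 1 D).image (B1 x) with hG1
  set G2 : Finset (Finset ℤ) := (Icc 1 D).image (B2 x) with hG2
  set G3 : Finset (Finset ℤ) := (Icc 1 D).image (B3 x) with hG3
  set Bg : Finset (Finset ℤ) := G1 ∪ (G2 ∪ G3) with hBg
  have hBig : ∀ A ∈ Bg, ∃ d, 1 ≤ d ∧ d ≤ D ∧ IsBig x d A := by
    intro A hA
    rw [hBg, mem_union, mem_union] at hA
    rcases hA with h | h | h
    · obtain ⟨d, hd, rfl⟩ := mem_image.mp h
      rw [mem_Icc] at hd
      exact ⟨d, hd.1, hd.2, Or.inl rfl⟩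
    · obtain ⟨d, hd, rfl⟩ := mem_image.mp h
      rw [mem_Icc] at hd
      exact ⟨d, hd.1, hd.2, Or.inr (Or.inl rfl)⟩
    · obtain ⟨d, hd, rfl⟩ := mem_image.mp h
      rw [mem_Icc] at hd
      exact ⟨d, hd.1, hd.2, Or.inr (Or.inr rfl)⟩
  have hSm : ∀ A ∈ Sm N x \ Ex, A ⊆ Icc 1 (N : ℤ) ∧ x ∈ A ∧ A.card ≤ 3 ∧
      ∀ d, 1 ≤ d → d ≤ D → A ≠ E1 x d ∧ A ≠ E2 x d := by
    intro A hA
    rw [mem_sdiff] at hA
    obtain ⟨h1, h2⟩ := hA
    unfold Sm at h1
    rw [mem_filter, mem_powerset] at h1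
    refine ⟨h1.1, h1.2.1, h1.2.2, ?_⟩
    intro d hd hd'
    constructor
    · rintro rfl
      exact h2 (mem_union_left _ (mem_image_of_mem _ (mem_Icc.mpr ⟨hd, hd'⟩)))
    · rintro rfl
      exact h2 (mem_union_right _ (mem_image_of_mem _ (mem_Icc.mpr ⟨hd, hd'⟩)))
  refine ⟨(Sm N x \ Ex) ∪ Bg, ?_, ?_, ⟨x, ?_⟩, ?_⟩
  · intro A hA
    rcases mem_union.mp hA with h | h
    · exact (hSm A h).1
    · obtain ⟨d, hd1, hd2, hb⟩ := hBig A h
      intro z hz
      have := big_sub hb z hz
      rw [mem_Icc]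
      omega
  · intro A hA B hB hAB
    rcases mem_union.mp hA with h | h <;> rcases mem_union.mp hB with h' | h'
    · exact small_small (hSm A h).2.1 (hSm B h').2.1 (hSm A h).2.2.1 (hSm B h').2.2.1 hAB
    · obtain ⟨d, hd1, hd2, hb⟩ := hBig B h'
      exact small_big hd1 (hSm A h).2.1 (hSm A h).2.2.1 ((hSm A h).2.2.2 d hd1 hd2).1
        ((hSm A h).2.2.2 d hd1 hd2).2 hb
    · obtain ⟨d, hd1, hd2, hb⟩ := hBig A h
      rw [inter_comm]
      exact small_big hd1 (hSm B h').2.1 (hSm B h').2.2.1 ((hSm B h').2.2.2 d hd1 hd2).1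
        ((hSm B h').2.2.2 d hd1 hd2).2 hb
    · obtain ⟨d, hd1, hd2, hb⟩ := hBig A h
      obtain ⟨d', hd1', hd2', hb'⟩ := hBig B h'
      exact big_big hd1 hd1' hb hb' hAB
  · intro A hA
    rcases mem_union.mp hA with h | h
    · exact ⟨(hSm A h).2.1, le_trans (hSm A h).2.2.1 (by norm_num)⟩
    · obtain ⟨d, hd1, hd2, hb⟩ := hBig A h
      exact ⟨big_x hb, big_card_le hb⟩
  · have hdisj : Disjoint (Sm N x \ Ex) Bg := by
      rw [Finset.disjoint_left]
      intro A h h'
      obtain ⟨d, hd1, hd2, hb⟩ := hBig A h'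
      have := big_card hd1 hb
      have := (hSm A h).2.2.1
      omega
    have hExc : Ex.card ≤ 2 * D := by
      rw [hEx]
      refine (Finset.card_union_le _ _).trans ?_
      have h1 := Finset.card_image_le (s := Icc 1 D) (f := E1 x)
      have h2 := Finset.card_image_le (s := Icc 1 D) (f := E2 x)
      rw [Nat.card_Icc] at h1 h2
      omega
    have mB1 : ∀ d (z : ℤ), z ∈ B1 x d ↔ (z = x - 2 * d ∨ z = x - d ∨ z = x ∨ z = x + d) := by
      intro d z; simp only [B1, mem_insert, mem_singleton]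
    have mB2 : ∀ d (z : ℤ), z ∈ B2 x d ↔ (z = x - d ∨ z = x ∨ z = x + d ∨ z = x + 2 * d) := by
      intro d z; simp only [B2, mem_insert, mem_singleton]
    have mB3 : ∀ d (z : ℤ), z ∈ B3 x d ↔
        (z = x - 2 * d ∨ z = x - d ∨ z = x ∨ z = x + d ∨ z = x + 2 * d) := by
      intro d z; simp only [B3, mem_insert, mem_singleton]
    have c1 : G1.card = D := by
      rw [hG1, Finset.card_image_of_injOn, Nat.card_Icc]; · omega
      intro d hd d' hd' h
      simp only [coe_Icc, Set.mem_Icc] at hd hd'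
      have h : B1 x d = B1 x d' := h
      have h1 := (mB1 d' (x + d)).mp (h ▸ (mB1 d (x + d)).mpr (by omega))
      have h2 := (mB1 d (x + d')).mp (h ▸ (mB1 d' (x + d')).mpr (by omega))
      omega
    have c2 : G2.card = D := by
      rw [hG2, Finset.card_image_of_injOn, Nat.card_Icc]; · omega
      intro d hd d' hd' h
      simp only [coe_Icc, Set.mem_Icc] at hd hd'
      have h : B2 x d = B2 x d' := h
      have h1 := (mB2 d' (x + d)).mp (h ▸ (mB2 d (x + d)).mpr (by omega))
      have h2 := (mB2 d (x + d')).mp (h ▸ (mB2 d' (x + d')).mpr (by omega))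
      omega
    have c3 : G3.card = D := by
      rw [hG3, Finset.card_image_of_injOn, Nat.card_Icc]; · omega
      intro d hd d' hd' h
      simp only [coe_Icc, Set.mem_Icc] at hd hd'
      have h : B3 x d = B3 x d' := h
      have h1 := (mB3 d' (x + d)).mp (h ▸ (mB3 d (x + d)).mpr (by omega))
      have h2 := (mB3 d (x + d')).mp (h ▸ (mB3 d' (x + d')).mpr (by omega))
      omega
    have d23 : Disjoint G2 G3 := by
      rw [Finset.disjoint_left]
      intro A h h'
      obtain ⟨d, hd, rfl⟩ := mem_image.mp h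
      obtain ⟨d', hd', e⟩ := mem_image.mp h'
      rw [mem_Icc] at hd hd'
      have h1 := (mB2 d (x + d')).mp (e ▸ (mB3 d' (x + d')).mpr (by omega))
      have h2 := (mB2 d (x - 2 * d')).mp (e ▸ (mB3 d' (x - 2 * d')).mpr (by omega))
      have h3 := (mB2 d (x - d')).mp (e ▸ (mB3 d' (x - d')).mpr (by omega))
      omega
    have d1 : Disjoint G1 (G2 ∪ G3) := by
      rw [Finset.disjoint_left]
      intro A h h'
      obtain ⟨d, hd, rfl⟩ := mem_image.mp h
      rw [mem_Icc] at hd
      rcases mem_union.mp h' with h' | h'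
      · obtain ⟨d', hd', e⟩ := mem_image.mp h'
        rw [mem_Icc] at hd'
        have h2 := (mB1 d (x + 2 * d')).mp (e ▸ (mB2 d' (x + 2 * d')).mpr (by omega))
        have h3 := (mB1 d (x + d')).mp (e ▸ (mB2 d' (x + d')).mpr (by omega))
        omega
      · obtain ⟨d', hd', e⟩ := mem_image.mp h'
        rw [mem_Icc] at hd'
        have h2 := (mB1 d (x + 2 * d')).mp (e ▸ (mB3 d' (x + 2 * d')).mpr (by omega))
        have h3 := (mB1 d (x + d')).mp (e ▸ (mB3 d' (x + d')).mpr (by omega))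
        omega
    have hBc : Bg.card = 3 * D := by
      rw [hBg, Finset.card_union_of_disjoint d1, Finset.card_union_of_disjoint d23, c1, c2, c3]
      ring
    have hSc := Sm_card N hN x hxN
    have hsd := Finset.card_le_card_sdiff_add_card (s := Sm N x) (t := Ex)
    rw [Finset.card_union_of_disjoint hdisj]
    omega


/-- the progression with difference `d` and `l` elements whose `i`-th element is `x` -/
def apThrough (x : ℤ) (p : ℕ × ℕ × ℕ) : Finset ℤ :=
  (Finset.range p.2.2).image (fun j : ℕ => x - p.2.1 * p.1 + j * p.1)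

theorem ap_five {N : ℕ} (hN : 1 ≤ N) {x : ℤ} {A : Finset ℤ} (hA : IsAP A)
    (hsub : A ⊆ Icc 1 (N : ℤ)) (hx : x ∈ A) (hc : A.card ≤ 5) :
    A ∈ ((Icc 1 N) ×ˢ (range 5) ×ˢ (range 6)).image (apThrough x) := by
  classical
  obtain ⟨a, d, l, hd, hl, rfl⟩ := hA
  have hcard : ((Finset.range l).image (fun i : ℕ => a + i * d)).card = l := by
    rw [Finset.card_image_of_injective, Finset.card_range]
    intro i j h
    have h1 : (i : ℤ) * d = j * d := by simpa using h
    have h2 := mul_right_cancel₀ (by omega : d ≠ 0) h1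
    exact_mod_cast h2
  rw [hcard] at hc
  obtain ⟨i0, hi0, hx0⟩ := mem_image.1 hx
  rw [mem_range] at hi0
  rcases Nat.lt_or_ge l 2 with h2 | h2
  · -- one element
    have hl1 : l = 1 := by omega
    subst hl1
    have hi00 : i0 = 0 := by omega
    subst hi00
    refine mem_image.2 ⟨(1, 0, 1), ?_, ?_⟩
    · rw [mem_product, mem_product, mem_Icc, mem_range, mem_range]
      exact ⟨⟨le_rfl, hN⟩, by norm_num, by norm_num⟩
    · unfold apThrough
      apply image_congr
      intro j hj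
      have hj0 : j = 0 := by
        have := mem_range.1 (mem_coe.1 hj)
        dsimp only at this
        omega
      subst hj0
      dsimp only
      rw [← hx0]
      push_cast
      ring
  · have m0 := hsub (mem_image.2 ⟨0, mem_range.2 (by omega), rfl⟩)
    have m1 := hsub (mem_image.2 ⟨1, mem_range.2 (by omega), rfl⟩)
    rw [mem_Icc] at m0 m1
    push_cast at m0 m1
    have hdN : d ≤ N := by linarith [m0.1, m1.2]
    have hdd : ((d.toNat : ℕ) : ℤ) = d := Int.toNat_of_nonneg (by omega)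
    refine mem_image.2 ⟨(d.toNat, i0, l), ?_, ?_⟩
    · rw [mem_product, mem_product, mem_Icc, mem_range, mem_range]
      refine ⟨⟨by omega, by omega⟩, by dsimp only; omega, by dsimp only; omega⟩
    · unfold apThrough
      apply image_congr
      intro j hj
      dsimp only
      rw [hdd, ← hx0]
      ring

open Classical in
theorem sharp_few (N : ℕ) (hN : 1 ≤ N) :
    ∃ F : Finset (Finset ℤ), (∀ A ∈ F, A ⊆ Icc 1 (N : ℤ)) ∧
      (∀ A ∈ F, ∀ B ∈ F, A ≠ B → IsAP (A ∩ B)) ∧ (∃ x : ℤ, ∀ A ∈ F, x ∈ A) ∧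
      (F.filter (fun A => IsAP A)).card ≤ 100 * N ∧ F.card = N.choose 2 + 1 + (N - 1) / 4 := by
  obtain ⟨F0, h1, h2, ⟨x, h3⟩, h4⟩ := construction_five N hN
  obtain ⟨F, hF, hFc⟩ := Finset.exists_subset_card_eq h4
  refine ⟨F, fun A hA => h1 A (hF hA), fun A hA B hB => h2 A (hF hA) B (hF hB),
    ⟨x, fun A hA => (h3 A (hF hA)).1⟩, ?_, hFc⟩
  have hsub : F.filter (fun A => IsAP A) ⊆
      ((Icc 1 N) ×ˢ (range 5) ×ˢ (range 6)).image (apThrough x) := by
    intro A hA
    obtain ⟨hA1, hA2⟩ := mem_filter.1 hA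
    exact ap_five hN hA2 (h1 A (hF hA1)) (h3 A (hF hA1)).1 (h3 A (hF hA1)).2
  have h5 := (card_le_card hsub).trans card_image_le
  rw [card_product, card_product, Nat.card_Icc, card_range, card_range] at h5
  omega

end Pool.Agent.H21.AP
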