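import Pool.Agent.H21.AP.Small

set_option autoImplicit false

namespace Pool.Agent.H21.AP

open Finset Pool.Agent.H483S

/-- an own pair inside a progression of `A` that does not surround the centre can be made closer -/
theorem own_closer {A P : Finset ℤ} (hP : IsAP P) (hPA : P ⊆ A) {x y z v : ℤ} (hy : y ∈ P)
    (hz : z ∈ P) (hv : v ∈ P) (hyv : y < v) (hvz : v < z) (hx : x < y ∨ z < x)
    (ho : Own A x y z) :
    ∃ y' ∈ A, ∃ z' ∈ A, y' < z' ∧ y' ≠ x ∧ z' ≠ x ∧ z' - y' < z - y ∧ Own A x y' z' := by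
  obtain ⟨a, d, l, hd, hl, rfl⟩ := hP
  simp only [mem_image, mem_range] at hy hz hv
  obtain ⟨i, hi, rfl⟩ := hy
  obtain ⟨j, hj, rfl⟩ := hz
  obtain ⟨k, hk, rfl⟩ := hv
  have hd0 : (0 : ℤ) < d := by linarith
  have hik : i < k := by
    by_contra hc
    push Not at hc
    have h1 : (k : ℤ) ≤ i := by exact_mod_cast hc
    have : (k : ℤ) * d ≤ i * d := mul_le_mul_of_nonneg_right h1 hd0.le
    linarith
  have hkj : k < j := by
    by_contra hc
    push Not at hc
    have h1 : (j : ℤ) ≤ k := by exact_mod_cast hc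
    have : (j : ℤ) * d ≤ k * d := mul_le_mul_of_nonneg_right h1 hd0.le
    linarith
  have hij : (i : ℤ) + 2 ≤ j := by exact_mod_cast (by omega : i + 2 ≤ j)
  have hdist : d < (j : ℤ) * d - i * d := by nlinarith
  have hmem : ∀ t : ℕ, t < l → a + (t : ℤ) * d ∈ A := fun t ht =>
    hPA (mem_image.2 ⟨t, mem_range.2 ht, rfl⟩)
  obtain ⟨w, hwA, hw, h1, h2⟩ := ho
  rcases hx with hx | hx
  · -- the pair (z - d, z)
    have e1 : a + (j : ℤ) * d - d = a + ((j - 1 : ℕ) : ℤ) * d := by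
      have : ((j - 1 : ℕ) : ℤ) = (j : ℤ) - 1 := by omega
      rw [this]; ring
    have hzd : a + (j : ℤ) * d - d ∈ A := by rw [e1]; exact hmem _ (by omega)
    refine ⟨a + (j : ℤ) * d - d, hzd, a + (j : ℤ) * d, hmem j hj, by linarith, ?_, ?_, by linarith, w,
      hwA, ?_, ?_, ?_⟩
    · intro h; linarith
    · intro h; linarith
    · refine dvd_trans ?_ hw
      have k1 : ((Int.gcd (a + (j : ℤ) * d - d - x) (a + (j : ℤ) * d - x) : ℕ) : ℤ) ∣
          (a + (j : ℤ) * d - d - x) := Int.gcd_dvd_left ..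
      have k2 : ((Int.gcd (a + (j : ℤ) * d - d - x) (a + (j : ℤ) * d - x) : ℕ) : ℤ) ∣
          (a + (j : ℤ) * d - x) := Int.gcd_dvd_right ..
      have k3 : ((Int.gcd (a + (j : ℤ) * d - d - x) (a + (j : ℤ) * d - x) : ℕ) : ℤ) ∣ d := by
        have := dvd_sub k2 k1
        have e : a + (j : ℤ) * d - x - (a + (j : ℤ) * d - d - x) = d := by ring
        rwa [e] at this
      refine Int.dvd_coe_gcd ?_ k2
      have e : a + (i : ℤ) * d - x = (a + (j : ℤ) * d - x) - ((j : ℤ) - i) * d := by ring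
      rw [e]
      exact dvd_sub k2 (Dvd.dvd.mul_left k3 _)
    · have : min x (min (a + (j : ℤ) * d - d) (a + (j : ℤ) * d)) = x := by
        apply min_eq_left
        rw [le_min_iff]
        constructor <;> linarith
      rw [this]
      have : min x (min (a + (i : ℤ) * d) (a + (j : ℤ) * d)) = x := by
        apply min_eq_left
        rw [le_min_iff]
        constructor <;> linarith
      rwa [this] at h1
    · refine h2.trans ?_
      rw [max_le_iff, max_le_iff]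
      refine ⟨le_max_left _ _, ?_, ?_⟩
      · exact le_trans (by linarith) ((le_max_right _ _).trans (le_max_right _ _))
      · exact (le_max_right _ _).trans (le_max_right _ _)
  · have e1 : a + (i : ℤ) * d + d = a + ((i + 1 : ℕ) : ℤ) * d := by push_cast; ring
    have hyd : a + (i : ℤ) * d + d ∈ A := by rw [e1]; exact hmem _ (by omega)
    refine ⟨a + (i : ℤ) * d, hmem i hi, a + (i : ℤ) * d + d, hyd, by linarith, ?_, ?_, by linarith, w,
      hwA, ?_, ?_, ?_⟩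
    · intro h; linarith
    · intro h; linarith
    · refine dvd_trans ?_ hw
      have k1 : ((Int.gcd (a + (i : ℤ) * d - x) (a + (i : ℤ) * d + d - x) : ℕ) : ℤ) ∣
          (a + (i : ℤ) * d - x) := Int.gcd_dvd_left ..
      have k2 : ((Int.gcd (a + (i : ℤ) * d - x) (a + (i : ℤ) * d + d - x) : ℕ) : ℤ) ∣
          (a + (i : ℤ) * d + d - x) := Int.gcd_dvd_right ..
      have k3 : ((Int.gcd (a + (i : ℤ) * d - x) (a + (i : ℤ) * d + d - x) : ℕ) : ℤ) ∣ d := by
        have := dvd_sub k2 k1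
        have e : a + (i : ℤ) * d + d - x - (a + (i : ℤ) * d - x) = d := by ring
        rwa [e] at this
      refine Int.dvd_coe_gcd k1 ?_
      have e : a + (j : ℤ) * d - x = (a + (i : ℤ) * d - x) + ((j : ℤ) - i) * d := by ring
      rw [e]
      exact dvd_add k1 (Dvd.dvd.mul_left k3 _)
    · refine le_trans ?_ h1
      rw [le_min_iff, le_min_iff]
      refine ⟨min_le_left _ _, ?_, ?_⟩
      · exact (min_le_right _ _).trans (min_le_left _ _)
      · exact ((min_le_right _ _).trans (min_le_left _ _)).trans (by linarith)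
    · have : max x (max (a + (i : ℤ) * d) (a + (i : ℤ) * d + d)) = x := by
        apply max_eq_left
        rw [max_le_iff]
        constructor <;> linarith
      rw [this]
      have : max x (max (a + (i : ℤ) * d) (a + (j : ℤ) * d)) = x := by
        apply max_eq_left
        rw [max_le_iff]
        constructor <;> linarith
      rwa [this] at h2

/-- an own pair outside `D` -/
theorem exists_own_avoid {A : Finset ℤ} (hA : ¬ IsAP A) {x : ℤ} (hx : x ∈ A) (D : Set (ℤ × ℤ))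
    (hD : ∀ y ∈ A, ∀ z ∈ A, (y, z) ∈ D → ∃ P : Finset ℤ, IsAP P ∧ P ⊆ A ∧ y ∈ P ∧ z ∈ P ∧
      (∃ v ∈ P, y < v ∧ v < z) ∧ (x < y ∨ z < x)) :
    ∃ y ∈ A, ∃ z ∈ A, y < z ∧ y ≠ x ∧ z ≠ x ∧ Own A x y z ∧ (y, z) ∉ D := by
  classical
  obtain ⟨y0, hy0, z0, hz0, h01, h02, h03, h04⟩ := exists_own hA hx
  set Q := (A ×ˢ A).filter (fun q : ℤ × ℤ => q.1 < q.2 ∧ q.1 ≠ x ∧ q.2 ≠ x ∧ Own A x q.1 q.2)
    with hQ
  have hQne : Q.Nonempty := ⟨(y0, z0), mem_filter.2 ⟨mem_product.2 ⟨hy0, hz0⟩, h01, h02, h03, h04⟩⟩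
  obtain ⟨q, hq, hmin⟩ := exists_min_image Q (fun q => q.2 - q.1) hQne
  obtain ⟨hq1, hq2, hq3, hq4, hq5⟩ := mem_filter.1 hq
  obtain ⟨hqa, hqb⟩ := mem_product.1 hq1
  refine ⟨q.1, hqa, q.2, hqb, hq2, hq3, hq4, hq5, fun hqD => ?_⟩
  obtain ⟨P, hP, hPA, hy, hz, ⟨v, hv, hyv, hvz⟩, hxx⟩ := hD q.1 hqa q.2 hqb hqD
  obtain ⟨y', hy', z', hz', k1, k2, k3, k4, k5⟩ := own_closer hP hPA hy hz hv hyv hvz hxx hq5
  have := hmin (y', z') (mem_filter.2 ⟨mem_product.2 ⟨hy', hz'⟩, k1, k2, k3, k5⟩)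
  dsimp only at this
  linarith

theorem own_shift {A : Finset ℤ} {x y z : ℤ} (h : Own A x y z) :
    Own (A.image (fun u => u - x)) 0 (y - x) (z - x) := by
  classical
  obtain ⟨w, hwA, hw, h1, h2⟩ := h
  refine ⟨w - x, ?_, by simpa using hw, ?_, ?_⟩
  · intro hc
    obtain ⟨u, hu, he⟩ := mem_image.1 hc
    apply hwA
    have : u = w := by linarith
    rwa [← this]
  · have e1 : min x (min y z) = min 0 (min (y - x) (z - x)) + x := by omega
    rw [e1] at h1; linarith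
  · have e1 : max x (max y z) = max 0 (max (y - x) (z - x)) + x := by omega
    rw [e1] at h2; linarith

/-- `star_big` with a set `D` of unused pairs -/
theorem star_big_box
    (ap_count_box : ∀ (a b : ℕ), 1000 * a ≤ b → ∀ (T : Finset (ℕ × ℕ × ℕ)),
      (∀ p ∈ T, 1 ≤ p.1 ∧ 2 ≤ p.2.1 + p.2.2 ∧ p.1 * p.2.1 ≤ a ∧ p.1 * p.2.2 ≤ b) →
      T.card ≤ ((T.biUnion (fun p => prs (prog p.1 p.2.1 p.2.2))).filter
      (fun q : ℤ × ℤ => ¬ (0 < q.1 ∧ 1000 * q.1 ≤ b ∧ 999 * (b : ℤ) ≤ 1000 * q.2))).card +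
        (a + b) / 4)
    (a b : ℕ) (hab : 1000 * a ≤ b) (F : Finset (Finset ℤ)) (hsub : ∀ A ∈ F, A ⊆ Icc (-(a : ℤ)) b)
    (h0 : ∀ A ∈ F, (0 : ℤ) ∈ A) (hint : ∀ A ∈ F, ∀ B ∈ F, A ≠ B → IsAP (A ∩ B))
    (D : Finset (ℤ × ℤ)) (hD1 : D ⊆ prs (Icc (-(a : ℤ)) b))
    (hD2 : ∀ q ∈ D, 0 < q.1 ∧ 1000 * q.1 ≤ b ∧ 999 * (b : ℤ) ≤ 1000 * q.2)
    (hD3 : ∀ A ∈ F, ¬ IsAP A → ∃ q : ℤ × ℤ, q ∈ prs A ∧ Own A 0 q.1 q.2 ∧ q ∉ D) :
    (F.filter (fun A => ¬ A.card ≤ 2)).card + D.card ≤ (a + b).choose 2 + (a + b) / 4 := by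
  classical
  set F2 := F.filter (fun A => ¬ A.card ≤ 2) with hF2
  set FA := F2.filter (fun A => ∃ d i j : ℕ, 1 ≤ d ∧ A = prog d i j) with hFA
  set FN := F2.filter (fun A => ¬ ∃ d i j : ℕ, 1 ≤ d ∧ A = prog d i j) with hFN
  have hsplit2 : FA.card + FN.card = F2.card := card_filter_add_card_filter_not _
  have hF2F : ∀ A ∈ F2, A ∈ F ∧ 3 ≤ A.card := by
    intro A hA
    obtain ⟨h1, h2⟩ := mem_filter.1 hA
    exact ⟨h1, by omega⟩
  set P := FA.biUnion prs with hP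
  set P' := P.filter (fun q : ℤ × ℤ => ¬ (0 < q.1 ∧ 1000 * q.1 ≤ b ∧ 999 * (b : ℤ) ≤ 1000 * q.2))
    with hP'
  have hAP : FA.card ≤ P'.card + (a + b) / 4 := by
    have hch : ∀ A : Finset ℤ, ∃ t : ℕ × ℕ × ℕ, A ∈ FA → 1 ≤ t.1 ∧ A = prog t.1 t.2.1 t.2.2 := by
      intro A
      by_cases hA : A ∈ FA
      · obtain ⟨-, d, i, j, h1, h2⟩ := mem_filter.1 hA
        exact ⟨(d, i, j), fun _ => ⟨h1, h2⟩⟩
      · exact ⟨(0, 0, 0), fun h => absurd h hA⟩
    choose t ht using hch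
    have hinj : (FA.image t).card = FA.card := by
      apply card_image_of_injOn
      intro A hA B hB h
      rw [(ht A (mem_coe.1 hA)).2, (ht B (mem_coe.1 hB)).2, h]
    have h1 := ap_count_box a b hab (FA.image t) (by
      intro p hp
      obtain ⟨A, hA, rfl⟩ := mem_image.1 hp
      obtain ⟨k1, k2⟩ := ht A hA
      obtain ⟨hAF, hA3⟩ := hF2F A (mem_filter.1 hA).1
      have hs := hsub A hAF
      refine ⟨k1, ?_, ?_, ?_⟩
      · have := card_prog_le (t A).1 (t A).2.1 (t A).2.2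
        rw [← k2] at this
        omega
      · have hm : (-((t A).2.1 : ℤ)) * ((t A).1 : ℤ) ∈ A := by
          rw [k2, ← k2]
          rw [k2]
          exact mem_prog.2 ⟨_, ⟨le_rfl, by omega⟩, by rw [← k2]⟩
        have := (mem_Icc.1 (hs hm)).1
        have h5 : (((t A).1 * (t A).2.1 : ℕ) : ℤ) ≤ a := by push_cast; nlinarith
        exact_mod_cast h5
      · have hm : (((t A).2.2 : ℤ)) * ((t A).1 : ℤ) ∈ A := by
          rw [k2]
          exact mem_prog.2 ⟨_, ⟨by omega, le_rfl⟩, by rw [← k2]⟩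
        have := (mem_Icc.1 (hs hm)).2
        have h5 : (((t A).1 * (t A).2.2 : ℕ) : ℤ) ≤ b := by push_cast; nlinarith
        exact_mod_cast h5)
    rw [hinj] at h1
    have h2 : (FA.image t).biUnion (fun p => prs (prog p.1 p.2.1 p.2.2)) = P := by
      rw [hP, image_biUnion]
      refine biUnion_congr rfl ?_
      intro A hA
      rw [← (ht A hA).2]
    rwa [h2] at h1
  have hN : ∀ A : Finset ℤ, ∃ q : ℤ × ℤ, A ∈ FN → q ∈ prs A ∧ Own A 0 q.1 q.2 ∧ q ∉ D := by
    intro A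
    by_cases hA : A ∈ FN
    · obtain ⟨hA2, hnot⟩ := mem_filter.1 hA
      obtain ⟨hAF, hA3⟩ := hF2F A hA2
      have hne : ∃ y ∈ A, y ≠ 0 := by
        by_contra hc
        push Not at hc
        have : A ⊆ {0} := fun y hy => by simp [hc y hy]
        have := card_le_card this
        simp at this
        omega
      have hnAP : ¬ IsAP A := by
        intro hAP'
        apply hnot
        refine prog_of_closed (h0 A hAF) hne ?_
        intro y hy z hz hy0 hz0 w hw k1 k2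
        have hm : ∀ u ∈ A, ∀ v ∈ A, min u v ∈ A := by
          intro u hu v hv
          rcases min_choice u v with e | e <;> rw [e] <;> assumption
        have hM : ∀ u ∈ A, ∀ v ∈ A, max u v ∈ A := by
          intro u hu v hv
          rcases max_choice u v with e | e <;> rw [e] <;> assumption
        exact hAP'.hull (h0 A hAF) hy hz hw (hm _ (h0 A hAF) _ (hm _ hy _ hz))
          (hM _ (h0 A hAF) _ (hM _ hy _ hz)) k1 k2
      obtain ⟨q, hq⟩ := hD3 A hAF hnAP
      exact ⟨q, fun _ => hq⟩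
    · exact ⟨(0, 0), fun h => absurd h hA⟩
  choose π hπ using hN
  have hFNF : ∀ A ∈ FN, A ∈ F := fun A hA => (hF2F A (mem_filter.1 hA).1).1
  have hFAF : ∀ A ∈ FA, A ∈ F := fun A hA => (hF2F A (mem_filter.1 hA).1).1
  have huniq : ∀ A ∈ FN, ∀ B ∈ F, A ≠ B → π A ∉ prs B := by
    intro A hA B hB hne hq
    obtain ⟨h1, h2, -⟩ := hπ A hA
    obtain ⟨⟨k1, k2⟩, -⟩ := mem_prs.1 h1
    obtain ⟨⟨l1, l2⟩, -⟩ := mem_prs.1 hq
    exact own_unique (hint A (hFNF A hA) B hB hne) (h0 A (hFNF A hA)) k1 k2 (h0 B hB) l1 l2 h2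
  have hinj : (FN.image π).card = FN.card := by
    apply card_image_of_injOn
    intro A hA B hB h
    by_contra hne
    have hA' := mem_coe.1 hA
    have hB' := mem_coe.1 hB
    refine huniq A hA' B (hFNF B hB') hne ?_
    rw [h]
    exact (hπ B hB').1
  have hdisj1 : Disjoint P' (FN.image π) := by
    rw [Finset.disjoint_left]
    intro q hq hq'
    obtain ⟨B, hB, hqB⟩ := mem_biUnion.1 (mem_filter.1 hq).1
    obtain ⟨A, hA, rfl⟩ := mem_image.1 hq'
    have hne : A ≠ B := by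
      rintro rfl
      exact (mem_filter.1 hA).2 (mem_filter.1 hB).2
    exact huniq A hA B (hFAF B hB) hne hqB
  have hdisj2 : Disjoint (P' ∪ FN.image π) D := by
    rw [Finset.disjoint_left]
    intro q hq hq'
    rcases mem_union.1 hq with h | h
    · exact (mem_filter.1 h).2 (hD2 q hq')
    · obtain ⟨A, hA, rfl⟩ := mem_image.1 h
      exact (hπ A hA).2.2 hq'
  have hsubU : (P' ∪ FN.image π) ∪ D ⊆ prs (Icc (-(a : ℤ)) b) := by
    intro q hq
    have hmono : ∀ A ∈ F, prs A ⊆ prs (Icc (-(a : ℤ)) b) := by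
      intro A hA r hr
      obtain ⟨⟨h1, h2⟩, h3⟩ := mem_prs.1 hr
      exact mem_prs.2 ⟨⟨hsub A hA h1, hsub A hA h2⟩, h3⟩
    rcases mem_union.1 hq with h | h
    · rcases mem_union.1 h with h | h
      · obtain ⟨B, hB, hqB⟩ := mem_biUnion.1 (mem_filter.1 h).1
        exact hmono B (hFAF B hB) hqB
      · obtain ⟨A, hA, rfl⟩ := mem_image.1 h
        exact hmono A (hFNF A hA) (hπ A hA).1
    · exact hD1 h
  have hU := (card_le_card hsubU).trans (card_prs_le a b)
  rw [card_union_of_disjoint hdisj2, card_union_of_disjoint hdisj1, hinj] at hU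
  omega

end Pool.Agent.H21.AP
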