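import Pool.Agent.H21.AP.Final
import Pool.Agent.H21.AP.Helly

/-! sums and parameters -/

set_option autoImplicit false
namespace Pool.Agent.H21.AP
open Finset Pool.Agent.H483S

theorem inv_sq_sum (D : ℕ) (hD : 1 ≤ D) (n : ℕ) :
    ∑ d ∈ Ico D (D + n), (1 : ℝ) / (d : ℝ) ^ 2 ≤ 2 / (2 * D - 1) - 2 / (2 * (D + n : ℝ) - 1) := by
  induction n with
  | zero => simp
  | succ n ih =>
    rw [← add_assoc, sum_Ico_succ_top (by omega)]
    have hD' : (1 : ℝ) ≤ D := by exact_mod_cast hD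
    have hn : (0 : ℝ) ≤ n := Nat.cast_nonneg n
    push_cast
    have h1 : (1 : ℝ) / ((D : ℝ) + n) ^ 2 ≤ 2 / (2 * (D + n : ℝ) - 1) - 2 / (2 * (D + (n + 1) : ℝ) - 1) := by
      have e1 : (0 : ℝ) < 2 * (D + n : ℝ) - 1 := by linarith
      have e2 : (0 : ℝ) < 2 * (D + (n + 1) : ℝ) - 1 := by linarith
      have e3 : (0 : ℝ) < (D : ℝ) + n := by linarith
      rw [div_sub_div _ _ e1.ne' e2.ne', div_le_div_iff₀ (by positivity) (mul_pos e1 e2)]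
      nlinarith
    linarith

theorem sq_sum (N D : ℕ) (hD : 1 ≤ D) :
    (2 * D - 1) * ∑ d ∈ Icc D N, (N / d) ^ 2 ≤ 2 * N ^ 2 := by
  rcases Nat.lt_or_ge N D with h | h
  · rw [Icc_eq_empty (by omega)]; simp
  obtain ⟨n, hn⟩ : ∃ n, N + 1 = D + n := ⟨N + 1 - D, by omega⟩
  have h1 : Icc D N = Ico D (D + n) := by
    ext d; simp only [mem_Icc, mem_Ico]; omega
  rw [h1]
  have h2 := inv_sq_sum D hD n
  have hD' : (1 : ℝ) ≤ D := by exact_mod_cast hD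
  have hn0 : (0 : ℝ) ≤ n := Nat.cast_nonneg n
  have h3 : ((∑ d ∈ Ico D (D + n), (N / d) ^ 2 : ℕ) : ℝ) ≤ (N : ℝ) ^ 2 * (2 / (2 * D - 1)) := by
    push_cast
    have h4 : ∀ d ∈ Ico D (D + n), (((N / d : ℕ) : ℝ)) ^ 2 ≤ (N : ℝ) ^ 2 * (1 / (d : ℝ) ^ 2) := by
      intro d _
      have := @Nat.cast_div_le ℝ _ _ _ N d
      have h5 : (((N / d : ℕ) : ℝ)) ^ 2 ≤ ((N : ℝ) / d) ^ 2 := pow_le_pow_left₀ (Nat.cast_nonneg _) this 2
      rw [div_pow] at h5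
      rw [mul_one_div]; exact h5
    refine (sum_le_sum h4).trans ?_
    rw [← mul_sum]
    apply mul_le_mul_of_nonneg_left _ (by positivity)
    have e2 : (0 : ℝ) < 2 * (D + n : ℝ) - 1 := by linarith
    have : (0 : ℝ) ≤ 2 / (2 * (D + n : ℝ) - 1) := by positivity
    linarith
  have h6 : (((2 * D - 1) * ∑ d ∈ Ico D (D + n), (N / d) ^ 2 : ℕ) : ℝ) ≤ ((2 * N ^ 2 : ℕ) : ℝ) := by
    have e0 : ((2 * D - 1 : ℕ) : ℝ) = 2 * D - 1 := by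
      rw [Nat.cast_sub (by omega)]; push_cast; ring
    rw [Nat.cast_mul, e0]
    have e1 : (0 : ℝ) < 2 * (D : ℝ) - 1 := by linarith
    calc (2 * (D : ℝ) - 1) * ((∑ d ∈ Ico D (D + n), (N / d) ^ 2 : ℕ) : ℝ)
        ≤ (2 * (D : ℝ) - 1) * ((N : ℝ) ^ 2 * (2 / (2 * D - 1))) := mul_le_mul_of_nonneg_left h3 e1.le
      _ = ((2 * N ^ 2 : ℕ) : ℝ) := by push_cast; field_simp
  exact_mod_cast h6

theorem sq_sum' (N D : ℕ) (hD : 1 ≤ D) :
    (2 * D - 1) * ∑ d ∈ Icc D N, (N / d + 3) ^ 2 ≤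
      2 * N ^ 2 + (2 * D - 1) * (9 * ∑ d ∈ Icc 1 N, (N / d + 1)) := by
  have h1 : ∑ d ∈ Icc D N, (N / d + 3) ^ 2 ≤ ∑ d ∈ Icc D N, (N / d) ^ 2 + 9 * ∑ d ∈ Icc 1 N, (N / d + 1) := by
    have h2 : ∑ d ∈ Icc D N, (N / d + 3) ^ 2 ≤ ∑ d ∈ Icc D N, ((N / d) ^ 2 + 9 * (N / d + 1)) := by
      apply sum_le_sum
      intro d _
      nlinarith [Nat.zero_le (N / d)]
    refine h2.trans ?_
    rw [sum_add_distrib, ← mul_sum]
    apply Nat.add_le_add_left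
    apply Nat.mul_le_mul_left
    apply sum_le_sum_of_subset
    intro d hd
    rw [mem_Icc] at hd ⊢
    omega
  have h3 := sq_sum N D hD
  calc (2 * D - 1) * ∑ d ∈ Icc D N, (N / d + 3) ^ 2
      ≤ (2 * D - 1) * (∑ d ∈ Icc D N, (N / d) ^ 2 + 9 * ∑ d ∈ Icc 1 N, (N / d + 1)) :=
        Nat.mul_le_mul_left _ h1
    _ = (2 * D - 1) * ∑ d ∈ Icc D N, (N / d) ^ 2 + (2 * D - 1) * (9 * ∑ d ∈ Icc 1 N, (N / d + 1)) := by
        ring
    _ ≤ _ := Nat.add_le_add_right h3 _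

theorem params2 : ∃ n0 : ℕ, ∀ n : ℕ, n0 ≤ n → 10 ^ 40 * n ^ 18 ≤ 2 ^ (n - 1) ∧ 10 ^ 40 ≤ n := by
  have h := tendsto_pow_const_div_const_pow_of_one_lt 18 (r := (2 : ℝ)) (by norm_num)
  have h1 : ∀ᶠ n : ℕ in Filter.atTop, (n : ℝ) ^ 18 / 2 ^ n < 1 / (2 * 10 ^ 40) :=
    h.eventually (gt_mem_nhds (by positivity))
  obtain ⟨n1, hn1⟩ := Filter.eventually_atTop.1 h1
  refine ⟨max n1 (10 ^ 40), fun n hn => ⟨?_, le_trans (le_max_right _ _) hn⟩⟩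
  have h2 := hn1 n (le_trans (le_max_left _ _) hn)
  have hn' : 1 ≤ n := le_trans (by norm_num) (le_trans (le_max_right _ _) hn)
  have h3 : (2 : ℝ) ^ n = 2 * 2 ^ (n - 1) := by
    rw [← pow_succ']; congr 1; omega
  rw [div_lt_div_iff₀ (by positivity) (by positivity)] at h2
  have h4 : (10 : ℝ) ^ 40 * (n : ℝ) ^ 18 ≤ 2 ^ (n - 1) := by
    rw [h3] at h2
    linarith
  exact_mod_cast h4

theorem log_bd {N n0 : ℕ} (hN : 2 ^ n0 ≤ N) : ∃ n : ℕ, n0 ≤ n ∧ 2 ^ (n - 1) ≤ N ∧ N < 2 ^ n := by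
  have hNpos : 0 < N := lt_of_lt_of_le (by positivity) hN
  refine ⟨Nat.log 2 N + 1, ?_, ?_, ?_⟩
  · have := Nat.le_log_of_pow_le (by norm_num : 1 < 2) hN
    omega
  · simpa using Nat.pow_log_le_self 2 hNpos.ne'
  · exact Nat.lt_pow_succ_log_self (by norm_num) N

theorem harm_small : ∃ N0 : ℕ, ∀ N : ℕ, N0 ≤ N → 10 ^ 20 * ∑ d ∈ Icc 1 N, (N / d + 1) ≤ N ^ 2 := by
  obtain ⟨n0, hn0⟩ := params2
  refine ⟨2 ^ n0, fun N hN => ?_⟩
  obtain ⟨n, hn, hn1, hn2⟩ := log_bd hN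
  obtain ⟨hp1, hp2⟩ := hn0 n hn
  have h1 := harm_le N n hn2
  rw [sum_add_distrib, sum_const, Nat.card_Icc, smul_eq_mul]
  have hn1' : 1 ≤ n := le_trans (by norm_num) hp2
  have h2 : n ≤ n ^ 18 := Nat.le_self_pow (by norm_num) n
  have h3 : 10 ^ 20 * (n + 2) ≤ N := by omega
  calc 10 ^ 20 * (∑ x ∈ Icc 1 N, N / x + (N + 1 - 1) * 1) ≤ 10 ^ 20 * (N * (n + 1) + N) := by
        apply Nat.mul_le_mul_left
        omega
    _ = N * (10 ^ 20 * (n + 2)) := by ring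
    _ ≤ N * N := Nat.mul_le_mul_left _ h3
    _ = N ^ 2 := by ring

theorem two_choose (N : ℕ) : 2 * N.choose 2 + N = N ^ 2 := by
  rw [Nat.choose_two_right]
  have h2 : 2 ∣ N * (N - 1) := (Nat.even_mul_pred_self N).two_dvd
  have h3 : 2 * (N * (N - 1) / 2) = N * (N - 1) := Nat.mul_div_cancel' h2
  rw [h3]
  rcases Nat.eq_zero_or_pos N with rfl | h
  · simp
  obtain ⟨m, rfl⟩ : ∃ m, N = m + 1 := ⟨N - 1, by omega⟩
  simp only [Nat.add_sub_cancel]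
  ring

/-- many members and not too many progressions: a common element of the small members -/
theorem core : ∃ N0 : ℕ, ∀ N : ℕ, N0 ≤ N → ∀ F : Finset (Finset ℤ), (∀ A ∈ F, A ⊆ Icc 1 (N : ℤ)) →
    (∀ A ∈ F, ∀ B ∈ F, A ≠ B → IsAP (A ∩ B)) → ∀ P : Finset (Finset ℤ), (∀ A ∈ F, IsAP A → A ∈ P) →
    20 * P.card ≤ 9 * N ^ 2 → N.choose 2 + 1 + (N - 1) / 4 < F.card →
    ∃ (S : ℕ) (x : ℤ) (Qs Ql : Finset (Finset ℤ)), x ∈ Icc 1 (N : ℤ) ∧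
      (∀ B ∈ F, B.card ≤ S → x ∈ B) ∧
      (∀ A ∈ Qs, A ∈ F ∧ ¬ IsAP A ∧ x ∈ A ∧ A.card ≤ S) ∧
      F.card ≤ P.card + Ql.card + Qs.card ∧
      10 ^ 20 * Ql.card ≤ N ^ 2 ∧ 10 ^ 20 * (N * (2 * S + 1) ^ 6) ≤ N ^ 2 ∧
      10 ^ 20 * (N * (2 * S + 1) ^ 4) ≤ N ^ 2 ∧ 10 ^ 20 * N ≤ N ^ 2 := by
  classical
  obtain ⟨n0, hn0⟩ := params2
  refine ⟨2 ^ n0, fun N hN F hsub hint P hFP hP hlt => ?_⟩
  have hNpos : 0 < N := lt_of_lt_of_le (by positivity) hN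
  obtain ⟨n, hn, hn1, hn2⟩ := log_bd hN
  obtain ⟨hp1, hp2⟩ := hn0 n hn
  have hNn : 10 ^ 40 * n ^ 18 ≤ N := hp1.trans hn1
  set S := n ^ 3 with hS
  set Ql := F.filter (fun A => ¬ IsAP A ∧ S ≤ A.card) with hQl
  set Qs := F.filter (fun A => ¬ IsAP A ∧ A.card ≤ S) with hQs
  have hsplit : F.card ≤ P.card + Ql.card + Qs.card := by
    have h1 : F ⊆ (P ∪ Ql) ∪ Qs := by
      intro A hA
      by_cases h : IsAP A
      · exact mem_union_left _ (mem_union_left _ (hFP A hA h))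
      · rcases le_total S A.card with h2 | h2
        · exact mem_union_left _ (mem_union_right _ (mem_filter.2 ⟨hA, h, h2⟩))
        · exact mem_union_right _ (mem_filter.2 ⟨hA, h, h2⟩)
    exact (card_le_card h1).trans ((card_union_le _ _).trans (Nat.add_le_add_right (card_union_le _ _) _))
  have hn1' : 1 ≤ n := le_trans (by norm_num) hp2
  have hS4 : 4 ≤ S := by
    rw [hS]
    calc 4 ≤ 10 ^ 40 := by norm_num
      _ ≤ n := hp2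
      _ ≤ n ^ 3 := Nat.le_self_pow (by norm_num) n
  have hlarge := large_few N n S hn2 hS4 Ql (fun A hA => hsub A (mem_filter.1 hA).1)
    (fun A hA B hB => hint A (mem_filter.1 hA).1 B (mem_filter.1 hB).1)
    (fun A hA => (mem_filter.1 hA).2.1) (fun A hA => (mem_filter.1 hA).2.2)
  have hQlc : 10 ^ 20 * Ql.card ≤ N ^ 2 := by
    have h1 : n * (N ^ 2 * (4 * n + 104)) ≤ N ^ 2 * (5 * n ^ 2) := by
      have : 4 * n + 104 ≤ 5 * n := by omega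
      calc n * (N ^ 2 * (4 * n + 104)) ≤ n * (N ^ 2 * (5 * n)) :=
            Nat.mul_le_mul_left _ (Nat.mul_le_mul_left _ this)
        _ = N ^ 2 * (5 * n ^ 2) := by ring
    have h2 : (Ql.card * n) * n ^ 2 ≤ (5 * N ^ 2) * n ^ 2 := by
      calc (Ql.card * n) * n ^ 2 = Ql.card * S := by rw [hS]; ring
        _ ≤ n * (N ^ 2 * (4 * n + 104)) := hlarge
        _ ≤ N ^ 2 * (5 * n ^ 2) := h1
        _ = (5 * N ^ 2) * n ^ 2 := by ring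
    have h3 : Ql.card * n ≤ 5 * N ^ 2 := Nat.le_of_mul_le_mul_right h2 (by positivity)
    have h4 : Ql.card * 10 ^ 40 ≤ Ql.card * n := Nat.mul_le_mul_left _ hp2
    omega
  -- size of the error terms
  have h81 : (2 * S + 1) ^ 4 ≤ 81 * n ^ 12 := by
    calc (2 * S + 1) ^ 4 ≤ (3 * S) ^ 4 := Nat.pow_le_pow_left (by omega) 4
      _ = 81 * n ^ 12 := by rw [hS]; ring
  have h729 : (2 * S + 1) ^ 6 ≤ 729 * n ^ 18 := by
    calc (2 * S + 1) ^ 6 ≤ (3 * S) ^ 6 := Nat.pow_le_pow_left (by omega) 6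
      _ = 729 * n ^ 18 := by rw [hS]; ring
  have h12 : n ^ 12 ≤ n ^ 18 := Nat.pow_le_pow_right hn1' (by norm_num)
  have h6 : n ^ 6 ≤ n ^ 18 := Nat.pow_le_pow_right hn1' (by norm_num)
  have hN12 : 10 ^ 40 ≤ N := by
    have : 1 ≤ n ^ 18 := Nat.one_le_pow _ _ hn1'
    omega
  have hNN : 10 ^ 20 * N ≤ N ^ 2 := by
    calc 10 ^ 20 * N ≤ N * N := Nat.mul_le_mul_right _ (by omega)
      _ = N ^ 2 := by ring
  have hE1 : 10 ^ 20 * (N * (2 * S + 1) ^ 4) ≤ N ^ 2 := by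
    have : 10 ^ 20 * (2 * S + 1) ^ 4 ≤ N := by omega
    calc 10 ^ 20 * (N * (2 * S + 1) ^ 4) = N * (10 ^ 20 * (2 * S + 1) ^ 4) := by ring
      _ ≤ N * N := Nat.mul_le_mul_left _ this
      _ = N ^ 2 := by ring
  have hE0 : 10 ^ 20 * (N * (2 * S + 1) ^ 6) ≤ N ^ 2 := by
    have : 10 ^ 20 * (2 * S + 1) ^ 6 ≤ N := by omega
    calc 10 ^ 20 * (N * (2 * S + 1) ^ 6) = N * (10 ^ 20 * (2 * S + 1) ^ 6) := by ring
      _ ≤ N * N := Nat.mul_le_mul_left _ this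
      _ = N ^ 2 := by ring
  have hE2 : 10 ^ 10 * (S ^ 2 * (N + (2 * S + 1) ^ 4)) ≤ 2 * N ^ 2 := by
    have h1 : S ^ 2 = n ^ 6 := by rw [hS]; ring
    have h2 : 10 ^ 10 * (n ^ 6 * N) ≤ N ^ 2 := by
      have : 10 ^ 10 * n ^ 6 ≤ N := by omega
      calc 10 ^ 10 * (n ^ 6 * N) = N * (10 ^ 10 * n ^ 6) := by ring
        _ ≤ N * N := Nat.mul_le_mul_left _ this
        _ = N ^ 2 := by ring
    have h3 : 10 ^ 10 * (n ^ 6 * (2 * S + 1) ^ 4) ≤ N ^ 2 := by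
      have h4 : n ^ 6 * (2 * S + 1) ^ 4 ≤ n ^ 6 * (81 * n ^ 12) := Nat.mul_le_mul_left _ h81
      have h5 : n ^ 6 * (81 * n ^ 12) = 81 * n ^ 18 := by ring
      have h7 : N ≤ N ^ 2 := Nat.le_self_pow (by norm_num) N
      omega
    rw [h1, mul_add, mul_add]
    omega
  have hc2 := two_choose N
  have hne : ∀ A ∈ F, A.Nonempty := by
    intro A hA
    by_contra hc
    rw [not_nonempty_iff_eq_empty] at hc
    subst hc
    obtain ⟨B, hB, hBne⟩ : ∃ B ∈ F, B ≠ ∅ := by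
      by_contra hc'
      push Not at hc'
      have : F.card ≤ 1 := card_le_one.2 (fun a ha b hb => by rw [hc' a ha, hc' b hb])
      omega
    obtain ⟨u, hu⟩ := (hint ∅ hA B hB hBne.symm).nonempty
    simp at hu
  obtain ⟨x, hxN, hx⟩ := small_star N S F hsub hint hne Qs (fun A hA => by
    obtain ⟨h1, h2, h3⟩ := mem_filter.1 hA
    exact ⟨h1, h2, h3⟩) (by omega)
  refine ⟨S, x, Qs, Ql, hxN, hx, ?_, hsplit, hQlc, hE0, hE1, hNN⟩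
  intro A hA
  obtain ⟨h1, h2, h3⟩ := mem_filter.1 hA
  exact ⟨h1, h2, hx A h1 h3, h3⟩

end Pool.Agent.H21.AP
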